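import Mathlib

/-!
# The exchange argument of Ellingham and Zha for trees of maximum degree three
-/

namespace Pool.Agent.Q128.Ham

open Relation

variable {V : Type*}

/-- `H` is a connected subgraph of `Γ` on the vertex set `U`, of maximum degree at most three. -/
structure Sub3 (Γ : V → V → Prop) (U : Set V) (H : V → V → Prop) : Prop where
  symm : ∀ x y, H x y → H y x
  sub : ∀ x y, H x y → Γ x y
  supp : ∀ x y, H x y → x ∈ U
  conn : ∀ x ∈ U, ∀ y ∈ U, ReflTransGen H x y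
  deg : ∀ x, {y | H x y}.ncard ≤ 3

/-- delete the vertices in `S` -/
def Res (H : V → V → Prop) (S : Set V) (x y : V) : Prop := H x y ∧ x ∉ S ∧ y ∉ S

/-- `S`-equivalence -/
structure Eqv (S : Set V) (T H : V → V → Prop) : Prop where
  edge : ∀ s ∈ S, ∀ u, H s u ↔ T s u
  fwd : ∀ x y, Res T S x y → ReflTransGen (Res H S) x y
  bwd : ∀ x y, Res H S x y → ReflTransGen (Res T S) x y

theorem Res.symm {H : V → V → Prop} (h : ∀ x y, H x y → H y x) {S : Set V} {x y : V}
    (hr : Res H S x y) : Res H S y x := ⟨h _ _ hr.1, hr.2.2, hr.2.1⟩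

theorem Res.mono {H : V → V → Prop} {S S' : Set V} (hS : S' ⊆ S) {x y : V}
    (hr : Res H S x y) : Res H S' x y :=
  ⟨hr.1, fun h => hr.2.1 (hS h), fun h => hr.2.2 (hS h)⟩

theorem rtg_mono {R R' : V → V → Prop} (h : ∀ x y, R x y → R' x y) {x y : V}
    (hr : ReflTransGen R x y) : ReflTransGen R' x y := ReflTransGen.mono h _ _ hr

theorem rtg_flat {R R' : V → V → Prop} (h : ∀ x y, R x y → ReflTransGen R' x y) {x y : V}
    (hr : ReflTransGen R x y) : ReflTransGen R' x y := by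
  induction hr with
  | refl => exact ReflTransGen.refl
  | tail _ h2 ih => exact ih.trans (h _ _ h2)

theorem rtg_symm {R : V → V → Prop} (h : ∀ x y, R x y → R y x) {x y : V}
    (hr : ReflTransGen R x y) : ReflTransGen R y x := by
  induction hr with
  | refl => exact ReflTransGen.refl
  | tail _ h2 ih => exact ReflTransGen.head (h _ _ h2) ih

theorem Eqv.refl (S : Set V) (T : V → V → Prop) : Eqv S T T :=
  ⟨fun _ _ _ => Iff.rfl, fun _ _ h => ReflTransGen.single h, fun _ _ h => ReflTransGen.single h⟩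

theorem Eqv.mono {S S' : Set V} (hS : S' ⊆ S) {T H : V → V → Prop}
    (hT : ∀ x y, T x y → T y x) (hH : ∀ x y, H x y → H y x) (h : Eqv S T H) : Eqv S' T H := by
  refine ⟨fun s hs u => h.edge s (hS hs) u, ?_, ?_⟩
  · intro x y hxy
    by_cases hx : x ∈ S
    · exact ReflTransGen.single ⟨(h.edge x hx y).2 hxy.1, hxy.2⟩
    by_cases hy : y ∈ S
    · exact ReflTransGen.single ⟨hH _ _ ((h.edge y hy x).2 (hT _ _ hxy.1)), hxy.2⟩
    exact rtg_mono (fun _ _ => Res.mono hS) (h.fwd x y ⟨hxy.1, hx, hy⟩)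
  · intro x y hxy
    by_cases hx : x ∈ S
    · exact ReflTransGen.single ⟨(h.edge x hx y).1 hxy.1, hxy.2⟩
    by_cases hy : y ∈ S
    · exact ReflTransGen.single ⟨hT _ _ ((h.edge y hy x).1 (hH _ _ hxy.1)), hxy.2⟩
    exact rtg_mono (fun _ _ => Res.mono hS) (h.bwd x y ⟨hxy.1, hx, hy⟩)

theorem rtg_res_notMem {H : V → V → Prop} {S : Set V} {x y : V} (hx : x ∉ S)
    (h : ReflTransGen (Res H S) x y) : y ∉ S := by
  induction h with
  | refl => exact hx
  | tail _ h2 _ => exact h2.2.2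

/-- the crossing lemma -/
theorem crossing {R : V → V → Prop} {Y : Set V} {y z : V} (hz : z ∉ Y)
    (h : ReflTransGen R y z) (hy : y ∈ Y) :
    ∃ a ∈ Y, ∃ s, s ∉ Y ∧ R a s ∧ ReflTransGen (Res R Y) s z := by
  have key : ∀ x, ReflTransGen R x z →
      (x ∈ Y → ∃ a ∈ Y, ∃ s, s ∉ Y ∧ R a s ∧ ReflTransGen (Res R Y) s z) ∧
      (x ∉ Y → (∃ a ∈ Y, ∃ s, s ∉ Y ∧ R a s ∧ ReflTransGen (Res R Y) s z) ∨
        ReflTransGen (Res R Y) x z) := by
    intro x hx
    induction hx using ReflTransGen.head_induction_on with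
    | refl => exact ⟨fun h => absurd h hz, fun _ => Or.inr ReflTransGen.refl⟩
    | @head a c hac hcz ih =>
      constructor
      · intro ha
        by_cases hc : c ∈ Y
        · exact ih.1 hc
        · rcases ih.2 hc with h1 | h1
          · exact h1
          · exact ⟨a, ha, c, hc, hac, h1⟩
      · intro ha
        by_cases hc : c ∈ Y
        · exact Or.inl (ih.1 hc)
        · rcases ih.2 hc with h1 | h1
          · exact Or.inl h1
          · exact Or.inr (ReflTransGen.head ⟨hac, ha, hc⟩ h1)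
  exact (key y h).1 hy

/-- mixing two `S`-equivalent subgraphs -/
theorem mix {Γ : V → V → Prop} {U S : Set V} {T H₁ H₂ : V → V → Prop} {y : V} (hyS : y ∉ S)
    (hT : Sub3 Γ U T) (h1 : Sub3 Γ U H₁) (h2 : Sub3 Γ U H₂) (e1 : Eqv S T H₁)
    (e2 : Eqv S T H₂) :
    ∃ M : V → V → Prop, Sub3 Γ U M ∧ Eqv S T M ∧
      (∀ x, ReflTransGen (Res T S) y x → ∀ u, M x u ↔ H₁ x u) ∧
      (∀ x, ¬ ReflTransGen (Res T S) y x → ∀ u, M x u ↔ H₂ x u) := by
  classical
  set C : Set V := {x | ReflTransGen (Res T S) y x} with hC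
  have hCS : ∀ x ∈ C, x ∉ S := fun x hx => rtg_res_notMem hyS hx
  -- leaving `C` inside `H₁` or `H₂` means entering `S`
  have hout1 : ∀ x ∈ C, ∀ w, H₁ x w → w ∉ C → w ∈ S := by
    intro x hx w hw hwC
    by_contra hwS
    exact hwC (ReflTransGen.trans hx (e1.bwd x w ⟨hw, hCS x hx, hwS⟩))
  have hout2 : ∀ x ∈ C, ∀ w, H₂ x w → w ∉ C → w ∈ S := by
    intro x hx w hw hwC
    by_contra hwS
    exact hwC (ReflTransGen.trans hx (e2.bwd x w ⟨hw, hCS x hx, hwS⟩))
  -- the two graphs agree on edges between `C` and `S`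
  have hag : ∀ x, ∀ w ∈ S, H₁ x w ↔ H₂ x w := by
    intro x w hw
    constructor
    · intro h
      exact h2.symm _ _ ((e2.edge w hw x).2 ((e1.edge w hw x).1 (h1.symm _ _ h)))
    · intro h
      exact h1.symm _ _ ((e1.edge w hw x).2 ((e2.edge w hw x).1 (h2.symm _ _ h)))
  set M : V → V → Prop := fun x w => (x ∈ C ∧ H₁ x w) ∨ (x ∉ C ∧ H₂ x w) with hM
  have hM1 : ∀ x ∈ C, ∀ u, M x u ↔ H₁ x u := by
    intro x hx u
    simp only [hM]
    tauto
  have hM2 : ∀ x, x ∉ C → ∀ u, M x u ↔ H₂ x u := by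
    intro x hx u
    simp only [hM]
    tauto
  have hMsymm : ∀ x w, M x w → M w x := by
    intro x w hxw
    by_cases hx : x ∈ C <;> by_cases hw : w ∈ C
    · rw [hM1 x hx] at hxw
      rw [hM1 w hw]
      exact h1.symm _ _ hxw
    · rw [hM1 x hx] at hxw
      rw [hM2 w hw]
      exact h2.symm _ _ ((hag x w (hout1 x hx w hxw hw)).1 hxw)
    · rw [hM2 x hx] at hxw
      rw [hM1 w hw]
      have h3 : H₂ w x := h2.symm _ _ hxw
      exact (hag w x (hout2 w hw x h3 hx)).2 h3
    · rw [hM2 x hx] at hxw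
      rw [hM2 w hw]
      exact h2.symm _ _ hxw
  -- walks inside `C`
  have hin : ∀ a b, a ∈ C → ReflTransGen (Res H₁ S) a b →
      ReflTransGen (Res M S) a b := by
    intro a b ha hab
    have : ReflTransGen (Res M S) a b ∧ b ∈ C := by
      induction hab with
      | refl => exact ⟨ReflTransGen.refl, ha⟩
      | tail _ h4 ih =>
        exact ⟨ih.1.tail ⟨(hM1 _ ih.2 _).2 h4.1, h4.2⟩, ReflTransGen.trans ih.2 (e1.bwd _ _ h4)⟩
    exact this.1
  have hnin : ∀ a b, a ∉ C → ReflTransGen (Res H₂ S) a b →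
      ReflTransGen (Res M S) a b := by
    intro a b ha hab
    have : ReflTransGen (Res M S) a b ∧ b ∉ C := by
      induction hab with
      | refl => exact ⟨ReflTransGen.refl, ha⟩
      | @tail b' c' _ h4 ih =>
        refine ⟨ih.1.tail ⟨(hM2 _ ih.2 _).2 h4.1, h4.2⟩, ?_⟩
        intro hc
        apply ih.2
        refine ReflTransGen.trans hc ?_
        exact rtg_symm (fun _ _ => Res.symm hT.symm) (e2.bwd _ _ h4)
    exact this.1
  have hfwd : ∀ x w, Res T S x w → ReflTransGen (Res M S) x w := by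
    intro x w hxw
    by_cases hx : x ∈ C
    · exact hin x w hx (e1.fwd x w hxw)
    · exact hnin x w hx (e2.fwd x w hxw)
  have hResM : ∀ x w, Res M S x w → M x w := fun _ _ h => h.1
  refine ⟨M, ⟨hMsymm, ?_, ?_, ?_, ?_⟩, ⟨?_, hfwd, ?_⟩, hM1, hM2⟩
  · rintro x w (⟨_, h⟩ | ⟨_, h⟩)
    · exact h1.sub _ _ h
    · exact h2.sub _ _ h
  · rintro x w (⟨_, h⟩ | ⟨_, h⟩)
    · exact h1.supp _ _ h
    · exact h2.supp _ _ h
  · intro x hx w hw
    refine rtg_flat ?_ (h2.conn x hx w hw)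
    intro a b hab
    by_cases ha : a ∈ C
    · by_cases hb : b ∈ C
      · have h5 : ReflTransGen (Res T S) a b :=
          ReflTransGen.trans (rtg_symm (fun _ _ => Res.symm hT.symm) ha) hb
        exact rtg_mono hResM (rtg_flat hfwd h5)
      · exact ReflTransGen.single (hMsymm _ _ ((hM2 b hb a).2 (h2.symm _ _ hab)))
    · exact ReflTransGen.single ((hM2 a ha b).2 hab)
  · intro x
    by_cases hx : x ∈ C
    · have : {w | M x w} = {w | H₁ x w} := by
        ext w; exact hM1 x hx w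
      rw [this]; exact h1.deg x
    · have : {w | M x w} = {w | H₂ x w} := by
        ext w; exact hM2 x hx w
      rw [this]; exact h2.deg x
  · intro s hs u
    have : s ∉ C := fun h => hCS s h hs
    rw [hM2 s this]
    exact e2.edge s hs u
  · intro x w hxw
    by_cases hx : x ∈ C
    · exact e1.bwd x w ⟨(hM1 x hx w).1 hxw.1, hxw.2⟩
    · exact e2.bwd x w ⟨(hM2 x hx w).1 hxw.1, hxw.2⟩

end Pool.Agent.Q128.Ham
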