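import Pool.Agent.Q128.Exch

/-!
# The exchange argument, continued: the stable set
-/

namespace Pool.Agent.Q128.Ham

open Relation

variable {V : Type*}

/-- the Ellingham–Zha sequence -/
def Sq (Γ : V → V → Prop) (U : Set V) (T : V → V → Prop) : ℕ → Set V
  | 0 => ∅
  | j + 1 => Sq Γ U T j ∪
      {u | u ∈ U ∧ ∀ H, Sub3 Γ U H → Eqv (Sq Γ U T j) T H → 3 ≤ {w | H u w}.ncard}

theorem Sq_mono_succ (Γ : V → V → Prop) (U : Set V) (T : V → V → Prop) (j : ℕ) :
    Sq Γ U T j ⊆ Sq Γ U T (j + 1) := by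
  intro x hx
  exact Or.inl hx

theorem Sq_mono (Γ : V → V → Prop) (U : Set V) (T : V → V → Prop) :
    Monotone (Sq Γ U T) := monotone_nat_of_le_succ (Sq_mono_succ Γ U T)

theorem exchange [Finite V] {Γ : V → V → Prop} (hsymm : ∀ x y, Γ x y → Γ y x)
    {U : Set V} {T : V → V → Prop}
    (hT : Sub3 Γ U T) {m : ℕ} (hm : Sq Γ U T (m + 1) = Sq Γ U T m) {y z : V} (hy : y ∈ U)
    (hz : z ∈ U) (hyS : y ∉ Sq Γ U T m) (hzS : z ∉ Sq Γ U T m) (hyz : Γ y z) :
    ReflTransGen (Res T (Sq Γ U T m)) y z := by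
  classical
  by_contra hne
  have hyS' : y ∉ Sq Γ U T (m + 1) := by rwa [hm]
  have hzS' : z ∉ Sq Γ U T (m + 1) := by rwa [hm]
  obtain ⟨H₁, h1, e1, d1⟩ : ∃ H, Sub3 Γ U H ∧ Eqv (Sq Γ U T m) T H ∧ {w | H y w}.ncard ≤ 2 := by
    by_contra hc
    push Not at hc
    apply hyS'
    right
    refine ⟨hy, fun H hH he => ?_⟩
    have := hc H hH he
    omega
  obtain ⟨H₂, h2, e2, d2⟩ : ∃ H, Sub3 Γ U H ∧ Eqv (Sq Γ U T m) T H ∧ {w | H z w}.ncard ≤ 2 := by
    by_contra hc
    push Not at hc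
    apply hzS'
    right
    refine ⟨hz, fun H hH he => ?_⟩
    have := hc H hH he
    omega
  obtain ⟨M, hM, eM, m1, m2⟩ := mix hyS hT h1 h2 e1 e2
  have dy : {w | M y w}.ncard ≤ 2 := by
    have : {w | M y w} = {w | H₁ y w} := by
      ext w; exact m1 y ReflTransGen.refl w
    rw [this]; exact d1
  have dz : {w | M z w}.ncard ≤ 2 := by
    have : {w | M z w} = {w | H₂ z w} := by
      ext w; exact m2 z hne w
    rw [this]; exact d2
  -- find the critical level
  have hlev0 : ReflTransGen (Res M (Sq Γ U T 0)) y z := by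
    refine rtg_mono ?_ (hM.conn y hy z hz)
    intro a b hab
    exact ⟨hab, by simp [Sq], by simp [Sq]⟩
  have hlevm : ¬ ReflTransGen (Res M (Sq Γ U T m)) y z := fun h => hne (rtg_flat eM.bwd h)
  obtain ⟨i, him, hi1, hi2⟩ : ∃ i, i + 1 ≤ m ∧ ReflTransGen (Res M (Sq Γ U T i)) y z ∧
      ¬ ReflTransGen (Res M (Sq Γ U T (i + 1))) y z := by
    by_contra hc
    push Not at hc
    have : ∀ i, i ≤ m → ReflTransGen (Res M (Sq Γ U T i)) y z := by
      intro i
      induction i with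
      | zero => intro _; exact hlev0
      | succ i ih => intro h; exact hc i h (ih (by omega))
    exact hlevm (this m le_rfl)
  set Y : Set V := {x | ReflTransGen (Res M (Sq Γ U T (i + 1))) y x} with hYdef
  have hsubm : Sq Γ U T (i + 1) ⊆ Sq Γ U T m := Sq_mono Γ U T him
  have hsubi : Sq Γ U T i ⊆ Sq Γ U T (i + 1) := Sq_mono_succ Γ U T i
  have hyi : y ∉ Sq Γ U T (i + 1) := fun h => hyS (hsubm h)
  have hzi : z ∉ Sq Γ U T (i + 1) := fun h => hzS (hsubm h)
  have hYS : ∀ x ∈ Y, x ∉ Sq Γ U T (i + 1) := fun x hx => rtg_res_notMem hyi hx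
  obtain ⟨a, haY, s, hsY, has, hsz⟩ := crossing (Y := Y) hi2 hi1 ReflTransGen.refl
  have hsS : s ∈ Sq Γ U T (i + 1) := by
    by_contra hs
    exact hsY (ReflTransGen.tail haY ⟨has.1, hYS a haY, hs⟩)
  have hsnotm : s ≠ y ∧ s ≠ z := by
    constructor
    · rintro rfl; exact hyi hsS
    · rintro rfl; exact hzi hsS
  have hsprop : ∀ H, Sub3 Γ U H → Eqv (Sq Γ U T i) T H → 3 ≤ {w | H s w}.ncard := by
    rcases hsS with h | h
    · exact absurd h has.2.2
    · exact h.2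
  have hyz' : y ≠ z := by
    rintro rfl
    exact hne ReflTransGen.refl
  -- the modified graph
  set M' : V → V → Prop := fun x w => (M x w ∧ ¬ (x = a ∧ w = s) ∧ ¬ (x = s ∧ w = a)) ∨
    (x = y ∧ w = z) ∨ (x = z ∧ w = y) with hM'
  have hM'symm : ∀ x w, M' x w → M' w x := by
    rintro x w (⟨h1, h2, h3⟩ | ⟨rfl, rfl⟩ | ⟨rfl, rfl⟩)
    · exact Or.inl ⟨hM.symm _ _ h1, fun h => h3 ⟨h.2, h.1⟩, fun h => h2 ⟨h.2, h.1⟩⟩
    · exact Or.inr (Or.inr ⟨rfl, rfl⟩)
    · exact Or.inr (Or.inl ⟨rfl, rfl⟩)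
  -- detour
  have hya : ReflTransGen (Res M' (Sq Γ U T i)) y a := by
    have hgen : ∀ b, ReflTransGen (Res M (Sq Γ U T (i + 1))) y b →
        ReflTransGen (Res M' (Sq Γ U T i)) y b := by
      intro b hb
      induction hb with
      | refl => exact ReflTransGen.refl
      | @tail b c hyb hbc ih =>
        refine ih.tail ⟨Or.inl ⟨hbc.1, ?_, ?_⟩, fun h => hbc.2.1 (hsubi h),
          fun h => hbc.2.2 (hsubi h)⟩
        · rintro ⟨-, rfl⟩; exact hbc.2.2 hsS
        · rintro ⟨rfl, -⟩; exact hbc.2.1 hsS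
    exact hgen a haY
  have hsz' : ReflTransGen (Res M' (Sq Γ U T i)) s z := by
    refine rtg_mono ?_ hsz
    intro b c hbc
    refine ⟨Or.inl ⟨hbc.1.1, ?_, ?_⟩, hbc.1.2⟩
    · rintro ⟨rfl, -⟩; exact hbc.2.1 haY
    · rintro ⟨-, rfl⟩; exact hbc.2.2 haY
  have hyzR : Res M' (Sq Γ U T i) y z :=
    ⟨Or.inr (Or.inl ⟨rfl, rfl⟩), fun h => hyi (hsubi h), fun h => hzi (hsubi h)⟩
  have hResSymm : ∀ b c, Res M' (Sq Γ U T i) b c → Res M' (Sq Γ U T i) c b :=
    fun _ _ => Res.symm hM'symm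
  have hdet : ReflTransGen (Res M' (Sq Γ U T i)) a s := by
    refine (rtg_symm hResSymm hya).trans ?_
    refine ReflTransGen.head hyzR ?_
    exact rtg_symm hResSymm hsz'
  have hResM : ∀ x w, Res M' (Sq Γ U T i) x w → M' x w := fun _ _ h => h.1
  have hMM' : ∀ x w, M x w → ReflTransGen M' x w := by
    intro x w hxw
    by_cases c1 : x = a ∧ w = s
    · obtain ⟨rfl, rfl⟩ := c1
      exact rtg_mono hResM hdet
    by_cases c2 : x = s ∧ w = a
    · obtain ⟨rfl, rfl⟩ := c2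
      exact rtg_symm hM'symm (rtg_mono hResM hdet)
    exact ReflTransGen.single (Or.inl ⟨hxw, c1, c2⟩)
  have hMMres : ∀ x w, Res M (Sq Γ U T i) x w → ReflTransGen (Res M' (Sq Γ U T i)) x w := by
    intro x w hxw
    by_cases c1 : x = a ∧ w = s
    · obtain ⟨rfl, rfl⟩ := c1
      exact hdet
    by_cases c2 : x = s ∧ w = a
    · obtain ⟨rfl, rfl⟩ := c2
      exact rtg_symm hResSymm hdet
    exact ReflTransGen.single ⟨Or.inl ⟨hxw.1, c1, c2⟩, hxw.2⟩
  have hM'Mres : ∀ x w, Res M' (Sq Γ U T i) x w → ReflTransGen (Res M (Sq Γ U T i)) x w := by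
    rintro x w ⟨h | ⟨rfl, rfl⟩ | ⟨rfl, rfl⟩, h'⟩
    · exact ReflTransGen.single ⟨h.1, h'⟩
    · exact hi1
    · exact rtg_symm (fun _ _ => Res.symm hM.symm) hi1
  have hM'sub : Sub3 Γ U M' := by
    refine ⟨hM'symm, ?_, ?_, ?_, ?_⟩
    · rintro x w (h | ⟨rfl, rfl⟩ | ⟨rfl, rfl⟩)
      · exact hM.sub _ _ h.1
      · exact hyz
      · exact hsymm _ _ hyz
    · rintro x w (h | ⟨rfl, rfl⟩ | ⟨rfl, rfl⟩)
      · exact hM.supp _ _ h.1
      · exact hy
      · exact hz
    · intro x hx w hw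
      exact rtg_flat hMM' (hM.conn x hx w hw)
    · intro x
      by_cases hxy : x = y
      · subst hxy
        have hsub : {w | M' x w} ⊆ insert z {w | M x w} := by
          rintro w (h | ⟨-, rfl⟩ | ⟨h, -⟩)
          · exact Or.inr h.1
          · exact Or.inl rfl
          · exact absurd h hyz'
        refine (Set.ncard_le_ncard hsub (Set.toFinite _)).trans ?_
        refine (Set.ncard_insert_le _ _).trans ?_
        omega
      by_cases hxz : x = z
      · subst hxz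
        have hsub : {w | M' x w} ⊆ insert y {w | M x w} := by
          rintro w (h | ⟨h, -⟩ | ⟨-, rfl⟩)
          · exact Or.inr h.1
          · exact absurd h hxy
          · exact Or.inl rfl
        refine (Set.ncard_le_ncard hsub (Set.toFinite _)).trans ?_
        refine (Set.ncard_insert_le _ _).trans ?_
        omega
      have hsub : {w | M' x w} ⊆ {w | M x w} := by
        rintro w (h | ⟨h, -⟩ | ⟨h, -⟩)
        · exact h.1
        · exact absurd h hxy
        · exact absurd h hxz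
      exact (Set.ncard_le_ncard hsub (Set.toFinite _)).trans (hM.deg x)
  have hM'eqv : Eqv (Sq Γ U T i) T M' := by
    have eMi : Eqv (Sq Γ U T i) T M := eM.mono (hsubi.trans hsubm) hT.symm hM.symm
    refine ⟨?_, ?_, ?_⟩
    · intro t ht u
      rw [← eMi.edge t ht u]
      constructor
      · rintro (h | ⟨rfl, -⟩ | ⟨rfl, -⟩)
        · exact h.1
        · exact absurd (hsubi ht) hyi
        · exact absurd (hsubi ht) hzi
      · intro h
        refine Or.inl ⟨h, ?_, ?_⟩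
        · rintro ⟨rfl, -⟩; exact has.2.1 ht
        · rintro ⟨rfl, -⟩; exact has.2.2 ht
    · intro x w hxw
      exact rtg_flat hMMres (eMi.fwd x w hxw)
    · intro x w hxw
      exact rtg_flat eMi.bwd (hM'Mres x w hxw)
  have hfin := hsprop M' hM'sub hM'eqv
  have hsub : {w | M' s w} ⊆ {w | M s w} \ {a} := by
    rintro w (h | ⟨h, -⟩ | ⟨h, -⟩)
    · refine ⟨h.1, ?_⟩
      rintro rfl
      exact h.2.2 ⟨rfl, rfl⟩
    · exact absurd h hsnotm.1
    · exact absurd h hsnotm.2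
  have h3 := Set.ncard_le_ncard hsub (Set.toFinite _)
  have h4 : a ∈ {w | M s w} := hM.symm _ _ has.1
  have h5 := Set.ncard_sdiff_singleton_lt_of_mem h4 (Set.toFinite _)
  have h6 := hM.deg s
  omega

end Pool.Agent.Q128.Ham
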