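import Pool.Agent.Q128.HamBase

/-!
# Lifting Hamiltonian paths of the quotient
-/

namespace Pool.Agent.Q128.Ham

open List

variable {G : Type*} [Group G]

/-- attaching the cosets of a normal subgroup along a path of the quotient -/
theorem lift_path {A S : Set G} {N : Subgroup G} [N.Normal]
    (hA : ∀ a ∈ A, a⁻¹ ∈ A) (hS : ∀ s ∈ S, ∃ B, HPath S N s B) (hSA : S ⊆ A)
    (hconj : ∀ s ∈ S, ∀ g, g * s * g⁻¹ ∈ S) (hN : 2 ≤ Nat.card N) :
    ∀ (T : List G) (g : G) (L : List G), Good A N L → 1 ≤ sl N S g L →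
      (g :: T).IsChain (step A) → T.Pairwise (fun x y => x⁻¹ * y ∉ N) → (∀ x ∈ T, x ∉ L) →
      ∃ L', Good A N L' ∧ ∀ h, h ∈ L' ↔ h ∈ L ∨ ∃ x ∈ T, x⁻¹ * h ∈ N := by
  intro T
  induction T with
  | nil => intro g L hL _ _ _ _; exact ⟨L, hL, by simp⟩
  | cons q T ih =>
    intro g L hL hs hch hp hnot
    rw [List.isChain_cons_cons] at hch
    rw [List.pairwise_cons] at hp
    have hatt : Att A S S N g q := by
      intro x hx s hs'
      refine ⟨x * (g⁻¹ * q), (g⁻¹ * q)⁻¹ * s * (g⁻¹ * q), ?_, ?_, ?_, ?_⟩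
      · have := hconj s hs' (g⁻¹ * q)⁻¹
        rwa [inv_inv] at this
      · have e : q⁻¹ * (x * (g⁻¹ * q)) = (g⁻¹ * q)⁻¹ * (g⁻¹ * x) * (g⁻¹ * q)⁻¹⁻¹ := by group
        rw [e]
        exact Subgroup.Normal.conj_mem inferInstance _ hx _
      · have e : x⁻¹ * (x * (g⁻¹ * q)) = g⁻¹ * q := by group
        rw [e]
        exact hch.1
      · have e : (x * (g⁻¹ * q) * ((g⁻¹ * q)⁻¹ * s * (g⁻¹ * q)))⁻¹ * (x * s) = (g⁻¹ * q)⁻¹ := by
          group
        rw [e]
        exact hA _ hch.1
    obtain ⟨L', g1, g2, g3, g4, g5⟩ := insert_core hS hSA hL (hnot q (by simp)) hatt hs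
    obtain ⟨L'', k1, k2⟩ := ih q L' g1 (by omega) hch.2 hp.2 (by
      intro x hx hxL
      rcases (g2 x).1 hxL with h1 | h1
      · exact hnot x (List.mem_cons_of_mem _ hx) h1
      · exact hp.1 x hx h1)
    refine ⟨L'', k1, ?_⟩
    intro h
    rw [k2, g2]
    simp only [List.mem_cons, exists_eq_or_imp]
    tauto

/-- the elements of `A` whose whole conjugacy class lies in `A` -/
def core (A : Set G) : Set G := {a | a ∈ A ∧ ∀ g, g * a * g⁻¹ ∈ A}

theorem core_conj {A : Set G} : ∀ c ∈ core A, ∀ g, g * c * g⁻¹ ∈ core A := by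
  rintro c ⟨_, hc2⟩ g
  refine ⟨hc2 g, ?_⟩
  intro h
  have := hc2 (h * g)
  have e : h * g * c * (h * g)⁻¹ = h * (g * c * g⁻¹) * h⁻¹ := by group
  rwa [e] at this

theorem core_inv {A : Set G} (hA : ∀ a ∈ A, a⁻¹ ∈ A) : ∀ c ∈ core A, c⁻¹ ∈ core A := by
  rintro c ⟨hc1, hc2⟩
  refine ⟨hA _ hc1, ?_⟩
  intro g
  have := hA _ (hc2 g)
  have e : (g * c * g⁻¹)⁻¹ = g * c⁻¹ * g⁻¹ := by group
  rwa [e] at this

theorem core_sub {A : Set G} : core A ⊆ A := fun _ h => h.1

instance closure_core_normal (A : Set G) : (Subgroup.closure (core A)).Normal := by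
  constructor
  intro n hn g
  induction hn using Subgroup.closure_induction with
  | mem x hx => exact Subgroup.subset_closure (core_conj x hx g)
  | one => simp
  | mul x y _ _ hx hy =>
    have e : g * (x * y) * g⁻¹ = (g * x * g⁻¹) * (g * y * g⁻¹) := by group
    rw [e]
    exact Subgroup.mul_mem _ hx hy
  | inv x _ hx =>
    have e : g * x⁻¹ * g⁻¹ = (g * x * g⁻¹)⁻¹ := by group
    rw [e]
    exact Subgroup.inv_mem _ hx

theorem St_conj {C : Set G} {N : Subgroup G} [hN : N.Normal]
    (hC : ∀ c ∈ C, ∀ g, g * c * g⁻¹ ∈ C) : ∀ s ∈ St C N, ∀ g, g * s * g⁻¹ ∈ St C N := by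
  rintro s ⟨hs, B, hB⟩ g
  refine ⟨hC s hs g, B.map (fun x => g * x * g⁻¹), ?_, ?_, ?_, ?_, ?_⟩
  · refine hB.nodup.map ?_
    intro x y hxy
    simpa using hxy
  · intro h
    rw [List.mem_map]
    constructor
    · rintro ⟨z, hz, rfl⟩
      exact hN.conj_mem _ ((hB.mem z).1 hz) g
    · intro hh
      refine ⟨g⁻¹ * h * g, ?_, by group⟩
      rw [hB.mem]
      have := hN.conj_mem _ hh g⁻¹
      rwa [inv_inv] at this
  · rw [List.isChain_map]
    refine hB.chain.imp ?_
    intro x y hxy
    unfold step at hxy ⊢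
    have e : (g * x * g⁻¹)⁻¹ * (g * y * g⁻¹) = g * (x⁻¹ * y) * g⁻¹ := by group
    rw [e]
    exact hC _ hxy g
  · rw [List.head?_map, hB.head]; simp
  · rw [List.getLast?_map, hB.last]; simp

/-- nontrivial conjugation-closed connection sets have slots -/
theorem St_closure_nonempty [Finite G] {C : Set G}
    (hC : ∀ c ∈ C, ∀ g, g * c * g⁻¹ ∈ C) (hCi : ∀ c ∈ C, c⁻¹ ∈ C)
    (hN : Subgroup.closure C ≠ ⊥) : (St C (Subgroup.closure C)).Nonempty := by
  have hcard : 2 ≤ Nat.card (Subgroup.closure C) := by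
    have h1 : Nat.card (Subgroup.closure C) ≠ 1 := by
      intro h
      exact hN (Subgroup.card_eq_one.1 h)
    have h2 : 0 < Nat.card (Subgroup.closure C) := Nat.card_pos
    omega
  rcases Nat.lt_or_ge (Nat.card (Subgroup.closure C)) 3 with h3 | h3
  · have h2 : Nat.card (Subgroup.closure C) = 2 := by omega
    obtain ⟨c, hcC, hc1⟩ : ∃ a ∈ C, a ≠ 1 := by
      by_contra hc
      push Not at hc
      apply hN
      rw [← le_bot_iff, Subgroup.closure_le]
      intro x hx
      simpa using hc x hx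
    have hcN : c ∈ Subgroup.closure C := Subgroup.subset_closure hcC
    refine ⟨c, hcC, [1, c], ?_, ?_, ?_, ?_, ?_⟩
    · simpa using hc1.symm
    · intro g
      simp only [List.mem_cons, List.not_mem_nil, or_false]
      constructor
      · rintro (rfl | rfl)
        · exact Subgroup.one_mem _
        · exact hcN
      · intro hg
        classical
        have hsub : (({1, c} : Finset G) : Set G) ⊆ (Subgroup.closure C : Set G) := by
          intro x hx
          simp only [Finset.coe_insert, Finset.coe_singleton, Set.mem_insert_iff,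
            Set.mem_singleton_iff] at hx
          rcases hx with rfl | rfl
          · exact Subgroup.one_mem _
          · exact hcN
        have hc2 : ({1, c} : Finset G).card = 2 := by
          rw [Finset.card_insert_of_notMem, Finset.card_singleton]
          simpa using hc1.symm
        have heq := Set.eq_of_subset_of_ncard_le hsub (by
          rw [Set.ncard_coe_finset, hc2]
          exact h2.le) (Set.toFinite _)
        have : g ∈ (({1, c} : Finset G) : Set G) := by rw [heq]; exact hg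
        simpa using this
    · rw [List.isChain_pair]
      unfold step
      simpa using hcC
    · simp
    · simp
  · obtain ⟨L, hL⟩ := cyc_closure hC hCi h3
    exact St_nonempty_of_cyc hCi hL

/-- **Reduction modulo the normal subgroup generated by the full classes in `A`.** -/
theorem cyc_of_quotient [Finite G] {A : Set G} (hA : ∀ a ∈ A, a⁻¹ ∈ A)
    (hN : Subgroup.closure (core A) ≠ ⊥) {g : G} {T : List G}
    (hch : (g :: T).IsChain (step A))
    (hp : (g :: T).Pairwise (fun x y => x⁻¹ * y ∉ Subgroup.closure (core A)))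
    (hall : ∀ h, ∃ x ∈ g :: T, x⁻¹ * h ∈ Subgroup.closure (core A)) :
    ∃ L, Cyc A ⊤ L := by
  set N := Subgroup.closure (core A) with hNdef
  have : N.Normal := closure_core_normal A
  obtain ⟨s, hs⟩ := St_closure_nonempty (core_conj (A := A)) (core_inv hA) hN
  have hcard : 2 ≤ Nat.card N := by
    have h1 : Nat.card N ≠ 1 := by
      intro h
      exact hN (Subgroup.card_eq_one.1 h)
    have h2 : 0 < Nat.card N := Nat.card_pos
    omega
  have hSA : St (core A) N ⊆ A := fun x hx => core_sub (St_sub hx)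
  have hS : ∀ s ∈ St (core A) N, ∃ B, HPath (St (core A) N) N s B :=
    fun s hs => St_refine (core_inv hA) hs
  obtain ⟨L, h1, h2, h3⟩ := start_good (A := A) hA hSA hS hs g
  rw [List.pairwise_cons] at hp
  obtain ⟨L', k1, k2⟩ := lift_path (S := St (core A) N) hA hS hSA
    (St_conj (core_conj (A := A))) hcard T g L h1 (by omega) hch hp.2 (by
      intro x hx hxL
      exact hp.1 x hx ((h2 x).1 hxL))
  refine ⟨L', k1.nodup, k1.chain, k1.close, ?_⟩
  intro h
  refine ⟨fun _ => Subgroup.mem_top _, fun _ => ?_⟩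
  rw [k2, h2]
  obtain ⟨x, hx, hxh⟩ := hall h
  rcases List.mem_cons.1 hx with rfl | hx
  · exact Or.inl hxh
  · exact Or.inr ⟨x, hx, hxh⟩

end Pool.Agent.Q128.Ham
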