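import Pool.Agent.Q128.Span3
import Pool.Agent.Q128.HamQuot

/-!
# Assembling Hamiltonian cycles along a spanning tree of the coset graph
-/

namespace Pool.Agent.Q128.Ham

open Relation

variable {G : Type*} [Group G]

/-- the coset graph -/
def CG (A : Set G) (K : Subgroup G) (u w : G ⧸ K) : Prop :=
  u ≠ w ∧ ∃ x : G, ∃ a ∈ A, (x : G ⧸ K) = u ∧ ((x * a : G) : G ⧸ K) = w

theorem CG_symm {A : Set G} (hA : ∀ a ∈ A, a⁻¹ ∈ A) (K : Subgroup G) :
    ∀ u w : G ⧸ K, CG A K u w → CG A K w u := by
  rintro u w ⟨hne, x, a, ha, hx, hxa⟩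
  refine ⟨hne.symm, x * a, a⁻¹, hA a ha, hxa, ?_⟩
  rw [mul_inv_cancel_right]
  exact hx

theorem CG_irr (A : Set G) (K : Subgroup G) : ∀ u : G ⧸ K, ¬ CG A K u u :=
  fun _ h => h.1 rfl

theorem CG_smul {A : Set G} {K : Subgroup G} (g : G) {u w : G ⧸ K} (h : CG A K u w) :
    CG A K (g • u) (g • w) := by
  obtain ⟨hne, x, a, ha, rfl, rfl⟩ := h
  refine ⟨?_, g * x, a, ha, rfl, ?_⟩
  · intro h
    exact hne (MulAction.injective g h)
  · rw [mul_assoc]; rfl

theorem CG_vt (A : Set G) (K : Subgroup G) : VT (CG A K) := by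
  intro u w
  induction u using QuotientGroup.induction_on with
  | H g =>
    induction w using QuotientGroup.induction_on with
    | H h =>
      refine ⟨MulAction.toPerm (h * g⁻¹), ?_, ?_⟩
      · change (h * g⁻¹) • (g : G ⧸ K) = (h : G ⧸ K)
        have : (h * g⁻¹) • (g : G ⧸ K) = ((h * g⁻¹ * g : G) : G ⧸ K) := rfl
        rw [this, inv_mul_cancel_right]
      · intro u w
        change CG A K ((h * g⁻¹) • u) ((h * g⁻¹) • w) ↔ CG A K u w
        constructor
        · intro h1
          have := CG_smul (h * g⁻¹)⁻¹ h1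
          rwa [inv_smul_smul, inv_smul_smul] at this
        · exact CG_smul _

theorem CG_conn {A : Set G} (hA : ∀ a ∈ A, a⁻¹ ∈ A) (hgen : Subgroup.closure A = ⊤)
    (K : Subgroup G) : ∀ u w : G ⧸ K, ReflTransGen (CG A K) u w := by
  have h1 : ∀ g : G, ReflTransGen (CG A K) ((1 : G) : G ⧸ K) (g : G ⧸ K) := by
    intro g
    have hg : g ∈ Subgroup.closure A := by rw [hgen]; exact Subgroup.mem_top g
    have hstep : ∀ x : G, ∀ a ∈ A, ReflTransGen (CG A K) (x : G ⧸ K) ((x * a : G) : G ⧸ K) := by
      intro x a ha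
      by_cases h : (x : G ⧸ K) = ((x * a : G) : G ⧸ K)
      · rw [← h]
      · exact ReflTransGen.single ⟨h, x, a, ha, rfl, rfl⟩
    induction hg using Subgroup.closure_induction_right with
    | one => exact ReflTransGen.refl
    | mul_right x hx y hy ih => exact ih.trans (hstep x y hy)
    | mul_inv_cancel x hx y hy ih => exact ih.trans (hstep x _ (hA y hy))
  intro u w
  induction u using QuotientGroup.induction_on with
  | H g =>
    induction w using QuotientGroup.induction_on with
    | H h => exact (rtg_symm (CG_symm hA K) (h1 g)).trans (h1 h)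

theorem out_mk {K : Subgroup G} (u : G ⧸ K) : ((u.out : G) : G ⧸ K) = u :=
  QuotientGroup.out_eq' u

theorem cyc_of_att [Finite G] {A S D : Set G} {K : Subgroup G} (hA : ∀ a ∈ A, a⁻¹ ∈ A)
    (hgen : Subgroup.closure A = ⊤) (hS : ∀ s ∈ D, ∃ B, HPath S K s B)
    (hSne : ∃ d ∈ D, d ∈ A)
    (hSA : S ⊆ A) (hn : 3 ≤ Nat.card K)
    (hatt : ∀ v q : G, v⁻¹ * q ∉ K → (∃ x a, v⁻¹ * x ∈ K ∧ a ∈ A ∧ q⁻¹ * (x * a) ∈ K) →
      Att A S D K v q) :
    ∃ L, Cyc A ⊤ L := by
  classical
  have : Fintype (G ⧸ K) := Fintype.ofFinite _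
  have : Nonempty (G ⧸ K) := ⟨((1 : G) : G ⧸ K)⟩
  obtain ⟨r, p, ρ, hp, hch⟩ := exists_binary (CG_symm hA K) (CG_irr A K) (CG_vt A K)
    (CG_conn hA hgen K)
  have hattΓ : ∀ u w : G ⧸ K, CG A K u w → Att A S D K u.out w.out := by
    rintro u w ⟨hne, x, a, ha, hx, hxa⟩
    apply hatt
    · rw [← QuotientGroup.eq, out_mk, out_mk]
      exact hne
    refine ⟨x, a, ?_, ha, ?_⟩
    · rw [← QuotientGroup.eq, out_mk, hx]
    · rw [← QuotientGroup.eq, out_mk, hxa]
  have main : ∀ k : ℕ, ∀ (W : Set (G ⧸ K)) (L : List G), Good A K L →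
      (∀ g : G, g ∈ L ↔ (g : G ⧸ K) ∈ W) → r ∈ W →
      (∀ w ∈ W, Nat.card K ≤ sl K S w.out L + 1 + {u | u ∈ W ∧ u ≠ r ∧ p u = w}.ncard) →
      Wᶜ.ncard ≤ k → ∃ L, Cyc A ⊤ L := by
    intro k
    induction k with
    | zero =>
      intro W L hL hmem hr hsl hk
      have hW : Wᶜ = ∅ := by
        rwa [Nat.le_zero, Set.ncard_eq_zero (Set.toFinite _)] at hk
      refine ⟨L, hL.nodup, hL.chain, hL.close, ?_⟩
      intro g
      refine ⟨fun _ => Subgroup.mem_top g, fun _ => ?_⟩
      rw [hmem]
      by_contra hg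
      have : (g : G ⧸ K) ∈ Wᶜ := hg
      rw [hW] at this
      exact this
    | succ k ih =>
      intro W L hL hmem hr hsl hk
      by_cases hW : Wᶜ = ∅
      · refine ⟨L, hL.nodup, hL.chain, hL.close, ?_⟩
        intro g
        refine ⟨fun _ => Subgroup.mem_top g, fun _ => ?_⟩
        rw [hmem]
        by_contra hg
        have : (g : G ⧸ K) ∈ Wᶜ := hg
        rw [hW] at this
        exact this
      · obtain ⟨v, hv, hvmin⟩ := Set.exists_min_image Wᶜ ρ (Set.toFinite _)
          (Set.nonempty_iff_ne_empty.2 hW)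
        have hvW : v ∉ W := hv
        have hvr : v ≠ r := by rintro rfl; exact hvW hr
        obtain ⟨hΓ, hρ⟩ := hp v hvr
        have hpW : p v ∈ W := by
          by_contra hc
          have := hvmin (p v) hc
          omega
        have hchW : {u | u ∈ W ∧ u ≠ r ∧ p u = p v}.ncard ≤ 1 := by
          have h1 : insert v {u | u ∈ W ∧ u ≠ r ∧ p u = p v} ⊆ {u | u ≠ r ∧ p u = p v} := by
            rintro u (rfl | hu)
            · exact ⟨hvr, rfl⟩
            · exact hu.2
          have h2 := Set.ncard_le_ncard h1 (Set.toFinite _)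
          rw [Set.ncard_insert_of_notMem (fun h => hvW h.1) (Set.toFinite _)] at h2
          have := hch (p v)
          omega
        have hsl1 := hsl (p v) hpW
        have hq : v.out ∉ L := by
          rw [hmem, out_mk]
          exact hvW
        obtain ⟨L', g1, g2, g3, g4, g5⟩ := insert_core hS hSA hL hq
          (hattΓ _ _ (CG_symm hA K _ _ hΓ)) (by omega)
        refine ih (insert v W) L' g1 ?_ (Or.inr hr) ?_ ?_
        · intro g
          rw [g2, hmem, ← QuotientGroup.eq, out_mk]
          simp only [Set.mem_insert_iff]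
          constructor
          · rintro (h | h)
            · exact Or.inr h
            · exact Or.inl h.symm
          · rintro (h | h)
            · exact Or.inr h.symm
            · exact Or.inl h
        · rintro w (rfl | hw)
          · omega
          · by_cases hwp : w = p v
            · subst hwp
              have h1 : insert v {u | u ∈ W ∧ u ≠ r ∧ p u = p v} ⊆
                  {u | u ∈ insert v W ∧ u ≠ r ∧ p u = p v} := by
                rintro u (rfl | hu)
                · exact ⟨Or.inl rfl, hvr, rfl⟩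
                · exact ⟨Or.inr hu.1, hu.2⟩
              have h2 := Set.ncard_le_ncard h1 (Set.toFinite _)
              rw [Set.ncard_insert_of_notMem (fun h => hvW h.1) (Set.toFinite _)] at h2
              omega
            · have h1 : {u | u ∈ W ∧ u ≠ r ∧ p u = w} ⊆
                  {u | u ∈ insert v W ∧ u ≠ r ∧ p u = w} := by
                rintro u hu
                exact ⟨Or.inr hu.1, hu.2⟩
              have h2 := Set.ncard_le_ncard h1 (Set.toFinite _)
              have h3 := g4 w.out (by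
                rw [← QuotientGroup.eq, out_mk, out_mk]
                exact hwp)
              have h4 := hsl w hw
              omega
        · have h1 : (insert v W)ᶜ ⊆ Wᶜ \ {v} := by
            intro u hu
            refine ⟨fun h => hu (Or.inr h), fun h => hu (Or.inl h)⟩
          have h2 := Set.ncard_le_ncard h1 (Set.toFinite _)
          have h3 := Set.ncard_sdiff_singleton_lt_of_mem hv (Set.toFinite _)
          omega
  obtain ⟨s, hs, hsA⟩ := hSne
  obtain ⟨B, hB⟩ := hS s hs
  obtain ⟨L, h1, h2, h3⟩ := start_good' hA hSA hsA hB r.out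
  refine main _ {r} L h1 ?_ rfl ?_ le_rfl
  · intro g
    rw [h2, ← QuotientGroup.eq, out_mk]
    simp only [Set.mem_singleton_iff]
    exact eq_comm
  · rintro w hw
    rw [Set.mem_singleton_iff] at hw
    subst hw
    omega

end Pool.Agent.Q128.Ham
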