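import Pool.Agent.Q128.HamNormal

/-!
# Two involutions, and the Hamiltonian cycle for conjugation-closed connection sets
-/

namespace Pool.Agent.Q128.Ham

open List

variable {G : Type*} [Group G]

theorem not_mem_zpowers_mul {a b : G} (ha : a * a = 1) (hb : b * b = 1) (ha1 : a ≠ 1)
    (hb1 : b ≠ 1) : a ∉ Subgroup.zpowers (a * b) := by
  rintro ⟨z, hz⟩
  simp only at hz
  have hcomm : a * (a * b) = (a * b) * a := by
    have h := (Commute.refl (a * b)).zpow_left z
    rw [hz] at h
    exact h
  have h2 : (a * b) ^ (2 : ℤ) = 1 := by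
    rw [zpow_two]
    calc (a * b) * (a * b) = ((a * b) * a) * b := by group
      _ = (a * (a * b)) * b := by rw [← hcomm]
      _ = (a * a) * (b * b) := by group
      _ = 1 := by rw [ha, hb, one_mul]
  rcases Int.even_or_odd' z with ⟨k, hk | hk⟩
  · rw [hk, zpow_mul, h2, one_zpow] at hz
    exact ha1 hz.symm
  · rw [hk, zpow_add, zpow_mul, h2, one_zpow, one_mul, zpow_one] at hz
    apply hb1
    exact mul_left_cancel (a := a) (by rw [hz, mul_one])

theorem cyc_dihedral [Finite G] {C : Set G} {a b : G} (haC : a ∈ C) (hbC : b ∈ C)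
    (ha : a * a = 1) (hb : b * b = 1) (ha1 : a ≠ 1) (hb1 : b ≠ 1) :
    ∃ L, Cyc C (Subgroup.closure {a, b}) L := by
  have hnot := not_mem_zpowers_mul ha hb ha1 hb1
  have haK : a ∈ Subgroup.closure {a, b} := Subgroup.subset_closure (by simp)
  have hbK : b ∈ Subgroup.closure {a, b} := Subgroup.subset_closure (by simp)
  have hainv : a⁻¹ = a := inv_eq_of_mul_eq_one_left ha
  have hbinv : b⁻¹ = b := inv_eq_of_mul_eq_one_left hb
  have hrpow : (a * b) ^ orderOf (a * b) = 1 := pow_orderOf_eq_one _
  have hmpos : 0 < orderOf (a * b) := orderOf_pos _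
  set r := a * b with hr
  set m := orderOf r with hm
  have hr1 : a * r = b := by rw [hr, ← mul_assoc, ha, one_mul]
  set f : ℕ → G := fun j => if j % 2 = 0 then r ^ (j / 2) else r ^ (j / 2) * a with hf
  have hf0 : ∀ p, f (2 * p) = r ^ p := by
    intro p
    rw [hf]
    have e1 : 2 * p % 2 = 0 := by omega
    have e2 : 2 * p / 2 = p := by omega
    simp only [e1, e2, if_true]
  have hf1 : ∀ p, f (2 * p + 1) = r ^ p * a := by
    intro p
    rw [hf]
    have e1 : ¬ (2 * p + 1) % 2 = 0 := by omega
    have e2 : (2 * p + 1) / 2 = p := by omega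
    simp only [e1, e2, if_false]
  refine ⟨_, cyc_of_fun (n := 2 * m) f ?_ ?_ ?_ ?_ ?_⟩
  · intro i hi j hj hij
    rcases Nat.even_or_odd' i with ⟨p, rfl | rfl⟩ <;> rcases Nat.even_or_odd' j with ⟨q, rfl | rfl⟩
    · rw [hf0, hf0] at hij
      have := pow_injOn_Iio_orderOf (x := r) (Set.mem_Iio.2 (show p < m by omega))
        (Set.mem_Iio.2 (show q < m by omega)) hij
      omega
    · exfalso
      rw [hf0, hf1] at hij
      apply hnot
      refine ⟨(p : ℤ) - q, ?_⟩
      simp only
      rw [zpow_sub, zpow_natCast, zpow_natCast, hij]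
      have : Commute (r ^ q) a := by
        have e : a = (r ^ q)⁻¹ * r ^ p := by rw [hij]; group
        rw [e]
        exact (((Commute.refl r).pow_pow q q).inv_right).mul_right ((Commute.refl r).pow_pow q p)
      rw [this.eq]
      group
    · exfalso
      rw [hf0, hf1] at hij
      apply hnot
      refine ⟨(q : ℤ) - p, ?_⟩
      simp only
      rw [zpow_sub, zpow_natCast, zpow_natCast, ← hij]
      have : Commute (r ^ p) a := by
        have e : a = (r ^ p)⁻¹ * r ^ q := by rw [← hij]; group
        rw [e]
        exact (((Commute.refl r).pow_pow p p).inv_right).mul_right ((Commute.refl r).pow_pow p q)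
      rw [this.eq]
      group
    · rw [hf1, hf1] at hij
      have := pow_injOn_Iio_orderOf (x := r) (Set.mem_Iio.2 (show p < m by omega))
        (Set.mem_Iio.2 (show q < m by omega)) (mul_right_cancel hij)
      omega
  · intro i _
    rcases Nat.even_or_odd' i with ⟨p, rfl | rfl⟩
    · rw [hf0, hf1]
      have e : (r ^ p)⁻¹ * (r ^ p * a) = a := by group
      rw [e]; exact haC
    · have e2 : 2 * p + 1 + 1 = 2 * (p + 1) := by ring
      rw [e2, hf0, hf1]
      have e : (r ^ p * a)⁻¹ * r ^ (p + 1) = b := by
        rw [pow_succ, mul_inv_rev, hainv, mul_assoc]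
        have : (r ^ p)⁻¹ * (r ^ p * r) = r := by group
        rw [this, hr1]
      rw [e]; exact hbC
  · have e2 : 2 * m - 1 = 2 * (m - 1) + 1 := by omega
    have e3 : f 0 = 1 := by
      have := hf0 0
      simpa using this
    rw [e2, hf1, e3, mul_one]
    have e : (r ^ (m - 1) * a)⁻¹ = b := by
      rw [mul_inv_rev, hainv]
      have : (r ^ (m - 1))⁻¹ = r := by
        rw [inv_eq_iff_mul_eq_one, ← pow_succ]
        have e2 : m - 1 + 1 = m := by omega
        rw [e2, hrpow]
      rw [this, hr1]
    rw [e]; exact hbC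
  · intro i _
    have hrK : r ∈ Subgroup.closure {a, b} := Subgroup.mul_mem _ haK hbK
    rcases Nat.even_or_odd' i with ⟨p, rfl | rfl⟩
    · rw [hf0]; exact Subgroup.pow_mem _ hrK p
    · rw [hf1]; exact Subgroup.mul_mem _ (Subgroup.pow_mem _ hrK p) haK
  · intro g hg
    have hz : ∃ z : ℤ, g = r ^ z ∨ g = r ^ z * a := by
      have hmul : ∀ x : G, (∃ z : ℤ, x = r ^ z ∨ x = r ^ z * a) → ∀ y ∈ ({a, b} : Set G),
          ∃ z : ℤ, x * y = r ^ z ∨ x * y = r ^ z * a := by
        rintro x ⟨z, rfl | rfl⟩ y (rfl | hy)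
        · exact ⟨z, Or.inr rfl⟩
        · rw [Set.mem_singleton_iff] at hy
          subst hy
          refine ⟨z - 1, Or.inr ?_⟩
          rw [zpow_sub_one, hr, mul_inv_rev, hainv, hbinv]
          rw [mul_assoc, mul_assoc, ha, mul_one]
        · exact ⟨z, Or.inl (by rw [mul_assoc, ha, mul_one])⟩
        · rw [Set.mem_singleton_iff] at hy
          subst hy
          refine ⟨z + 1, Or.inl ?_⟩
          rw [zpow_add_one, hr, mul_assoc]
      induction hg using Subgroup.closure_induction_right with
      | one => exact ⟨0, Or.inl (by simp)⟩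
      | mul_right x hx y hy ih => exact hmul x ih y hy
      | mul_inv_cancel x hx y hy ih =>
        have : y⁻¹ = y := by
          rcases hy with rfl | hy
          · exact hainv
          · rw [Set.mem_singleton_iff] at hy
            subst hy
            exact hbinv
        rw [this]
        exact hmul x ih y hy
    have hk : ∀ z : ℤ, ∃ k < m, r ^ k = r ^ z := by
      intro z
      have : r ^ z ∈ Subgroup.zpowers r := ⟨z, rfl⟩
      obtain ⟨i, hi⟩ := (isOfFinOrder_of_finite r).mem_powers_iff_mem_zpowers.2 this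
      simp only at hi
      exact ⟨i % m, Nat.mod_lt _ hmpos, by rw [hm, pow_mod_orderOf, hi]⟩
    obtain ⟨z, hz | hz⟩ := hz
    · obtain ⟨k, hk1, hk2⟩ := hk z
      exact ⟨2 * k, by omega, by rw [hf0, hk2, hz]⟩
    · obtain ⟨k, hk1, hk2⟩ := hk z
      exact ⟨2 * k + 1, by omega, by rw [hf1, hk2, hz]⟩

theorem grow [Finite G] {C : Set G}
    (hC : ∀ c ∈ C, ∀ g, g * c * g⁻¹ ∈ C) (hCi : ∀ c ∈ C, c⁻¹ ∈ C) :
    ∀ (m : ℕ) (K : Subgroup G) (L : List G), Nat.card G - Nat.card K ≤ m →
      K ≤ Subgroup.closure C → 3 ≤ Nat.card K →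
      Cyc C K L → ∃ L', Cyc C (Subgroup.closure C) L' := by
  intro m
  induction m with
  | zero =>
    intro K L hm hK hn h
    have h1 : Nat.card G ≤ Nat.card K := by omega
    have h2 : K = ⊤ := Subgroup.eq_top_of_le_card K h1
    have h3 : Subgroup.closure C = K := le_antisymm (h2 ▸ le_top) hK
    exact ⟨L, h3 ▸ h⟩
  | succ m ih =>
    intro K L hm hK hn h
    by_cases hCK : C ⊆ K
    · have h3 : Subgroup.closure C = K := le_antisymm ((Subgroup.closure_le K).2 hCK) hK
      exact ⟨L, h3 ▸ h⟩
    · rw [Set.not_subset] at hCK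
      obtain ⟨b, hbC, hbK⟩ := hCK
      obtain ⟨L', hL'⟩ := cyc_extend hC hCi h hbK hn hbC
      have hlt : K < K ⊔ Subgroup.closure {b} := by
        refine lt_of_le_of_ne le_sup_left ?_
        intro he
        apply hbK
        have : b ∈ K ⊔ Subgroup.closure {b} :=
          (le_sup_right : Subgroup.closure {b} ≤ _) (Subgroup.subset_closure (by simp))
        rw [he]
        exact this
      have hcard : Nat.card K < Nat.card (K ⊔ Subgroup.closure {b} : Subgroup G) :=
        Set.ncard_lt_ncard (s := (K : Set G)) (t := ((K ⊔ Subgroup.closure {b} : Subgroup G) : Set G))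
          hlt (Set.toFinite _)
      have hcard2 : Nat.card (K ⊔ Subgroup.closure {b} : Subgroup G) ≤ Nat.card G :=
        Subgroup.card_le_card_group _
      refine ih _ L' (by omega) (sup_le hK ?_) (by omega) hL'
      rw [Subgroup.closure_le]
      simpa using Subgroup.subset_closure hbC

/-- **Hamiltonian cycles for conjugation-closed connection sets.** -/
theorem cyc_closure [Finite G] {C : Set G}
    (hC : ∀ c ∈ C, ∀ g, g * c * g⁻¹ ∈ C) (hCi : ∀ c ∈ C, c⁻¹ ∈ C)
    (hn : 3 ≤ Nat.card (Subgroup.closure C)) : ∃ L, Cyc C (Subgroup.closure C) L := by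
  by_cases hord : ∃ a ∈ C, 3 ≤ orderOf a
  · obtain ⟨a, haC, ha⟩ := hord
    obtain ⟨L, hL⟩ := cyc_zpowers haC
    refine grow hC hCi _ _ L le_rfl ?_ ?_ hL
    · rw [Subgroup.zpowers_le]
      exact Subgroup.subset_closure haC
    · rwa [Nat.card_zpowers]
  · push Not at hord
    have hinv : ∀ a ∈ C, a * a = 1 := by
      intro a ha
      have h1 := hord a ha
      have h2 : 0 < orderOf a := orderOf_pos a
      have h3 : a ^ orderOf a = 1 := pow_orderOf_eq_one a
      interval_cases h : orderOf a
      · rw [pow_one] at h3; rw [h3, one_mul]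
      · rwa [pow_two] at h3
    obtain ⟨a, haC, ha1⟩ : ∃ a ∈ C, a ≠ 1 := by
      by_contra hc
      push Not at hc
      have : Subgroup.closure C ≤ ⊥ := by
        rw [Subgroup.closure_le]
        intro x hx
        simpa using hc x hx
      rw [le_bot_iff] at this
      rw [this, Subgroup.card_bot] at hn
      omega
    obtain ⟨b, hbC, hb⟩ : ∃ b ∈ C, b ∉ Subgroup.zpowers a := by
      by_contra hc
      push Not at hc
      have h1 : Subgroup.closure C ≤ Subgroup.zpowers a := by
        rw [Subgroup.closure_le]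
        exact hc
      have h2 := Subgroup.card_le_of_le h1
      rw [Nat.card_zpowers] at h2
      have := hord a haC
      omega
    have hb1 : b ≠ 1 := by
      rintro rfl
      exact hb (Subgroup.one_mem _)
    have hab : a ≠ b := by
      rintro rfl
      exact hb (Subgroup.mem_zpowers _)
    obtain ⟨L, hL⟩ := cyc_dihedral haC hbC (hinv a haC) (hinv b hbC) ha1 hb1
    refine grow hC hCi _ _ L le_rfl ?_ ?_ hL
    · rw [Subgroup.closure_le]
      rintro x (rfl | hx)
      · exact Subgroup.subset_closure haC
      · rw [Set.mem_singleton_iff] at hx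
        subst hx
        exact Subgroup.subset_closure hbC
    · classical
      have hsub : (({1, a, b} : Finset G) : Set G) ⊆ (Subgroup.closure {a, b} : Set G) := by
        intro x hx
        simp only [Finset.coe_insert, Finset.coe_singleton, Set.mem_insert_iff,
          Set.mem_singleton_iff] at hx
        rcases hx with rfl | rfl | rfl
        · exact Subgroup.one_mem _
        · exact Subgroup.subset_closure (by simp)
        · exact Subgroup.subset_closure (by simp)
      have h1 := Set.ncard_le_ncard hsub (Set.toFinite _)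
      rw [Set.ncard_coe_finset] at h1
      have h2 : ({1, a, b} : Finset G).card = 3 := by
        rw [Finset.card_insert_of_notMem, Finset.card_insert_of_notMem, Finset.card_singleton]
        · simpa using hab
        · simp only [Finset.mem_insert, Finset.mem_singleton, not_or]
          exact ⟨ha1.symm, hb1.symm⟩
      rw [h2] at h1
      exact h1

end Pool.Agent.Q128.Ham
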