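import Pool.Agent.Q128.RapaportDefs
import Pool.Agent.Q128.HamAssemble

/-!
# Conversions between listing sequences and vertex lists
-/

namespace Pool.Agent.Q128.Ham

open Pool.Agent.Q128.Rapaport

variable {G : Type*} [Group G]

/-- steps of a vertex list -/
def steps : G → List G → List G
  | _, [] => []
  | g, h :: T => (g⁻¹ * h) :: steps h T

theorem steps_length (g : G) (T : List G) : (steps g T).length = T.length := by
  induction T generalizing g with
  | nil => rfl
  | cons h T ih => simp [steps, ih]

theorem steps_take_prod (g : G) (T : List G) (i : ℕ) (hi : i ≤ T.length) :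
    ((steps g T).take i).prod = g⁻¹ * (g :: T).getD i 1 := by
  induction T generalizing g i with
  | nil =>
    have : i = 0 := by simpa using hi
    subst this
    simp
  | cons h T ih =>
    cases i with
    | zero => simp
    | succ i =>
      simp only [steps, List.take_succ_cons, List.prod_cons]
      rw [ih h i (by simpa using hi)]
      have e : (g :: h :: T).getD (i + 1) 1 = (h :: T).getD i 1 := by simp
      rw [e]
      group

theorem steps_mem {A : Set G} (g : G) (T : List G) (h : (g :: T).IsChain (step A)) :
    ∀ x ∈ steps g T, x ∈ A := by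
  induction T generalizing g with
  | nil => simp [steps]
  | cons y T ih =>
    rw [List.isChain_cons_cons] at h
    intro x hx
    simp only [steps, List.mem_cons] at hx
    rcases hx with rfl | hx
    · exact h.1
    · exact ih y h.2 x hx

theorem Cyc.length_eq {A : Set G} {K : Subgroup G} {B : List G}
    (h : Cyc A K B) : B.length = Nat.card K := by
  classical
  have h1 : B.toFinset.card = B.length := List.toFinset_card_of_nodup h.nodup
  have h2 : (B.toFinset : Set G) = (K : Set G) := by
    ext g
    simp [h.mem]
  have h3 : Nat.card K = (K : Set G).ncard := rfl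
  rw [h3, ← h2, Set.ncard_coe_finset, h1]

theorem closedListing_of_cyc {A : Set G} {L : List G} (h : Cyc A ⊤ L) :
    HasClosedListing A := by
  have h1 : (1 : G) ∈ L := (h.mem 1).2 (Subgroup.mem_top _)
  have hne : L ≠ [] := by
    rintro rfl
    simp at h1
  obtain ⟨l, hl⟩ : ∃ l, L.getLast? = some l := by
    rw [← Option.isSome_iff_exists]
    simpa using hne
  have hlen : L.length = Nat.card G := by
    rw [h.length_eq]
    exact Subgroup.card_top
  have hpos : 0 < L.length := List.length_pos_iff.2 hne
  have hchain : (l :: L).IsChain (step A) := by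
    rw [List.isChain_cons]
    exact ⟨fun y hy => h.close l hl y hy, h.chain⟩
  have hprod : ∀ i, 1 ≤ i → i ≤ L.length → ((steps l L).take i).prod = l⁻¹ * L.getD (i - 1) 1 := by
    intro i hi hi'
    rw [steps_take_prod l L i hi']
    obtain ⟨j, rfl⟩ : ∃ j, i = j + 1 := ⟨i - 1, by omega⟩
    simp
  refine ⟨steps l L, ⟨?_, steps_mem l L hchain, ?_⟩, ?_⟩
  · rw [steps_length, hlen]
  · intro i j hi hij hj
    rw [steps_length] at hj
    rw [hprod i hi (by omega), hprod j (by omega) hj]
    intro heq
    have h2 := mul_left_cancel heq
    rw [List.getD_eq_getElem _ _ (by omega), List.getD_eq_getElem _ _ (by omega)] at h2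
    have := (List.Nodup.getElem_inj_iff h.nodup).1 h2
    omega
  · have h2 := hprod L.length (by omega) le_rfl
    rw [List.take_of_length_le (by rw [steps_length])] at h2
    rw [h2]
    rw [List.getLast?_eq_getElem?] at hl
    have h3 : L.getD (L.length - 1) 1 = l := by
      rw [List.getD_eq_getElem?_getD, hl]; rfl
    rw [h3]
    group

theorem prefixProd_mem {S : Set G} {K : Subgroup G} (hSK : S ⊆ K) {l : List G}
    (hl : ∀ s ∈ l, s ∈ S) (i : ℕ) : (l.take i).prod ∈ K := by
  apply Subgroup.list_prod_mem
  intro x hx
  exact hSK (hl x (List.mem_of_mem_take hx))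

theorem hpath_of_hamPathTo [Finite G] {S : Set G} {K : Subgroup G} (hSK : S ⊆ K) {d : G}
    (h : HamPathTo S K d) : ∃ B, HPath S K d B := by
  classical
  obtain ⟨l, hlen, hl, hdist, hprod⟩ := h
  have hinj : ∀ i ∈ List.range (l.length + 1), ∀ j ∈ List.range (l.length + 1),
      (l.take i).prod = (l.take j).prod → i = j := by
    intro i hi j hj hij
    rw [List.mem_range] at hi hj
    by_contra hne
    rcases Nat.lt_or_gt_of_ne hne with h1 | h1
    · exact hdist i j (Nat.zero_le _) h1 (by omega) hij
    · exact hdist j i (Nat.zero_le _) h1 (by omega) hij.symm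
  have hnd : ((List.range (l.length + 1)).map (fun i => (l.take i).prod)).Nodup :=
    List.Nodup.map_on (fun x hx y hy hxy => hinj x hx y hy hxy) List.nodup_range
  refine ⟨(List.range (l.length + 1)).map (fun i => (l.take i).prod), hnd, ?_, ?_, ?_, ?_⟩
  · have hsub : ((((List.range (l.length + 1)).map (fun i => (l.take i).prod)).toFinset :
        Finset G) : Set G) ⊆ (K : Set G) := by
      intro g hg
      simp only [List.coe_toFinset, Set.mem_ofPred_eq, List.mem_map] at hg
      obtain ⟨i, _, rfl⟩ := hg
      exact prefixProd_mem hSK hl i
    have hcard : ((((List.range (l.length + 1)).map (fun i => (l.take i).prod)).toFinset :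
        Finset G)).card = Nat.card K := by
      rw [List.toFinset_card_of_nodup hnd, List.length_map, List.length_range, hlen]
    have heq := Set.eq_of_subset_of_ncard_le hsub (by
      rw [Set.ncard_coe_finset, hcard]; rfl) (Set.toFinite _)
    intro g
    have h1 : g ∈ (K : Set G) ↔ g ∈ ((((List.range (l.length + 1)).map
        (fun i => (l.take i).prod)).toFinset : Finset G) : Set G) := by rw [heq]
    rw [← SetLike.mem_coe, h1]
    simp
  · rw [List.isChain_map, List.isChain_range]
    intro m hm
    have hm' : m < l.length := by omega
    unfold step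
    rw [Nat.succ_eq_add_one, List.prod_take_succ l m hm', inv_mul_cancel_left]
    exact hl _ (List.getElem_mem hm')
  · rw [List.head?_map, List.head?_range]
    simp
  · rw [List.getLast?_map, List.getLast?_range]
    simp [hprod]

end Pool.Agent.Q128.Ham
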