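import Mathlib

/-!
# Cayley graphs, Hamiltonian paths and the insertion lemma

Helper file for the hand-in `MP_688fd0_co / NormalQuotient`.
-/

namespace Pool.Agent.Q128.Ham

open List

variable {G : Type*} [Group G]

/-- Adjacency in the (right) Cayley graph `Cay(G, A)`. -/
def step (A : Set G) (x y : G) : Prop := x⁻¹ * y ∈ A

theorem step_mul {A : Set G} (g x y : G) : step A (g * x) (g * y) ↔ step A x y := by
  unfold step
  constructor <;> intro h
  · have : (g * x)⁻¹ * (g * y) = x⁻¹ * y := by group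
    rwa [this] at h
  · have : (g * x)⁻¹ * (g * y) = x⁻¹ * y := by group
    rwa [this]

open Classical in
/-- number of consecutive pairs of a list satisfying `p` -/
noncomputable def cnt {α : Type*} (p : α → α → Prop) : List α → ℕ
  | x :: y :: l => (if p x y then 1 else 0) + cnt p (y :: l)
  | _ => 0

section cnt
variable {α : Type*} {p : α → α → Prop}

@[simp] theorem cnt_nil : cnt p [] = 0 := by simp [cnt]
@[simp] theorem cnt_single (x : α) : cnt p [x] = 0 := by simp [cnt]
open Classical in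
theorem cnt_cons_cons (x y : α) (l : List α) :
    cnt p (x :: y :: l) = (if p x y then 1 else 0) + cnt p (y :: l) := by
  simp [cnt]

theorem cnt_split (P Q : List α) (x : α) :
    cnt p (P ++ x :: Q) = cnt p (P ++ [x]) + cnt p (x :: Q) := by
  induction P with
  | nil => simp
  | cons a P ih =>
    cases P with
    | nil => simp [cnt_cons_cons]
    | cons b P =>
      simp only [List.cons_append] at ih ⊢
      rw [cnt_cons_cons, cnt_cons_cons, ih]
      omega

theorem cnt_le_cons (x : α) (l : List α) : cnt p l ≤ cnt p (x :: l) := by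
  cases l with
  | nil => simp
  | cons y l => rw [cnt_cons_cons]; omega

theorem cnt_le_append_left (P l : List α) : cnt p l ≤ cnt p (P ++ l) := by
  induction P with
  | nil => simp
  | cons a P ih => exact ih.trans (cnt_le_cons _ _)

theorem cnt_le_append_right (l Q : List α) : cnt p l ≤ cnt p (l ++ Q) := by
  induction l with
  | nil => simp
  | cons a l ih =>
    cases l with
    | nil => simp
    | cons b l =>
      simp only [List.cons_append] at ih ⊢
      rw [cnt_cons_cons, cnt_cons_cons]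
      omega

theorem exists_of_cnt_pos {l : List α} (h : 1 ≤ cnt p l) :
    ∃ P x y Q, l = P ++ x :: y :: Q ∧ p x y := by
  induction l with
  | nil => simp at h
  | cons a l ih =>
    cases l with
    | nil => simp at h
    | cons b l =>
      by_cases hp : p a b
      · exact ⟨[], a, b, l, rfl, hp⟩
      · rw [cnt_cons_cons, if_neg hp, zero_add] at h
        obtain ⟨P, x, y, Q, he, hxy⟩ := ih h
        exact ⟨a :: P, x, y, Q, by rw [he]; rfl, hxy⟩

theorem cnt_of_isChain {l : List α} (h : l.IsChain p) : l.length ≤ cnt p l + 1 := by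
  induction l with
  | nil => simp
  | cons a l ih =>
    cases l with
    | nil => simp
    | cons b l =>
      rw [List.isChain_cons_cons] at h
      have := ih h.2
      rw [cnt_cons_cons, if_pos h.1]
      simp only [List.length_cons] at this ⊢
      omega

end cnt

/-- `B` is a Hamiltonian path of `Cay(K, A ∩ K)` from `1` to `s`. -/
structure HPath (A : Set G) (K : Subgroup G) (s : G) (B : List G) : Prop where
  nodup : B.Nodup
  mem : ∀ g, g ∈ B ↔ g ∈ K
  chain : B.IsChain (step A)
  head : B.head? = some 1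
  last : B.getLast? = some s

theorem HPath.length_eq {A : Set G} {K : Subgroup G} {s : G} {B : List G}
    (h : HPath A K s B) : B.length = Nat.card K := by
  classical
  have h1 : B.toFinset.card = B.length := List.toFinset_card_of_nodup h.nodup
  have h2 : (B.toFinset : Set G) = (K : Set G) := by
    ext g
    simp [h.mem]
  have h3 : Nat.card K = (K : Set G).ncard := rfl
  rw [h3, ← h2, Set.ncard_coe_finset, h1]

/-- `L` is a cyclic closed walk in `Cay(G, A)` without repeated vertices, whose vertex set is a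
union of left cosets of `K`. -/
structure Good (A : Set G) (K : Subgroup G) (L : List G) : Prop where
  nodup : L.Nodup
  chain : L.IsChain (step A)
  close : ∀ x ∈ L.getLast?, ∀ y ∈ L.head?, step A x y
  coset : ∀ g ∈ L, ∀ k ∈ K, g * k ∈ L

/-- The number of consecutive pairs `(x, y)` in `L` with `x ∈ vK` and `x⁻¹ y ∈ S`. -/
noncomputable def sl (K : Subgroup G) (S : Set G) (v : G) (L : List G) : ℕ :=
  cnt (fun x y => v⁻¹ * x ∈ K ∧ x⁻¹ * y ∈ S) L

theorem sl_congr {K : Subgroup G} {S : Set G} {v w : G} (h : v⁻¹ * w ∈ K) (L : List G) :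
    sl K S v L = sl K S w L := by
  unfold sl
  congr 1
  funext x y
  have : v⁻¹ * x ∈ K ↔ w⁻¹ * x ∈ K := by
    have e : v⁻¹ * x = (v⁻¹ * w) * (w⁻¹ * x) := by group
    rw [e]
    exact Subgroup.mul_mem_cancel_left K h
  simp only [this]

/-- the attaching hypothesis -/
def Att (A S D : Set G) (K : Subgroup G) (v q : G) : Prop :=
  ∀ x, v⁻¹ * x ∈ K → ∀ s ∈ S, ∃ z s', s' ∈ D ∧ q⁻¹ * z ∈ K ∧ x⁻¹ * z ∈ A ∧
    (z * s')⁻¹ * (x * s) ∈ A

theorem insert_core {A S D : Set G} {K : Subgroup G}
    (hS : ∀ s ∈ D, ∃ B, HPath S K s B) (hSA : S ⊆ A) {L : List G} (hL : Good A K L)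
    {v q : G} (hq : q ∉ L) (hatt : Att A S D K v q) (hs : 1 ≤ sl K S v L) :
    ∃ L', Good A K L' ∧ (∀ g, g ∈ L' ↔ g ∈ L ∨ q⁻¹ * g ∈ K) ∧
      sl K S v L ≤ sl K S v L' + 1 ∧
      (∀ w, w⁻¹ * v ∉ K → sl K S w L ≤ sl K S w L') ∧
      Nat.card K ≤ sl K S q L' + 1 := by
  obtain ⟨P, x, y, Q, hLe, hx, hxy⟩ := exists_of_cnt_pos hs
  obtain ⟨z, s', hs', hz, hxz, hzs⟩ := hatt x hx _ hxy
  have hy : x * (x⁻¹ * y) = y := by group
  rw [hy] at hzs
  obtain ⟨B₀, hB₀⟩ := hS s' hs'
  set B : List G := B₀.map (fun k => z * k) with hB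
  have hBmem : ∀ g, g ∈ B ↔ q⁻¹ * g ∈ K := by
    intro g
    rw [hB, List.mem_map]
    constructor
    · rintro ⟨k, hk, rfl⟩
      rw [hB₀.mem] at hk
      have e : q⁻¹ * (z * k) = (q⁻¹ * z) * k := by group
      rw [e]
      exact K.mul_mem hz hk
    · intro hg
      refine ⟨z⁻¹ * g, ?_, by group⟩
      rw [hB₀.mem]
      have e : z⁻¹ * g = (q⁻¹ * z)⁻¹ * (q⁻¹ * g) := by group
      rw [e]
      exact K.mul_mem (K.inv_mem hz) hg
  have hBnd : B.Nodup := hB₀.nodup.map (mul_right_injective z)
  have hBne : B₀ ≠ [] := by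
    intro h
    have := hB₀.head
    rw [h] at this
    simp at this
  have hdisj : ∀ g, g ∈ L → q⁻¹ * g ∉ K := by
    intro g hg hk
    apply hq
    have := hL.coset g hg _ (K.inv_mem hk)
    have e : g * (q⁻¹ * g)⁻¹ = q := by group
    rwa [e] at this
  have hBchainS : B.IsChain (fun a b => q⁻¹ * a ∈ K ∧ a⁻¹ * b ∈ S) := by
    have h1 : B.IsChain (step S) := by
      rw [hB, List.isChain_map]
      exact hB₀.chain.imp (fun a b h => (step_mul z a b).2 h)
    rw [List.isChain_iff_forall_rel_of_append_cons_cons] at h1 ⊢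
    intro a b l₁ l₂ he
    refine ⟨?_, h1 he⟩
    rw [← hBmem, he]
    simp
  have hBchain : B.IsChain (step A) := hBchainS.imp (fun a b h => hSA h.2)
  have hBhead : B.head? = some z := by
    rw [hB, List.head?_map, hB₀.head]; simp
  have hBlast : B.getLast? = some (z * s') := by
    rw [hB, List.getLast?_map, hB₀.last]; simp
  have hBlen : B.length = Nat.card K := by
    rw [hB, List.length_map, hB₀.length_eq]
  -- the new list
  have hchain := hL.chain
  rw [hLe, List.isChain_append_cons_cons] at hchain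
  obtain ⟨hc1, hc2, hc3⟩ := hchain
  have hnd := hL.nodup
  obtain ⟨B', hB'⟩ : ∃ B', B = z :: B' := by
    cases hBc : B with
    | nil => rw [hBc] at hBhead; simp at hBhead
    | cons b B' =>
      rw [hBc] at hBhead
      simp only [List.head?_cons, Option.some.injEq] at hBhead
      exact ⟨B', by rw [hBhead]⟩
  have hcB : (B ++ y :: Q).IsChain (step A) := by
    rw [List.isChain_append]
    refine ⟨hBchain, hc3, ?_⟩
    intro a ha b hb
    rw [hBlast] at ha
    simp only [Option.mem_def, Option.some.injEq] at ha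
    simp only [List.head?_cons, Option.mem_def, Option.some.injEq] at hb
    rw [← ha, ← hb]
    exact hzs
  refine ⟨P ++ x :: (B ++ y :: Q), ⟨?_, ?_, ?_, ?_⟩, ?_, ?_, ?_, ?_⟩
  · -- nodup
    have hperm : (P ++ x :: (B ++ y :: Q)).Perm (B ++ L) := by
      rw [hLe]
      have e1 : P ++ x :: (B ++ y :: Q) = (P ++ [x]) ++ (B ++ (y :: Q)) := by simp
      have e2 : B ++ (P ++ x :: y :: Q) = B ++ ((P ++ [x]) ++ (y :: Q)) := by simp
      rw [e1, e2]
      exact List.perm_append_comm_assoc _ _ _
    rw [hperm.nodup_iff, List.nodup_append]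
    refine ⟨hBnd, hL.nodup, ?_⟩
    intro a ha b hb hab
    exact hdisj b hb ((hBmem b).1 (hab ▸ ha))
  · -- chain
    rw [hB'] at hcB ⊢
    rw [List.cons_append, List.isChain_append_cons_cons]
    exact ⟨hc1, hxz, hcB⟩
  · -- close
    have h1 : (P ++ x :: (B ++ y :: Q)).getLast? = L.getLast? := by
      rw [hLe]
      simp [List.getLast?_append, List.getLast?_cons]
    have h2 : (P ++ x :: (B ++ y :: Q)).head? = L.head? := by
      rw [hLe]
      cases P <;> simp
    rw [h1, h2]
    exact hL.close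
  · -- coset
    intro g hg k hk
    have hmem : ∀ g, g ∈ P ++ x :: (B ++ y :: Q) ↔ g ∈ L ∨ g ∈ B := by
      intro g
      rw [hLe]
      simp only [List.mem_append, List.mem_cons]
      tauto
    rw [hmem] at hg ⊢
    rcases hg with hg | hg
    · exact Or.inl (hL.coset g hg k hk)
    · right
      rw [hBmem] at hg ⊢
      have e : q⁻¹ * (g * k) = (q⁻¹ * g) * k := by group
      rw [e]
      exact K.mul_mem hg hk
  · intro g
    rw [← hBmem, hLe]
    simp only [List.mem_append, List.mem_cons]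
    tauto
  · -- slots of v
    unfold sl
    rw [hLe, cnt_split P (y :: Q) x, cnt_split P (B ++ y :: Q) x, cnt_cons_cons]
    have h1 : cnt (fun x y => v⁻¹ * x ∈ K ∧ x⁻¹ * y ∈ S) (y :: Q) ≤
        cnt (fun x y => v⁻¹ * x ∈ K ∧ x⁻¹ * y ∈ S) (x :: (B ++ y :: Q)) :=
      (cnt_le_append_left B _).trans (cnt_le_cons _ _)
    split_ifs <;> omega
  · intro w hw
    unfold sl
    rw [hLe, cnt_split P (y :: Q) x, cnt_split P (B ++ y :: Q) x, cnt_cons_cons]
    have h1 : cnt (fun x y => w⁻¹ * x ∈ K ∧ x⁻¹ * y ∈ S) (y :: Q) ≤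
        cnt (fun x y => w⁻¹ * x ∈ K ∧ x⁻¹ * y ∈ S) (x :: (B ++ y :: Q)) :=
      (cnt_le_append_left B _).trans (cnt_le_cons _ _)
    have h2 : ¬ (w⁻¹ * x ∈ K ∧ x⁻¹ * y ∈ S) := by
      rintro ⟨h, -⟩
      apply hw
      have e : w⁻¹ * v = (w⁻¹ * x) * (v⁻¹ * x)⁻¹ := by group
      rw [e]
      exact K.mul_mem h (K.inv_mem hx)
    rw [if_neg h2]
    omega
  · rw [← hBlen]
    refine (cnt_of_isChain hBchainS).trans ?_
    unfold sl
    have := cnt_le_append_right (p := fun x y => q⁻¹ * x ∈ K ∧ x⁻¹ * y ∈ S) B (y :: Q)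
    have h2 := cnt_le_append_left (p := fun x y => q⁻¹ * x ∈ K ∧ x⁻¹ * y ∈ S) (P ++ [x])
      (B ++ y :: Q)
    have e1 : P ++ x :: (B ++ y :: Q) = (P ++ [x]) ++ (B ++ (y :: Q)) := by simp
    rw [e1]
    omega

end Pool.Agent.Q128.Ham
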