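import Pool.Agent.Q128.HamMain

/-!
# Lifting listing sequences of a quotient
-/

namespace Pool.Agent.Q128.Ham

open Pool.Agent.Q128.Rapaport

variable {G : Type*} [Group G]

omit [Group G] in
theorem exists_lift_list {Q : Type*} {A : Set G} (f : G → Q) (l : List Q)
    (hl : ∀ q ∈ l, q ∈ f '' A) : ∃ l' : List G, l'.map f = l ∧ ∀ x ∈ l', x ∈ A := by
  induction l with
  | nil => exact ⟨[], rfl, by simp⟩
  | cons q l ih =>
    obtain ⟨l', h1, h2⟩ := ih (fun q hq => hl q (List.mem_cons_of_mem _ hq))
    obtain ⟨a, ha, rfl⟩ := hl q (by simp)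
    refine ⟨a :: l', by simp [h1], ?_⟩
    intro x hx
    rcases List.mem_cons.1 hx with rfl | hx
    · exact ha
    · exact h2 x hx

theorem path_of_quotient_listing {Q : Type*} [Group Q] [Finite Q] {A : Set G} (f : G →* Q)
    {l : List Q} (hl : IsListing (f '' A) l) :
    ∃ g T, (g :: T).IsChain (step A) ∧ (g :: T).Pairwise (fun x y => x⁻¹ * y ∉ f.ker) ∧
      ∀ h, ∃ x ∈ g :: T, x⁻¹ * h ∈ f.ker := by
  classical
  obtain ⟨hlen, hA, hdist⟩ := hl
  obtain ⟨l', hl', hl'A⟩ := exists_lift_list f l hA
  have hlen' : l'.length = l.length := by rw [← hl', List.length_map]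
  have hpos : 0 < l.length := by rw [hlen]; exact Nat.card_pos
  have hfp : ∀ i, f ((l'.take i).prod) = (l.take i).prod := by
    intro i
    rw [map_list_prod, List.map_take, hl']
  set V : List G := (List.range l.length).map (fun i => (l'.take (i + 1)).prod) with hV
  have hVlen : V.length = l.length := by simp [hV]
  have hchain : V.IsChain (step A) := by
    rw [hV, List.isChain_map, List.isChain_range]
    intro m hm
    have hm' : m + 1 < l'.length := by omega
    unfold step
    rw [Nat.succ_eq_add_one, List.prod_take_succ l' (m + 1) hm', inv_mul_cancel_left]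
    exact hl'A _ (List.getElem_mem hm')
  have hpw : V.Pairwise (fun x y => x⁻¹ * y ∉ f.ker) := by
    rw [hV, List.pairwise_map]
    refine List.Pairwise.imp_of_mem ?_ (List.pairwise_lt_range (n := l.length))
    intro i j hi hj hij hmem
    rw [List.mem_range] at hi hj
    rw [MonoidHom.mem_ker, map_mul, map_inv, hfp, hfp, inv_mul_eq_one] at hmem
    exact hdist (i + 1) (j + 1) (by omega) (by omega) (by omega) hmem
  have hall : ∀ h, ∃ x ∈ V, x⁻¹ * h ∈ f.ker := by
    intro h
    have : Fintype Q := Fintype.ofFinite Q
    set F : Finset Q := ((List.range l.length).map (fun i => (l.take (i + 1)).prod)).toFinset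
      with hF
    have hnd : ((List.range l.length).map (fun i => (l.take (i + 1)).prod)).Nodup := by
      refine List.Nodup.map_on ?_ List.nodup_range
      intro i hi j hj hij
      rw [List.mem_range] at hi hj
      by_contra hne
      rcases Nat.lt_or_gt_of_ne hne with h1 | h1
      · exact hdist (i + 1) (j + 1) (by omega) (by omega) (by omega) hij
      · exact hdist (j + 1) (i + 1) (by omega) (by omega) (by omega) hij.symm
    have hFc : F.card = Fintype.card Q := by
      rw [hF, List.toFinset_card_of_nodup hnd, List.length_map, List.length_range, hlen,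
        Nat.card_eq_fintype_card]
    have hFu : F = Finset.univ := Finset.eq_univ_of_card F hFc
    have hmem : f h ∈ F := by rw [hFu]; exact Finset.mem_univ _
    rw [hF, List.mem_toFinset, List.mem_map] at hmem
    obtain ⟨i, hi, hih⟩ := hmem
    refine ⟨(l'.take (i + 1)).prod, List.mem_map.2 ⟨i, hi, rfl⟩, ?_⟩
    rw [MonoidHom.mem_ker, map_mul, map_inv, hfp, hih, inv_mul_cancel]
  cases hVc : V with
  | nil =>
    rw [hVc] at hVlen
    simp at hVlen
    omega
  | cons g T =>
    rw [hVc] at hchain hpw hall
    exact ⟨g, T, hchain, hpw, hall⟩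

/-- **The full-class part.** -/
theorem closed_of_fullClass [Finite G] {Q : Type*} [Group Q] {A : Set G} (hA : SymmGen A)
    (hne : ∃ z ∈ fullClass A, z ≠ 1)
    (f : G →* Q) (hf : Function.Surjective f) (hker : f.ker = Subgroup.closure (fullClass A))
    (h : 3 ≤ Nat.card (Subgroup.closure (fullClass A)) ∨ ∃ l : List Q, IsListing (f '' A) l) :
    HasClosedListing A := by
  rcases h with h | ⟨l, hl⟩
  · obtain ⟨L, hL⟩ := cyc_of_fullClass (C := fullClass A) hA.inv_mem hA.closure_eq
      (fun x hx => hx.1) (core_conj (A := A)) (core_inv hA.inv_mem) h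
    exact closedListing_of_cyc hL
  · have hQ : Finite Q := Finite.of_surjective f hf
    obtain ⟨g, T, h1, h2, h3⟩ := path_of_quotient_listing f hl
    rw [hker] at h2 h3
    have hbot : Subgroup.closure (core A) ≠ ⊥ := by
      intro hb
      obtain ⟨z, hz, hz1⟩ := hne
      have : z ∈ Subgroup.closure (core A) := Subgroup.subset_closure hz
      rw [hb, Subgroup.mem_bot] at this
      exact hz1 this
    obtain ⟨L, hL⟩ := cyc_of_quotient hA.inv_mem hbot h1 h2 h3
    exact closedListing_of_cyc hL

end Pool.Agent.Q128.Ham
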