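import Pool.Agent.Q128.HamConv

/-!
# Main theorems on Hamiltonian cycles in Cayley graphs
-/

namespace Pool.Agent.Q128.Ham

open Pool.Agent.Q128.Rapaport

variable {G : Type*} [Group G]

/-- the general criterion -/
theorem cyc_of_criterion [Finite G] {A S D : Set G} {K : Subgroup G} (hA : ∀ a ∈ A, a⁻¹ ∈ A)
    (hgen : Subgroup.closure A = ⊤) (hS : ∀ s ∈ D, ∃ B, HPath S K s B)
    (hSne : ∃ d ∈ D, d ∈ A) (hSA : S ⊆ A) (hn : 3 ≤ Nat.card K)
    (h : ∀ k ∈ K, ∀ a ∈ A, a ∉ K → ∀ s ∈ S, ∃ c ∈ A, ∃ d ∈ D, (∃ k' ∈ K, c = k * a * k') ∧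
      s⁻¹ * c * d ∈ A) : ∃ L, Cyc A ⊤ L := by
  refine cyc_of_att hA hgen hS hSne hSA hn ?_
  rintro v q hvq ⟨x₀, a, hx₀, ha, hq⟩ x hx s hs
  have haK : a ∉ K := by
    intro haK
    apply hvq
    have e : v⁻¹ * q = (v⁻¹ * x₀) * a * (q⁻¹ * (x₀ * a))⁻¹ := by group
    rw [e]
    exact K.mul_mem (K.mul_mem hx₀ haK) (K.inv_mem hq)
  have hk : x⁻¹ * x₀ ∈ K := by
    have e : x⁻¹ * x₀ = (v⁻¹ * x)⁻¹ * (v⁻¹ * x₀) := by group
    rw [e]
    exact K.mul_mem (K.inv_mem hx) hx₀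
  obtain ⟨c, hc, d, hd, ⟨k', hk', hck⟩, hscd⟩ := h _ hk a ha haK s hs
  refine ⟨x * c, d, hd, ?_, ?_, ?_⟩
  · have e : q⁻¹ * (x * c) = (q⁻¹ * (x₀ * a)) * k' := by rw [hck]; group
    rw [e]
    exact K.mul_mem hq hk'
  · have e : x⁻¹ * (x * c) = c := by group
    rw [e]; exact hc
  · have e : (x * c * d)⁻¹ * (x * s) = (s⁻¹ * c * d)⁻¹ := by group
    rw [e]
    exact hA _ hscd

/-- `cyc_closure`, with conjugation by the generated subgroup only -/
theorem cyc_closure_rel [Finite G] {C : Set G}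
    (hC : ∀ c ∈ C, ∀ g ∈ Subgroup.closure C, g * c * g⁻¹ ∈ C) (hCi : ∀ c ∈ C, c⁻¹ ∈ C)
    (hn : 3 ≤ Nat.card (Subgroup.closure C)) : ∃ L, Cyc C (Subgroup.closure C) L := by
  set H := Subgroup.closure C with hH
  set C' : Set H := {x | (x : G) ∈ C} with hC'
  have hcl : Subgroup.closure C' = ⊤ := Subgroup.closure_closure_coe_preimage
  obtain ⟨L', hL'⟩ := cyc_closure (G := H) (C := C')
    (by
      intro c hc g
      exact hC _ hc g g.2)
    (by
      intro c hc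
      exact hCi _ hc)
    (by
      rw [hcl]
      rw [Subgroup.card_top]
      exact hn)
  rw [hcl] at hL'
  refine ⟨L'.map (fun x : H => (x : G)), ?_, ?_, ?_, ?_⟩
  · exact hL'.nodup.map Subtype.val_injective
  · rw [List.isChain_map]
    exact hL'.chain
  · intro x hx y hy
    rw [List.getLast?_map] at hx
    rw [List.head?_map] at hy
    simp only [Option.mem_def, Option.map_eq_some_iff] at hx hy
    obtain ⟨x', hx', rfl⟩ := hx
    obtain ⟨y', hy', rfl⟩ := hy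
    exact hL'.close x' hx' y' hy'
  · intro g
    rw [List.mem_map]
    constructor
    · rintro ⟨x, _, rfl⟩
      exact x.2
    · intro hg
      exact ⟨⟨g, hg⟩, (hL'.mem _).2 (Subgroup.mem_top _), rfl⟩

theorem card_closure_ge_three [Finite G] {C : Set G} {a b : G} (ha : a ∈ C) (hb : b ∈ C)
    (ha1 : a ≠ 1) (hb1 : b ≠ 1) (hab : a ≠ b) : 3 ≤ Nat.card (Subgroup.closure C) := by
  classical
  have hsub : (({1, a, b} : Finset G) : Set G) ⊆ (Subgroup.closure C : Set G) := by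
    intro x hx
    simp only [Finset.coe_insert, Finset.coe_singleton, Set.mem_insert_iff,
      Set.mem_singleton_iff] at hx
    rcases hx with rfl | rfl | rfl
    · exact Subgroup.one_mem _
    · exact Subgroup.subset_closure ha
    · exact Subgroup.subset_closure hb
  have h1 := Set.ncard_le_ncard hsub (Set.toFinite _)
  rw [Set.ncard_coe_finset] at h1
  have h2 : ({1, a, b} : Finset G).card = 3 := by
    rw [Finset.card_insert_of_notMem, Finset.card_insert_of_notMem, Finset.card_singleton]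
    · simpa using hab
    · simp only [Finset.mem_insert, Finset.mem_singleton, not_or]
      exact ⟨ha1.symm, hb1.symm⟩
  rw [h2] at h1
  exact h1

/-- **Two normalising generators.** -/
theorem cyc_of_normalising [Finite G] {A : Set G} (hA : ∀ a ∈ A, a⁻¹ ∈ A)
    (hgen : Subgroup.closure A = ⊤) {a b : G} (ha : a ∈ normalising A) (hb : b ∈ normalising A)
    (ha1 : a ≠ 1) (hb1 : b ≠ 1) (hab : a ≠ b) : ∃ L, Cyc A ⊤ L := by
  set C := normalising A with hCdef
  have hCA : C ⊆ A := fun x hx => hx.1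
  -- elements of the closure normalise `A`
  have hnorm : ∀ g ∈ Subgroup.closure C, ∀ c, c ∈ A ↔ g * c * g⁻¹ ∈ A := by
    intro g hg
    induction hg using Subgroup.closure_induction with
    | mem x hx => exact hx.2
    | one => intro c; simp
    | mul x y _ _ hx hy =>
      intro c
      rw [hy c, hx]
      have e : x * (y * c * y⁻¹) * x⁻¹ = x * y * c * (x * y)⁻¹ := by group
      rw [e]
    | inv x _ hx =>
      intro c
      rw [hx (x⁻¹ * c * x⁻¹⁻¹)]
      have e : x * (x⁻¹ * c * x⁻¹⁻¹) * x⁻¹ = c := by group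
      rw [e]
  have hmemC : ∀ x ∈ A, x ∈ Subgroup.closure C → x ∈ C := fun x hx hxC => ⟨hx, hnorm x hxC⟩
  have hCi : ∀ c ∈ C, c⁻¹ ∈ C := by
    intro c hc
    exact hmemC _ (hA _ hc.1) (Subgroup.inv_mem _ (Subgroup.subset_closure hc))
  have hC : ∀ c ∈ C, ∀ g ∈ Subgroup.closure C, g * c * g⁻¹ ∈ C := by
    intro c hc g hg
    refine hmemC _ ((hnorm g hg c).1 hc.1) ?_
    exact Subgroup.mul_mem _ (Subgroup.mul_mem _ hg (Subgroup.subset_closure hc))
      (Subgroup.inv_mem _ hg)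
  have hn := card_closure_ge_three ha hb ha1 hb1 hab
  obtain ⟨L, hL⟩ := cyc_closure_rel hC hCi hn
  obtain ⟨s₀, hs₀⟩ := St_nonempty_of_cyc hCi hL
  refine cyc_of_criterion (S := St C (Subgroup.closure C)) (D := St C (Subgroup.closure C))
    (K := Subgroup.closure C) hA hgen (fun s hs => St_refine hCi hs)
    ⟨s₀, hs₀, hCA (St_sub hs₀)⟩ (fun s hs => hCA (St_sub hs)) hn ?_
  intro k hk c hc _ s hs
  have hsC : s ∈ Subgroup.closure C := Subgroup.subset_closure (St_sub hs)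
  refine ⟨k * c * k⁻¹, (hnorm k hk c).1 hc, s, hs, ⟨k⁻¹, Subgroup.inv_mem _ hk, rfl⟩, ?_⟩
  have h1 := (hnorm s⁻¹ (Subgroup.inv_mem _ hsC) (k * c * k⁻¹)).1 ((hnorm k hk c).1 hc)
  rwa [inv_inv] at h1

/-- **Lifting from a normal subgroup.** -/
theorem cyc_of_normal [Finite G] {A S : Set G} {N : Subgroup G} [hN : N.Normal]
    (hA : ∀ a ∈ A, a⁻¹ ∈ A)
    (hgen : Subgroup.closure A = ⊤) (hSA : S ⊆ A) (hn : 3 ≤ Nat.card N)
    (hcyc : ∃ s ∈ S, ∃ B, HPath S N s B)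
    (hpath : ∀ s ∈ S, ∀ a ∈ A, a ∉ N → ∃ B, HPath S N (a⁻¹ * s * a) B) : ∃ L, Cyc A ⊤ L := by
  obtain ⟨s₀, hs₀, B₀, hB₀⟩ := hcyc
  refine cyc_of_criterion (S := S) (D := {d | ∃ B, HPath S N d B})
    (K := N) hA hgen (fun d hd => hd) ⟨s₀, ⟨B₀, hB₀⟩, hSA hs₀⟩ hSA hn ?_
  intro k hk a ha haN s hs
  refine ⟨a, ha, a⁻¹ * s * a, hpath s hs a ha haN, ⟨a⁻¹ * k⁻¹ * a, ?_, by group⟩, ?_⟩
  · have := hN.conj_mem _ (N.inv_mem hk) a⁻¹
    rwa [inv_inv] at this
  · have e : s⁻¹ * a * (a⁻¹ * s * a) = a := by group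
    rw [e]
    exact ha

/-- **A conjugation-closed part generating a subgroup of order at least three.** -/
theorem cyc_of_fullClass [Finite G] {A C : Set G} (hA : ∀ a ∈ A, a⁻¹ ∈ A)
    (hgen : Subgroup.closure A = ⊤) (hCA : C ⊆ A)
    (hC : ∀ c ∈ C, ∀ g, g * c * g⁻¹ ∈ C) (hCi : ∀ c ∈ C, c⁻¹ ∈ C)
    (hn : 3 ≤ Nat.card (Subgroup.closure C)) : ∃ L, Cyc A ⊤ L := by
  have : (Subgroup.closure C).Normal := by
    constructor
    intro n hn g
    induction hn using Subgroup.closure_induction with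
    | mem x hx => exact Subgroup.subset_closure (hC x hx g)
    | one => simp
    | mul x y _ _ hx hy =>
      have e : g * (x * y) * g⁻¹ = (g * x * g⁻¹) * (g * y * g⁻¹) := by group
      rw [e]
      exact Subgroup.mul_mem _ hx hy
    | inv x _ hx =>
      have e : g * x⁻¹ * g⁻¹ = (g * x * g⁻¹)⁻¹ := by group
      rw [e]
      exact Subgroup.inv_mem _ hx
  obtain ⟨L, hL⟩ := cyc_closure hC hCi hn
  obtain ⟨s₀, hs₀⟩ := St_nonempty_of_cyc hCi hL
  refine cyc_of_normal (S := St C (Subgroup.closure C)) (N := Subgroup.closure C) hA hgen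
    (fun s hs => hCA (St_sub hs)) hn ⟨s₀, hs₀, St_refine hCi hs₀⟩ ?_
  intro s hs a _ _
  have h1 := St_conj (N := Subgroup.closure C) hC s hs a⁻¹
  rw [inv_inv] at h1
  exact St_refine hCi h1

end Pool.Agent.Q128.Ham
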