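import Pool.Agent.Q128.HamProc

/-!
# Conjugation-closed connection sets: Hamiltonian cycles
-/

namespace Pool.Agent.Q128.Ham

open List

variable {G : Type*} [Group G]

/-- breadth first processing of all cosets -/
theorem bfs [Finite G] {C S : Set G} {K K' : Subgroup G} {b : G}
    (hC : ∀ c ∈ C, ∀ g, g * c * g⁻¹ ∈ C) (hCi : ∀ c ∈ C, c⁻¹ ∈ C)
    (hS : ∀ s ∈ S, ∃ B, HPath S K s B) (hSne : S.Nonempty) (hSC : S ⊆ C) (hKK' : K ≤ K')
    (hbK : b ∉ K) (hn : 3 ≤ Nat.card K) (hbC : b ∈ C) (hbK' : b ∈ K') :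
    ∀ (m : ℕ) (L : List G) (P : Set G), Good C K L → (∀ x ∈ P, x ∈ L) →
      (∀ x ∈ P, x * b ∈ L) →
      (∀ x ∈ L, x ∉ P → Nat.card K ≤ sl K S x L + 2) → (∀ x ∈ L, x ∈ K') →
      ((K' : Set G) \ P).ncard ≤ m →
      ∃ L', Good C K L' ∧ (∀ x ∈ L, x ∈ L') ∧ (∀ x ∈ L', x * b ∈ L') ∧ (∀ x ∈ L', x ∈ K') := by
  intro m
  induction m with
  | zero =>
    intro L P hL h1 h3 h4 h5 h6
    have h7 : (K' : Set G) \ P = ∅ := by
      rwa [Nat.le_zero, Set.ncard_eq_zero (Set.toFinite _)] at h6
    refine ⟨L, hL, fun x hx => hx, ?_, h5⟩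
    intro x hx
    apply h3
    by_contra hxP
    have : x ∈ (K' : Set G) \ P := ⟨h5 x hx, hxP⟩
    rw [h7] at this
    exact this
  | succ m ih =>
    intro L P hL h1 h3 h4 h5 h6
    by_cases hLP : ∀ x ∈ L, x ∈ P
    · exact ⟨L, hL, fun x hx => hx, fun x hx => h3 x (hLP x hx), h5⟩
    · push Not at hLP
      obtain ⟨v, hv, hvP⟩ := hLP
      obtain ⟨L', g1, g2, g3, g4, g5, g6⟩ := process (C := C) (S := S) (K := K) (K' := K')
        (b := b) (v := v) hC hCi hS hSne hSC hKK' hbK hn hbC hbK' hv hL (h4 v hv hvP) h5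
      obtain ⟨L'', k1, k2, k3, k4⟩ := ih L' (P ∪ {x | v⁻¹ * x ∈ K}) g1 (by
          rintro x (hx | hx)
          · exact g2 x (h1 x hx)
          · apply g2
            have := hL.coset v hv _ hx
            have e : v * (v⁻¹ * x) = x := by group
            rwa [e] at this)
        (by
          rintro x (hx | hx)
          · exact g2 _ (h3 x hx)
          · have := g3 _ hx
            have e : v * (v⁻¹ * x) = x := by group
            rwa [e] at this)
        (by
          intro x hx hxP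
          by_cases hxL : x ∈ L
          · have e1 : x ∉ P := fun h => hxP (Or.inl h)
            have e2 : v⁻¹ * x ∉ K := fun h => hxP (Or.inr h)
            exact (h4 x hxL e1).trans (Nat.add_le_add_right (g5 x hxL e2) 2)
          · exact g4 x hx hxL)
        g6
        (by
          have hsub : (K' : Set G) \ (P ∪ {x | v⁻¹ * x ∈ K}) ⊂ (K' : Set G) \ P := by
            refine ⟨Set.sdiff_subset_sdiff_right Set.subset_union_left, ?_⟩
            intro hc
            have : v ∈ (K' : Set G) \ (P ∪ {x | v⁻¹ * x ∈ K}) := hc ⟨h5 v hv, hvP⟩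
            apply this.2
            right
            simp [K.one_mem]
          have := Set.ncard_lt_ncard hsub (Set.toFinite _)
          omega)
      exact ⟨L'', k1, fun x hx => k2 _ (g2 x hx), k3, k4⟩

/-- a Hamiltonian cycle of `K` extends to one of `K ⊔ ⟨b⟩` -/
theorem cyc_extend [Finite G] {C : Set G} {K : Subgroup G} {b : G}
    (hC : ∀ c ∈ C, ∀ g, g * c * g⁻¹ ∈ C) (hCi : ∀ c ∈ C, c⁻¹ ∈ C)
    {L₀ : List G} (h : Cyc C K L₀) (hbK : b ∉ K) (hn : 3 ≤ Nat.card K) (hbC : b ∈ C) :
    ∃ L, Cyc C (K ⊔ Subgroup.closure {b}) L := by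
  have hS : ∀ s ∈ St C K, ∃ B, HPath (St C K) K s B := fun s hs => St_refine hCi hs
  have hSne := St_nonempty_of_cyc hCi h
  obtain ⟨s, hs⟩ := hSne
  obtain ⟨L, hL, hLm, hLs⟩ := start_good hCi St_sub hS hs 1
  have hKK' : K ≤ K ⊔ Subgroup.closure {b} := le_sup_left
  have hbK' : b ∈ K ⊔ Subgroup.closure {b} :=
    (le_sup_right : Subgroup.closure {b} ≤ _) (Subgroup.subset_closure (by simp))
  have hLK : ∀ x, x ∈ L ↔ x ∈ K := by
    intro x
    rw [hLm]
    simp
  obtain ⟨L', g1, g2, g3, g4⟩ := bfs (C := C) (S := St C K) (K := K)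
    (K' := K ⊔ Subgroup.closure {b}) (b := b) hC hCi hS ⟨s, hs⟩ St_sub hKK' hbK hn hbC hbK'
    _ L ∅ hL (by simp) (by simp)
    (by
      intro x hx _
      have hx' : (1 : G)⁻¹ * x ∈ K := (hLm x).1 hx
      rw [← sl_congr hx']
      omega)
    (fun x hx => hKK' ((hLK x).1 hx)) le_rfl
  refine ⟨L', g1.nodup, g1.chain, g1.close, ?_⟩
  intro g
  refine ⟨fun hg => g4 g hg, ?_⟩
  intro hg
  have hcl : K ⊔ Subgroup.closure {b} = Subgroup.closure ((K : Set G) ∪ {b}) := by
    rw [Subgroup.closure_union, Subgroup.closure_eq]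
  rw [hcl] at hg
  have h1 : (1 : G) ∈ L' := g2 1 ((hLK 1).2 K.one_mem)
  have hpow : ∀ (m : ℕ) (x : G), x ∈ L' → x * b ^ m ∈ L' := by
    intro m
    induction m with
    | zero => intro x hx; simpa using hx
    | succ m ih =>
      intro x hx
      rw [pow_succ, ← mul_assoc]
      exact g3 _ (ih x hx)
  induction hg using Subgroup.closure_induction_right with
  | one => exact h1
  | mul_right x hx y hy ih =>
    rcases hy with hy | hy
    · exact g1.coset x ih y hy
    · rw [Set.mem_singleton_iff] at hy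
      subst hy
      exact g3 x ih
  | mul_inv_cancel x hx y hy ih =>
    rcases hy with hy | hy
    · exact g1.coset x ih _ (K.inv_mem hy)
    · rw [Set.mem_singleton_iff] at hy
      subst hy
      have e : y⁻¹ = y ^ (orderOf y - 1) := by
        have hpos : 0 < orderOf y := orderOf_pos y
        rw [inv_eq_iff_mul_eq_one, ← pow_succ']
        have e2 : orderOf y - 1 + 1 = orderOf y := by omega
        rw [e2, pow_orderOf_eq_one]
      rw [e]
      exact hpow _ x ih

/-- cycles from functions -/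
theorem cyc_of_fun {C : Set G} {K : Subgroup G} {n : ℕ} (f : ℕ → G)
    (hinj : ∀ i < n, ∀ j < n, f i = f j → i = j)
    (hstep : ∀ i, i + 1 < n → (f i)⁻¹ * f (i + 1) ∈ C)
    (hclose : (f (n - 1))⁻¹ * f 0 ∈ C)
    (hmem : ∀ i < n, f i ∈ K) (hsurj : ∀ g ∈ K, ∃ i < n, f i = g) :
    Cyc C K ((List.range n).map f) := by
  refine ⟨?_, ?_, ?_, ?_⟩
  · refine List.Nodup.map_on ?_ List.nodup_range
    intro x hx y hy hxy
    rw [List.mem_range] at hx hy
    exact hinj x hx y hy hxy
  · rw [List.isChain_map, List.isChain_range]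
    intro m hm
    exact hstep m (by omega)
  · intro x hx y hy
    rw [List.getLast?_map, List.getLast?_range] at hx
    rw [List.head?_map, List.head?_range] at hy
    split_ifs at hx hy with hn
    · simp at hx
    · simp only [Option.map_some, Option.mem_def, Option.some.injEq] at hx hy
      rw [← hx, ← hy]
      exact hclose
  · intro g
    rw [List.mem_map]
    constructor
    · rintro ⟨i, hi, rfl⟩
      exact hmem i (List.mem_range.1 hi)
    · intro hg
      obtain ⟨i, hi, rfl⟩ := hsurj g hg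
      exact ⟨i, List.mem_range.2 hi, rfl⟩

theorem cyc_zpowers [Finite G] {C : Set G} {a : G} (ha : a ∈ C) :
    ∃ L, Cyc C (Subgroup.zpowers a) L := by
  refine ⟨_, cyc_of_fun (n := orderOf a) (fun i => a ^ i) ?_ ?_ ?_ ?_ ?_⟩
  · intro i hi j hj hij
    exact pow_injOn_Iio_orderOf (Set.mem_Iio.2 hi) (Set.mem_Iio.2 hj) hij
  · intro i _
    have e : (a ^ i)⁻¹ * a ^ (i + 1) = a := by rw [pow_succ]; group
    simp only [e]
    exact ha
  · have hpos : 0 < orderOf a := orderOf_pos a
    have e : (a ^ (orderOf a - 1))⁻¹ * a ^ 0 = a := by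
      rw [pow_zero, mul_one, inv_eq_iff_mul_eq_one, ← pow_succ]
      have e2 : orderOf a - 1 + 1 = orderOf a := by omega
      rw [e2, pow_orderOf_eq_one]
    simp only [e]
    exact ha
  · intro i _
    exact Subgroup.pow_mem _ (Subgroup.mem_zpowers a) i
  · intro g hg
    obtain ⟨i, rfl⟩ := (isOfFinOrder_of_finite a).mem_powers_iff_mem_zpowers.2 hg
    exact ⟨i % orderOf a, Nat.mod_lt _ (orderOf_pos a), by simp [pow_mod_orderOf]⟩

end Pool.Agent.Q128.Ham
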