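import Pool.Agent.Q128.HamLift

/-!
# One normalising involution: prisms
-/

namespace Pool.Agent.Q128.Ham

open Pool.Agent.Q128.Rapaport

variable {G : Type*} [Group G]

theorem cyc_prism [Finite G] {A : Set G} (hA : SymmGen A) {z : G} (hz : z ∈ normalising A)
    (hz2 : z * z = 1) (hzH : z ∉ Subgroup.closure (A \ {z}))
    (hl : ∃ l : List (Subgroup.closure (A \ {z})),
      IsListing ((fun x : Subgroup.closure (A \ {z}) => (x : G)) ⁻¹' (A \ {z})) l) :
    HasClosedListing A := by
  set H := Subgroup.closure (A \ {z}) with hH
  have hzinv : z⁻¹ = z := inv_eq_of_mul_eq_one_left hz2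
  -- conjugation by `z` preserves `A \ {z}`
  have hconjA : ∀ a ∈ A \ {z}, z * a * z ∈ A \ {z} := by
    rintro a ⟨ha, haz⟩
    have h1 := (hz.2 a).1 ha
    rw [hzinv] at h1
    refine ⟨h1, ?_⟩
    intro h2
    apply haz
    rw [Set.mem_singleton_iff] at h2 ⊢
    have h3 : z * (z * a * z) * z = z * z * z := by rw [h2]
    have h4 : z * (z * a * z) * z = (z * z) * a * (z * z) := by group
    rw [h4, hz2, one_mul, mul_one, one_mul] at h3
    exact h3
  have hconjH : ∀ h ∈ H, z * h * z ∈ H := by
    intro h hh
    induction hh using Subgroup.closure_induction with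
    | mem x hx => exact Subgroup.subset_closure (hconjA x hx)
    | one => rw [mul_one, hz2]; exact Subgroup.one_mem _
    | mul x y _ _ hx hy =>
      have e : z * (x * y) * z = (z * x * z) * (z * y * z) := by
        calc z * (x * y) * z = z * x * 1 * y * z := by group
          _ = z * x * (z * z) * y * z := by rw [hz2]
          _ = (z * x * z) * (z * y * z) := by group
      rw [e]
      exact H.mul_mem hx hy
    | inv x _ hx =>
      have e : z * x⁻¹ * z = (z * x * z)⁻¹ := by
        rw [mul_inv_rev, mul_inv_rev, hzinv]; group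
      rw [e]
      exact H.inv_mem hx
  -- every element is in `H` or `Hz`
  have hcover : ∀ g : G, g ∈ H ∨ g * z ∈ H := by
    intro g
    have hg : g ∈ Subgroup.closure A := by rw [hA.closure_eq]; exact Subgroup.mem_top g
    have hmul : ∀ x : G, (x ∈ H ∨ x * z ∈ H) → ∀ a ∈ A, (x * a ∈ H ∨ x * a * z ∈ H) := by
      intro x hx a ha
      by_cases haz : a = z
      · subst haz
        rcases hx with hx | hx
        · right; rw [mul_assoc, hz2, mul_one]; exact hx
        · exact Or.inl hx
      · have haH : a ∈ H := Subgroup.subset_closure ⟨ha, haz⟩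
        rcases hx with hx | hx
        · exact Or.inl (H.mul_mem hx haH)
        · right
          have e : x * a * z = (x * z) * (z * a * z) := by
            calc x * a * z = x * 1 * a * z := by group
              _ = x * (z * z) * a * z := by rw [hz2]
              _ = (x * z) * (z * a * z) := by group
          rw [e]
          exact H.mul_mem hx (hconjH a haH)
    induction hg using Subgroup.closure_induction_right with
    | one => exact Or.inl H.one_mem
    | mul_right x hx y hy ih => exact hmul x ih y hy
    | mul_inv_cancel x hx y hy ih => exact hmul x ih _ (hA.inv_mem y hy)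
  obtain ⟨l, hl⟩ := hl
  have hl' : IsListing ((MonoidHom.id H) '' ((fun x : H => (x : G)) ⁻¹' (A \ {z}))) l := by
    simpa using hl
  obtain ⟨g, T, h1, h2, h3⟩ := path_of_quotient_listing (MonoidHom.id H) hl'
  set V : List G := (g :: T).map (fun x : H => (x : G)) with hV
  have hVmem : ∀ x, x ∈ V ↔ x ∈ H := by
    intro x
    rw [hV, List.mem_map]
    constructor
    · rintro ⟨y, _, rfl⟩; exact y.2
    · intro hx
      obtain ⟨y, hy, hyx⟩ := h3 ⟨x, hx⟩
      rw [MonoidHom.mem_ker, MonoidHom.id_apply, inv_mul_eq_one] at hyx
      exact ⟨y, hy, by rw [hyx]⟩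
  have hVnd : V.Nodup := by
    refine List.Nodup.map Subtype.val_injective ?_
    refine List.Pairwise.imp ?_ h2
    intro x y hxy hne
    apply hxy
    rw [hne, inv_mul_cancel]
    exact Subgroup.one_mem _
  have hVch : V.IsChain (step (A \ {z})) := by
    rw [hV, List.isChain_map]
    exact h1
  have hW : V.head? = some (g : G) := by simp [hV]
  obtain ⟨w, hw⟩ : ∃ w, V.getLast? = some w := by
    rw [← Option.isSome_iff_exists]
    simp [hV]
  refine closedListing_of_cyc (L := V ++ (V.map (fun x => x * z)).reverse) ⟨?_, ?_, ?_, ?_⟩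
  · rw [List.nodup_append]
    refine ⟨hVnd, ?_, ?_⟩
    · rw [List.nodup_reverse]
      exact hVnd.map (mul_left_injective z)
    · intro x hx y hy hxy
      rw [List.mem_reverse, List.mem_map] at hy
      obtain ⟨u, hu, rfl⟩ := hy
      rw [hVmem] at hx hu
      apply hzH
      have e : z = u⁻¹ * x := by rw [hxy]; group
      rw [e]
      exact H.mul_mem (H.inv_mem hu) hx
  · rw [List.isChain_append]
    refine ⟨hVch.imp (fun _ _ h => h.1), ?_, ?_⟩
    · rw [List.isChain_reverse, List.isChain_map]
      refine hVch.imp ?_
      intro x y hxy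
      have h5 := hconjA _ (hxy)
      have e : (y * z)⁻¹ * (x * z) = (z * (x⁻¹ * y) * z)⁻¹ := by
        rw [mul_inv_rev, mul_inv_rev, mul_inv_rev, hzinv]; group
      unfold step
      rw [e]
      exact hA.inv_mem _ h5.1
    · intro x hx y hy
      rw [hw] at hx
      rw [List.head?_reverse, List.getLast?_map, hw] at hy
      simp only [Option.mem_def, Option.map_some, Option.some.injEq] at hx hy
      rw [← hx, ← hy]
      unfold step
      rw [inv_mul_cancel_left]
      exact hz.1
  · intro x hx y hy
    rw [List.getLast?_append, List.getLast?_reverse, List.head?_map, hW] at hx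
    rw [List.head?_append, hW] at hy
    simp only [Option.map_some, Option.some_or, Option.mem_def, Option.some.injEq] at hx hy
    rw [← hx, ← hy]
    unfold step
    rw [mul_inv_rev, inv_mul_cancel_right, hzinv]
    exact hz.1
  · intro x
    refine ⟨fun _ => Subgroup.mem_top x, fun _ => ?_⟩
    rw [List.mem_append, List.mem_reverse]
    rcases hcover x with h | h
    · exact Or.inl ((hVmem x).2 h)
    · refine Or.inr (List.mem_map.2 ⟨x * z, (hVmem _).2 h, ?_⟩)
      rw [mul_assoc, hz2, mul_one]

end Pool.Agent.Q128.Ham
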