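import Pool.Agent.Q128.HamStart

/-!
# Processing one coset: attaching all its `b`-neighbours
-/

namespace Pool.Agent.Q128.Ham

open List

variable {G : Type*} [Group G]

theorem att_of {C S : Set G} {K : Subgroup G} (hC : ∀ c ∈ C, ∀ g, g * c * g⁻¹ ∈ C)
    (hCi : ∀ c ∈ C, c⁻¹ ∈ C) {v k c q : G} (hk : k ∈ K) (hc : c ∈ C) (hq : q = v * k * c) :
    Att C S S K v q := by
  intro x hx s hs
  refine ⟨q * k⁻¹ * v⁻¹ * x, s, hs, ?_, ?_, ?_⟩
  · have e : q⁻¹ * (q * k⁻¹ * v⁻¹ * x) = k⁻¹ * (v⁻¹ * x) := by group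
    rw [e]
    exact K.mul_mem (K.inv_mem hk) hx
  · have e : x⁻¹ * (q * k⁻¹ * v⁻¹ * x) = (x⁻¹ * v * k) * c * (x⁻¹ * v * k)⁻¹ := by
      rw [hq]; group
    rw [e]
    exact hC c hc _
  · have e : (q * k⁻¹ * v⁻¹ * x * s)⁻¹ * (x * s) =
        (s⁻¹ * x⁻¹ * v * k) * c⁻¹ * (s⁻¹ * x⁻¹ * v * k)⁻¹ := by
      rw [hq]; group
    rw [e]
    exact hC _ (hCi c hc) _

/-- state during the processing of the coset `vK` -/
structure PS (C S : Set G) (K K' : Subgroup G) (b v : G) (L₀ : List G) (k : G) (f : Bool) (R : ℕ)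
    (L : List G) : Prop where
  good : Good C K L
  sub : ∀ x ∈ L₀, x ∈ L
  vs : Nat.card K ≤ sl K S v L + R + 2
  fresh : f = true → Nat.card K ≤ sl K S (v * k * b) L + 1 ∧ v * k * b ∉ L₀
  new : ∀ x ∈ L, x ∉ L₀ → Nat.card K ≤ sl K S x L + 2
  old : ∀ x ∈ L₀, v⁻¹ * x ∉ K → sl K S x L₀ ≤ sl K S x L
  inK' : ∀ x ∈ L, x ∈ K'

section
variable {C S : Set G} {K K' : Subgroup G} {b v : G} {L₀ : List G}

/-- attach the coset of `v k' b` to the coset of `v` -/
theorem attV (hC : ∀ c ∈ C, ∀ g, g * c * g⁻¹ ∈ C) (hCi : ∀ c ∈ C, c⁻¹ ∈ C)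
    (hS : ∀ s ∈ S, ∃ B, HPath S K s B) (hSC : S ⊆ C) (hKK' : K ≤ K') (hbC : b ∈ C)
    (hbK' : b ∈ K') (hv : v ∈ L₀) (hL₀ : Good C K L₀) {k k' : G} {f : Bool} {R : ℕ} {L : List G}
    (h : PS C S K K' b v L₀ k f R L) (hk' : k' ∈ K) (hnot : v * k' * b ∉ L)
    (hsl : 1 ≤ sl K S v L) :
    ∃ L', PS C S K K' b v L₀ k' true (R + 1) L' ∧ (∀ x ∈ L, x ∈ L') ∧ v * k' * b ∈ L' ∧
      (∀ x ∈ L', x ∈ L ∨ (v * k' * b)⁻¹ * x ∈ K) := by
  obtain ⟨L', hg, hm, hsv, hso, hsn⟩ := insert_core (A := C) hS hSC h.good hnot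
    (att_of hC hCi hk' hbC rfl) hsl
  refine ⟨L', ⟨hg, ?_, ?_, ?_, ?_, ?_, ?_⟩, ?_, ?_, ?_⟩
  · intro x hx
    exact (hm x).2 (Or.inl (h.sub x hx))
  · have := h.vs
    omega
  · intro _
    refine ⟨hsn, fun hc => hnot (h.sub _ hc)⟩
  · intro x hx hx0
    by_cases hxL : x ∈ L
    · have h1 := h.new x hxL hx0
      have h2 : x⁻¹ * v ∉ K := by
        intro hc
        apply hx0
        have := hL₀.coset v hv _ (K.inv_mem hc)
        have e : v * (x⁻¹ * v)⁻¹ = x := by group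
        rwa [e] at this
      have := hso x h2
      omega
    · have h3 : (v * k' * b)⁻¹ * x ∈ K := ((hm x).1 hx).resolve_left hxL
      rw [← sl_congr h3]
      omega
  · intro x hx hxv
    refine (h.old x hx hxv).trans (hso x ?_)
    intro hc
    apply hxv
    have := K.inv_mem hc
    have e : (x⁻¹ * v)⁻¹ = v⁻¹ * x := by group
    rwa [e] at this
  · intro x hx
    rcases (hm x).1 hx with h1 | h1
    · exact h.inK' x h1
    · have hv' : v ∈ K' := h.inK' v (h.sub v hv)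
      have hq : v * k' * b ∈ K' := K'.mul_mem (K'.mul_mem hv' (hKK' hk')) hbK'
      have := K'.mul_mem hq (hKK' h1)
      have e : v * k' * b * ((v * k' * b)⁻¹ * x) = x := by group
      rwa [e] at this
  · intro x hx
    exact (hm x).2 (Or.inl hx)
  · exact (hm _).2 (Or.inr (by rw [inv_mul_cancel]; exact K.one_mem))
  · intro x hx
    exact (hm x).1 hx

/-- attach the coset of `v k' b` to the fresh coset of `v k b` -/
theorem attQ (hC : ∀ c ∈ C, ∀ g, g * c * g⁻¹ ∈ C) (hCi : ∀ c ∈ C, c⁻¹ ∈ C)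
    (hS : ∀ s ∈ S, ∃ B, HPath S K s B) (hSC : S ⊆ C) (hKK' : K ≤ K') (hbK : b ∉ K)
    (hn : 3 ≤ Nat.card K)
    (hbK' : b ∈ K') (hv : v ∈ L₀) (hL₀ : Good C K L₀) {k k' : G} {R : ℕ} {L : List G}
    (h : PS C S K K' b v L₀ k true R L) (hk : k ∈ K) (hk' : k' ∈ K) (hkk' : k⁻¹ * k' ∈ C)
    (hnot : v * k' * b ∉ L) :
    ∃ L', PS C S K K' b v L₀ k' true R L' ∧ (∀ x ∈ L, x ∈ L') ∧ v * k' * b ∈ L' := by
  obtain ⟨hf1, hf2⟩ := h.fresh rfl
  have hatt : Att C S S K (v * k * b) (v * k' * b) := by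
    refine att_of hC hCi K.one_mem (c := b⁻¹ * (k⁻¹ * k') * b) ?_ (by group)
    have := hC _ hkk' b⁻¹
    rwa [inv_inv] at this
  obtain ⟨L', hg, hm, hsv, hso, hsn⟩ := insert_core (A := C) hS hSC h.good hnot
    hatt (by omega)
  have hvq : v⁻¹ * (v * k * b) ∉ K := by
    have e : v⁻¹ * (v * k * b) = k * b := by group
    rw [e]
    intro hc
    exact hbK ((K.mul_mem_cancel_left hk).1 hc)
  refine ⟨L', ⟨hg, ?_, ?_, ?_, ?_, ?_, ?_⟩, ?_, ?_⟩
  · intro x hx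
    exact (hm x).2 (Or.inl (h.sub x hx))
  · have := h.vs
    have := hso v hvq
    omega
  · intro _
    exact ⟨hsn, fun hc => hnot (h.sub _ hc)⟩
  · intro x hx hx0
    by_cases hxL : x ∈ L
    · have h1 := h.new x hxL hx0
      by_cases hxq : x⁻¹ * (v * k * b) ∈ K
      · rw [sl_congr hxq]
        omega
      · have := hso x hxq
        omega
    · have h3 : (v * k' * b)⁻¹ * x ∈ K := ((hm x).1 hx).resolve_left hxL
      rw [← sl_congr h3]
      omega
  · intro x hx hxv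
    refine (h.old x hx hxv).trans (hso x ?_)
    intro hc
    apply hf2
    have := hL₀.coset x hx _ hc
    have e : x * (x⁻¹ * (v * k * b)) = v * k * b := by group
    rwa [e] at this
  · intro x hx
    rcases (hm x).1 hx with h1 | h1
    · exact h.inK' x h1
    · have hv' : v ∈ K' := h.inK' v (h.sub v hv)
      have hq : v * k' * b ∈ K' := K'.mul_mem (K'.mul_mem hv' (hKK' hk')) hbK'
      have := K'.mul_mem hq (hKK' h1)
      have e : v * k' * b * ((v * k' * b)⁻¹ * x) = x := by group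
      rwa [e] at this
  · intro x hx
    exact (hm x).2 (Or.inl hx)
  · exact (hm _).2 (Or.inr (by rw [inv_mul_cancel]; exact K.one_mem))

/-- the main induction along a Hamiltonian path of `K` -/
theorem run (hC : ∀ c ∈ C, ∀ g, g * c * g⁻¹ ∈ C) (hCi : ∀ c ∈ C, c⁻¹ ∈ C)
    (hS : ∀ s ∈ S, ∃ B, HPath S K s B) (hSC : S ⊆ C) (hKK' : K ≤ K') (hbK : b ∉ K)
    (hn : 3 ≤ Nat.card K) (hbC : b ∈ C)
    (hbK' : b ∈ K') (hv : v ∈ L₀) (hL₀ : Good C K L₀) :
    ∀ (T : List G) (k : G) (f : Bool) (R j : ℕ) (L : List G), PS C S K K' b v L₀ k f R L →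
      (∀ x ∈ k :: T, x ∈ K) → (k :: T).IsChain (step S) →
      (f = true → 2 * R ≤ j + 1) → (f = false → 2 * R ≤ j) →
      j + 1 + T.length = Nat.card K →
      ∃ k' f' R' L', PS C S K K' b v L₀ k' f' R' L' ∧ (∀ x ∈ L, x ∈ L') ∧
        ∀ x ∈ T, v * x * b ∈ L' := by
  intro T
  induction T with
  | nil =>
    intro k f R j L h _ _ _ _ _
    exact ⟨k, f, R, L, h, fun x hx => hx, by simp⟩
  | cons k' T ih =>
    intro k f R j L h hK hch hf1 hf2 hlen
    rw [List.isChain_cons_cons] at hch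
    simp only [List.length_cons] at hlen
    have hk : k ∈ K := hK k (by simp)
    have hk' : k' ∈ K := hK k' (by simp)
    have hK' : ∀ x ∈ k' :: T, x ∈ K := fun x hx => hK x (List.mem_cons_of_mem _ hx)
    by_cases hq : v * k' * b ∈ L
    · have hps : PS C S K K' b v L₀ k' false R L :=
        ⟨h.good, h.sub, h.vs, by simp, h.new, h.old, h.inK'⟩
      obtain ⟨k₁, f₁, R₁, L₁, h1, h2, h3⟩ := ih k' false R (j + 1) L hps hK' hch.2 (by simp)
        (by
          intro _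
          cases f with
          | true => exact hf1 rfl
          | false => have := hf2 rfl; omega) (by omega)
      refine ⟨k₁, f₁, R₁, L₁, h1, h2, ?_⟩
      intro x hx
      rcases List.mem_cons.1 hx with rfl | hx
      · exact h2 _ hq
      · exact h3 x hx
    · cases f with
      | true =>
        obtain ⟨L', h1, h2, h3⟩ := attQ hC hCi hS hSC hKK' hbK hn hbK' hv hL₀ h hk hk'
          (hSC hch.1) hq
        obtain ⟨k₁, f₁, R₁, L₁, h4, h5, h6⟩ := ih k' true R (j + 1) L' h1 hK' hch.2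
          (by intro _; have := hf1 rfl; omega) (by simp) (by omega)
        refine ⟨k₁, f₁, R₁, L₁, h4, fun x hx => h5 x (h2 x hx), ?_⟩
        intro x hx
        rcases List.mem_cons.1 hx with rfl | hx
        · exact h5 _ h3
        · exact h6 x hx
      | false =>
        have hR := hf2 rfl
        have hvs := h.vs
        obtain ⟨L', h1, h2, h3, -⟩ := attV hC hCi hS hSC hKK' hbC hbK' hv hL₀ h hk' hq
          (by omega)
        obtain ⟨k₁, f₁, R₁, L₁, h4, h5, h6⟩ := ih k' true (R + 1) (j + 1) L' h1 hK' hch.2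
          (by intro _; omega) (by simp) (by omega)
        refine ⟨k₁, f₁, R₁, L₁, h4, fun x hx => h5 x (h2 x hx), ?_⟩
        intro x hx
        rcases List.mem_cons.1 hx with rfl | hx
        · exact h5 _ h3
        · exact h6 x hx

/-- processing the coset `vK` -/
theorem process (hC : ∀ c ∈ C, ∀ g, g * c * g⁻¹ ∈ C) (hCi : ∀ c ∈ C, c⁻¹ ∈ C)
    (hS : ∀ s ∈ S, ∃ B, HPath S K s B) (hSne : S.Nonempty) (hSC : S ⊆ C) (hKK' : K ≤ K')
    (hbK : b ∉ K)
    (hn : 3 ≤ Nat.card K) (hbC : b ∈ C)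
    (hbK' : b ∈ K') (hv : v ∈ L₀) (hL₀ : Good C K L₀) (hvs : Nat.card K ≤ sl K S v L₀ + 2)
    (hin : ∀ x ∈ L₀, x ∈ K') :
    ∃ L', Good C K L' ∧ (∀ x ∈ L₀, x ∈ L') ∧ (∀ k ∈ K, v * k * b ∈ L') ∧
      (∀ x ∈ L', x ∉ L₀ → Nat.card K ≤ sl K S x L' + 2) ∧
      (∀ x ∈ L₀, v⁻¹ * x ∉ K → sl K S x L₀ ≤ sl K S x L') ∧ (∀ x ∈ L', x ∈ K') := by
  have hps0 : ∀ k, PS C S K K' b v L₀ k false 0 L₀ := fun k =>
    ⟨hL₀, fun x hx => hx, hvs, by simp, fun x hx hx' => absurd hx hx', fun x _ _ => le_rfl, hin⟩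
  by_cases hold : ∃ k ∈ K, v * k * b ∈ L₀
  · obtain ⟨k, hk, hkL⟩ := hold
    obtain ⟨T, hT1, hT2, hT3, hT4⟩ := path_from hS hSne hk
    obtain ⟨k₁, f₁, R₁, L₁, h4, h5, h6⟩ := run hC hCi hS hSC hKK' hbK hn hbC hbK' hv hL₀ T k
      false 0 0 L₀ (hps0 k) (fun x hx => (hT3 x).1 hx) hT2 (by simp) (by simp)
      (by rw [← hT4, List.length_cons]; omega)
    refine ⟨L₁, h4.good, h5, ?_, h4.new, h4.old, h4.inK'⟩
    intro x hx
    rw [← hT3] at hx
    rcases List.mem_cons.1 hx with rfl | hx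
    · exact h5 _ hkL
    · exact h6 x hx
  · push Not at hold
    obtain ⟨T, hT1, hT2, hT3, hT4⟩ := path_from hS hSne K.one_mem
    cases T with
    | nil => simp at hT4; omega
    | cons k T =>
      have hk : k ∈ K := (hT3 k).1 (by simp)
      obtain ⟨L₁, h1, h2, h3, h3'⟩ := attV hC hCi hS hSC hKK' hbC hbK' hv hL₀ (hps0 1) K.one_mem
        (hold 1 K.one_mem) (by omega)
      rw [List.isChain_cons_cons] at hT2
      obtain ⟨L₂, h4, h5, h6⟩ : ∃ L₂, PS C S K K' b v L₀ k true (0 + 1) L₂ ∧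
          (∀ x ∈ L₁, x ∈ L₂) ∧ v * k * b ∈ L₂ := by
        by_cases hq : v * k * b ∈ L₁
        · refine ⟨L₁, ⟨h1.good, h1.sub, h1.vs, ?_, h1.new, h1.old, h1.inK'⟩, fun x hx => hx, hq⟩
          intro _
          have h7 := (h3' _ hq).resolve_left (hold k hk)
          refine ⟨?_, hold k hk⟩
          rw [← sl_congr h7]
          exact (h1.fresh rfl).1
        · exact attQ hC hCi hS hSC hKK' hbK hn hbK' hv hL₀ h1 K.one_mem hk (hSC hT2.1) hq
      obtain ⟨k₁, f₁, R₁, L₃, h7, h8, h9⟩ := run hC hCi hS hSC hKK' hbK hn hbC hbK' hv hL₀ T k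
        true 1 1 L₂ h4 (fun x hx => (hT3 x).1 (List.mem_cons_of_mem _ hx)) hT2.2 (by simp)
        (by simp) (by rw [← hT4]; simp only [List.length_cons]; omega)
      refine ⟨L₃, h7.good, h7.sub, ?_, h7.new, h7.old, h7.inK'⟩
      intro x hx
      rw [← hT3] at hx
      rcases List.mem_cons.1 hx with rfl | hx
      · exact h8 _ (h5 _ h3)
      · rcases List.mem_cons.1 hx with rfl | hx
        · exact h8 _ h6
        · exact h9 x hx

end

end Pool.Agent.Q128.Ham
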