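import Pool.Agent.Q128.HamCore

/-!
# Slots, rotations and starting cycles
-/

namespace Pool.Agent.Q128.Ham

open List

variable {G : Type*} [Group G]

/-- `L` is a cyclic closed walk in `Cay(G, A)` visiting each element of `K` exactly once. -/
structure Cyc (A : Set G) (K : Subgroup G) (L : List G) : Prop where
  nodup : L.Nodup
  chain : L.IsChain (step A)
  close : ∀ x ∈ L.getLast?, ∀ y ∈ L.head?, step A x y
  mem : ∀ g, g ∈ L ↔ g ∈ K

/-- The elements `s` of `A` such that `Cay(K, A ∩ K)` has a Hamiltonian path from `1` to `s`. -/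
def St (A : Set G) (K : Subgroup G) : Set G := {s | s ∈ A ∧ ∃ B, HPath A K s B}

theorem step_symm {A : Set G} (hA : ∀ a ∈ A, a⁻¹ ∈ A) {x y : G} (h : step A x y) :
    step A y x := by
  unfold step at h ⊢
  have := hA _ h
  have e : (x⁻¹ * y)⁻¹ = y⁻¹ * x := by group
  rwa [e] at this

/-- every step of a Hamiltonian cycle is in `St` -/
theorem mem_St_of_cyc {A : Set G} (hA : ∀ a ∈ A, a⁻¹ ∈ A) {K : Subgroup G} {P Q : List G}
    {x y : G} (h : Cyc A K (P ++ x :: y :: Q)) : x⁻¹ * y ∈ St A K := by
  have hch := h.chain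
  rw [List.isChain_append_cons_cons] at hch
  obtain ⟨h1, h2, h3⟩ := hch
  refine ⟨h2, ((y :: Q) ++ (P ++ [x])).reverse.map (fun g => x⁻¹ * g), ?_, ?_, ?_, ?_, ?_⟩
  · refine List.Nodup.map (mul_right_injective _) ?_
    rw [List.nodup_reverse]
    have hp : ((y :: Q) ++ (P ++ [x])).Perm (P ++ x :: y :: Q) := by
      have e : P ++ x :: y :: Q = (P ++ [x]) ++ (y :: Q) := by simp
      rw [e]
      exact List.perm_append_comm
    exact hp.nodup_iff.2 h.nodup
  · intro g
    have hx : x ∈ K := (h.mem x).1 (by simp)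
    have hm : ∀ z, z ∈ (y :: Q) ++ (P ++ [x]) ↔ z ∈ K := by
      intro z
      rw [← h.mem]
      simp only [List.mem_append, List.mem_cons]
      simp
      tauto
    rw [List.mem_map]
    constructor
    · rintro ⟨z, hz, rfl⟩
      rw [List.mem_reverse, hm] at hz
      exact K.mul_mem (K.inv_mem hx) hz
    · intro hg
      refine ⟨x * g, ?_, by group⟩
      rw [List.mem_reverse, hm]
      exact K.mul_mem hx hg
  · rw [List.isChain_map]
    have : ((y :: Q) ++ (P ++ [x])).reverse.IsChain (step A) := by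
      rw [List.isChain_reverse]
      have hc : ((y :: Q) ++ (P ++ [x])).IsChain (step A) := by
        rw [List.isChain_append]
        refine ⟨h3, h1, ?_⟩
        intro a ha b hb
        apply h.close a _ b _
        · rw [List.getLast?_append]
          simp only [List.getLast?_cons_cons]
          rw [Option.mem_def] at ha
          rw [ha]; rfl
        · cases P with
          | nil => simpa using hb
          | cons p P => simpa using hb
      exact hc.imp (fun a b hab => step_symm hA hab)
    exact this.imp (fun a b hab => (step_mul _ _ _).2 hab)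
  · have e : ((y :: Q) ++ (P ++ [x])).getLast? = some x := by
      rw [List.getLast?_append, List.getLast?_append]
      simp
    rw [List.head?_map, List.head?_reverse, e]
    simp
  · rw [List.getLast?_map, List.getLast?_reverse]
    simp

/-- a path from `1` to an element of the symmetric set `A` is a cycle -/
theorem HPath.cyc {A : Set G} (hA : ∀ a ∈ A, a⁻¹ ∈ A) {K : Subgroup G} {s : G} (hs : s ∈ A)
    {B : List G} (h : HPath A K s B) : Cyc A K B := by
  refine ⟨h.nodup, h.chain, ?_, h.mem⟩
  intro x hx y hy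
  rw [h.last] at hx
  rw [h.head] at hy
  simp only [Option.mem_def, Option.some.injEq] at hx hy
  rw [← hx, ← hy]
  unfold step
  rw [mul_one]
  exact hA _ hs

theorem St_refine {A : Set G} (hA : ∀ a ∈ A, a⁻¹ ∈ A) {K : Subgroup G} {s : G}
    (hs : s ∈ St A K) : ∃ B, HPath (St A K) K s B := by
  obtain ⟨hsA, B, hB⟩ := hs
  refine ⟨B, hB.nodup, hB.mem, ?_, hB.head, hB.last⟩
  rw [List.isChain_iff_forall_rel_of_append_cons_cons]
  intro a b l₁ l₂ he
  have := hB.cyc hA hsA
  rw [he] at this
  exact mem_St_of_cyc hA this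

theorem St_sub {A : Set G} {K : Subgroup G} : St A K ⊆ A := fun _ h => h.1

/-- a Hamiltonian cycle gives a nonempty set of slots -/
theorem St_nonempty_of_cyc {A : Set G} (hA : ∀ a ∈ A, a⁻¹ ∈ A) {K : Subgroup G} {L : List G}
    (h : Cyc A K L) : (St A K).Nonempty := by
  have h1 : (1 : G) ∈ L := (h.mem 1).2 K.one_mem
  cases hL : L with
  | nil => rw [hL] at h1; simp at h1
  | cons x T =>
    rw [hL] at h
    obtain ⟨l, hl⟩ : ∃ l, (x :: T).getLast? = some l := by
      rw [List.getLast?_cons]; exact ⟨_, rfl⟩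
    have hx : x ∈ K := (h.mem x).1 (by simp)
    have hs : x⁻¹ * l ∈ A := by
      have := h.close l hl x (by simp)
      exact step_symm hA this
    refine ⟨x⁻¹ * l, hs, (x :: T).map (fun g => x⁻¹ * g), ?_, ?_, ?_, ?_, ?_⟩
    · exact h.nodup.map (mul_right_injective _)
    · intro g
      rw [List.mem_map]
      constructor
      · rintro ⟨z, hz, rfl⟩
        exact K.mul_mem (K.inv_mem hx) ((h.mem z).1 hz)
      · intro hg
        exact ⟨x * g, (h.mem _).2 (K.mul_mem hx hg), by group⟩
    · rw [List.isChain_map]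
      exact h.chain.imp (fun a b hab => (step_mul _ _ _).2 hab)
    · simp
    · rw [List.getLast?_map, hl]; simp

/-- translates of Hamiltonian paths are good starting lists -/
theorem start_good' {A S : Set G} (hA : ∀ a ∈ A, a⁻¹ ∈ A) (hSA : S ⊆ A) {K : Subgroup G}
    {s : G} (hs : s ∈ A) {B : List G} (hB : HPath S K s B) (g : G) :
    ∃ L, Good A K L ∧ (∀ h, h ∈ L ↔ g⁻¹ * h ∈ K) ∧ Nat.card K ≤ sl K S g L + 1 := by
  have hmem : ∀ h, h ∈ B.map (fun k => g * k) ↔ g⁻¹ * h ∈ K := by
    intro h
    rw [List.mem_map]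
    constructor
    · rintro ⟨z, hz, rfl⟩
      have e : g⁻¹ * (g * z) = z := by group
      rw [e]
      exact (hB.mem z).1 hz
    · intro hg
      exact ⟨g⁻¹ * h, (hB.mem _).2 hg, by group⟩
  have hchS : (B.map (fun k => g * k)).IsChain (step S) := by
    rw [List.isChain_map]
    exact hB.chain.imp (fun a b hab => (step_mul _ _ _).2 hab)
  refine ⟨B.map (fun k => g * k), ⟨?_, ?_, ?_, ?_⟩, hmem, ?_⟩
  · exact hB.nodup.map (mul_right_injective _)
  · exact hchS.imp (fun a b hab => hSA hab)
  · intro x hx y hy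
    rw [List.getLast?_map, hB.last] at hx
    rw [List.head?_map, hB.head] at hy
    simp only [Option.mem_def, Option.map_some, Option.some.injEq] at hx hy
    rw [← hx, ← hy]
    unfold step
    have e : (g * s)⁻¹ * (g * 1) = s⁻¹ := by group
    rw [e]
    exact hA _ hs
  · intro h hh k hk
    rw [hmem] at hh ⊢
    have e : g⁻¹ * (h * k) = (g⁻¹ * h) * k := by group
    rw [e]
    exact K.mul_mem hh hk
  · rw [← hB.length_eq, ← List.length_map (as := B) (fun k => g * k)]
    refine cnt_of_isChain ?_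
    rw [List.isChain_iff_forall_rel_of_append_cons_cons] at hchS ⊢
    intro a b l₁ l₂ he
    refine ⟨?_, hchS he⟩
    rw [← hmem, he]
    simp

theorem start_good {A S : Set G} (hA : ∀ a ∈ A, a⁻¹ ∈ A) (hSA : S ⊆ A) {K : Subgroup G}
    (hS : ∀ s ∈ S, ∃ B, HPath S K s B) {s : G} (hs : s ∈ S) (g : G) :
    ∃ L, Good A K L ∧ (∀ h, h ∈ L ↔ g⁻¹ * h ∈ K) ∧ Nat.card K ≤ sl K S g L + 1 := by
  obtain ⟨B, hB⟩ := hS s hs
  exact start_good' hA hSA (hSA hs) hB g

/-- paths of `K` starting anywhere in `K` -/
theorem path_from {S : Set G} {K : Subgroup G}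
    (hS : ∀ s ∈ S, ∃ B, HPath S K s B) (hne : S.Nonempty) {x : G} (hx : x ∈ K) :
    ∃ T, (x :: T).Nodup ∧ (x :: T).IsChain (step S) ∧ (∀ g, g ∈ x :: T ↔ g ∈ K) ∧
      (x :: T).length = Nat.card K := by
  obtain ⟨s, hs⟩ := hne
  obtain ⟨B, hB⟩ := hS s hs
  cases hBc : B with
  | nil => have := hB.head; rw [hBc] at this; simp at this
  | cons b B' =>
    have hb : b = 1 := by
      have := hB.head; rw [hBc] at this; simpa using this
    subst hb
    rw [hBc] at hB
    refine ⟨B'.map (fun g => x * g), ?_⟩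
    have e : x :: B'.map (fun g => x * g) = (1 :: B').map (fun g => x * g) := by simp
    rw [e]
    refine ⟨?_, ?_, ?_, ?_⟩
    · exact hB.nodup.map (mul_right_injective _)
    · rw [List.isChain_map]
      exact hB.chain.imp (fun a b hab => (step_mul _ _ _).2 hab)
    · intro g
      rw [List.mem_map]
      constructor
      · rintro ⟨z, hz, rfl⟩
        exact K.mul_mem hx ((hB.mem z).1 hz)
      · intro hg
        exact ⟨x⁻¹ * g, (hB.mem _).2 (K.mul_mem (K.inv_mem hx) hg), by group⟩
    · rw [List.length_map, hB.length_eq]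

end Pool.Agent.Q128.Ham
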