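import Mathlib

/-!
# Edge boundaries in finite connected vertex-transitive graphs

Every nonempty proper vertex set of a finite connected vertex-transitive graph of valency `d`
has edge boundary at least `d` (Mader).
-/

namespace Pool.Agent.Q128.Ham

open Finset

variable {V : Type*} [Fintype V] [DecidableEq V]

open Classical in
/-- edge boundary -/
noncomputable def bd (Γ : V → V → Prop) (F : Finset V) : ℕ :=
  ((univ : Finset (V × V)).filter (fun e => e.1 ∈ F ∧ e.2 ∉ F ∧ Γ e.1 e.2)).card

/-- vertex transitivity -/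
def VT (Γ : V → V → Prop) : Prop :=
  ∀ x y, ∃ φ : V ≃ V, φ x = y ∧ ∀ u w, Γ (φ u) (φ w) ↔ Γ u w

theorem bd_submod (Γ : V → V → Prop) (F H : Finset V) :
    bd Γ (F ∩ H) + bd Γ (F ∪ H) ≤ bd Γ F + bd Γ H := by
  classical
  unfold bd
  rw [Finset.card_filter, Finset.card_filter, Finset.card_filter, Finset.card_filter,
    ← Finset.sum_add_distrib, ← Finset.sum_add_distrib]
  refine Finset.sum_le_sum ?_
  rintro ⟨x, y⟩ _
  by_cases h1 : x ∈ F <;> by_cases h2 : x ∈ H <;> by_cases h3 : y ∈ F <;> by_cases h4 : y ∈ H <;>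
    by_cases h5 : Γ x y <;> simp [h1, h2, h3, h4, h5]

theorem bd_compl {Γ : V → V → Prop} (hsymm : ∀ x y, Γ x y → Γ y x) (F : Finset V) :
    bd Γ Fᶜ = bd Γ F := by
  classical
  unfold bd
  refine Finset.card_bij (fun e _ => (e.2, e.1)) ?_ ?_ ?_
  · rintro ⟨x, y⟩ h
    simp only [Finset.mem_filter, Finset.mem_univ, true_and, Finset.mem_compl, not_not] at h ⊢
    exact ⟨h.2.1, h.1, hsymm _ _ h.2.2⟩
  · rintro ⟨x, y⟩ _ ⟨x', y'⟩ _ h
    simp only [Prod.mk.injEq] at h ⊢
    exact ⟨h.2, h.1⟩
  · rintro ⟨x, y⟩ h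
    refine ⟨(y, x), ?_, rfl⟩
    simp only [Finset.mem_filter, Finset.mem_univ, true_and, Finset.mem_compl, not_not] at h ⊢
    exact ⟨h.2.1, h.1, hsymm _ _ h.2.2⟩

theorem bd_map {Γ : V → V → Prop} {φ : V ≃ V} (hφ : ∀ u w, Γ (φ u) (φ w) ↔ Γ u w)
    (F : Finset V) : bd Γ (F.map φ.toEmbedding) = bd Γ F := by
  classical
  unfold bd
  symm
  refine Finset.card_bij (fun e _ => (φ e.1, φ e.2)) ?_ ?_ ?_
  · rintro ⟨x, y⟩ h
    simp only [Finset.mem_filter, Finset.mem_univ, true_and, Finset.mem_map_equiv,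
      Equiv.symm_apply_apply] at h ⊢
    exact ⟨h.1, h.2.1, (hφ _ _).2 h.2.2⟩
  · rintro ⟨x, y⟩ _ ⟨x', y'⟩ _ h
    simpa using h
  · rintro ⟨x, y⟩ h
    refine ⟨(φ.symm x, φ.symm y), ?_, by simp⟩
    simp only [Finset.mem_filter, Finset.mem_univ, true_and, Finset.mem_map_equiv] at h ⊢
    refine ⟨h.1, h.2.1, ?_⟩
    rw [← hφ]
    simpa using h.2.2

open Classical in
theorem bd_eq_sum (Γ : V → V → Prop) (F : Finset V) :
    bd Γ F = ∑ x ∈ F, ((univ : Finset V).filter (fun y => y ∉ F ∧ Γ x y)).card := by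
  unfold bd
  rw [← Finset.card_sigma]
  refine Finset.card_bij (fun e _ => ⟨e.1, e.2⟩) ?_ ?_ ?_
  · rintro ⟨x, y⟩ h
    simp only [Finset.mem_filter, Finset.mem_univ, true_and, Finset.mem_sigma] at h ⊢
    exact h
  · rintro ⟨x, y⟩ _ ⟨x', y'⟩ _ h
    simpa using h
  · rintro ⟨x, y⟩ h
    refine ⟨(x, y), ?_, rfl⟩
    simp only [Finset.mem_filter, Finset.mem_univ, true_and, Finset.mem_sigma] at h ⊢
    exact h

open Classical in
/-- the valency -/
noncomputable def val (Γ : V → V → Prop) (x : V) : ℕ :=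
  ((univ : Finset V).filter (fun y => Γ x y)).card

omit [DecidableEq V] in
theorem val_const {Γ : V → V → Prop} (hvt : VT Γ) (x y : V) : val Γ x = val Γ y := by
  classical
  obtain ⟨φ, rfl, hφ⟩ := hvt x y
  unfold val
  refine Finset.card_bij (fun e _ => φ e) ?_ ?_ ?_
  · intro u h
    simp only [Finset.mem_filter, Finset.mem_univ, true_and] at h ⊢
    exact (hφ _ _).2 h
  · intro u _ w _ h
    exact φ.injective h
  · intro w h
    refine ⟨φ.symm w, ?_, by simp⟩
    simp only [Finset.mem_filter, Finset.mem_univ, true_and] at h ⊢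
    rw [← hφ]
    simpa using h

/-- **Mader's theorem** on edge boundaries. -/
theorem mader {Γ : V → V → Prop} (hsymm : ∀ x y, Γ x y → Γ y x) (hirr : ∀ x, ¬ Γ x x)
    (hvt : VT Γ) (hconn : ∀ x y, Relation.ReflTransGen Γ x y) (F : Finset V) (hF : F.Nonempty)
    (hF' : F ≠ univ) (x₀ : V) : val Γ x₀ ≤ bd Γ F := by
  classical
  -- choose an atom
  set fam : Finset (Finset V) := (univ : Finset (Finset V)).filter
    (fun H => H.Nonempty ∧ H ≠ univ) with hfam
  obtain ⟨M, hM, hmin⟩ := Finset.exists_min_image fam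
    (fun H => bd Γ H * (Fintype.card V + 1) + H.card) ⟨F, by simp [hfam, hF, hF']⟩
  rw [hfam, Finset.mem_filter] at hM
  obtain ⟨-, hMne, hMuniv⟩ := hM
  have hcardle : ∀ H : Finset V, H.card ≤ Fintype.card V := fun H => Finset.card_le_univ H
  have hmin1 : ∀ H : Finset V, H.Nonempty → H ≠ univ → bd Γ M ≤ bd Γ H := by
    intro H h1 h2
    have h3 := hmin H (by simp [hfam, h1, h2])
    by_contra hlt
    push Not at hlt
    have h4 : (bd Γ H + 1) * (Fintype.card V + 1) ≤ bd Γ M * (Fintype.card V + 1) :=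
      Nat.mul_le_mul_right _ hlt
    have h5 := hcardle H
    nlinarith
  have hmin2 : ∀ H : Finset V, H.Nonempty → H ≠ univ → bd Γ H ≤ bd Γ M → M.card ≤ H.card := by
    intro H h1 h2 h3
    have h4 : bd Γ H = bd Γ M := le_antisymm h3 (hmin1 H h1 h2)
    have h5 := hmin H (by simp [hfam, h1, h2])
    simp only [h4] at h5
    omega
  have hMc : M.card ≤ Mᶜ.card := by
    apply hmin2
    · rw [Finset.nonempty_iff_ne_empty]
      intro h
      apply hMuniv
      rw [← compl_compl M, h, Finset.compl_empty]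
    · intro h
      have : M = ∅ := by rw [← compl_compl M, h, Finset.compl_univ]
      rw [this] at hMne
      exact Finset.not_nonempty_empty hMne
    · rw [bd_compl hsymm]
  have hMc' : 2 * M.card ≤ Fintype.card V := by
    rw [Finset.card_compl] at hMc
    have := hcardle M
    omega
  -- translates of the atom meeting it are equal to it
  have hblock : ∀ φ : V ≃ V, (∀ u w, Γ (φ u) (φ w) ↔ Γ u w) →
      (M ∩ M.map φ.toEmbedding).Nonempty → M.map φ.toEmbedding = M := by
    intro φ hφ hne
    by_contra hneq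
    have hc1 : (M.map φ.toEmbedding).card = M.card := Finset.card_map _
    have hlt : (M ∩ M.map φ.toEmbedding).card < M.card := by
      apply Finset.card_lt_card
      refine ⟨Finset.inter_subset_left, ?_⟩
      intro hsub
      apply hneq
      symm
      apply Finset.eq_of_subset_of_card_le
      · intro x hx
        exact (Finset.mem_inter.1 (hsub hx)).2
      · rw [hc1]
    have hun : (M ∪ M.map φ.toEmbedding) ≠ univ := by
      intro h
      have h1 := Finset.card_union_add_card_inter M (M.map φ.toEmbedding)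
      rw [h, Finset.card_univ, hc1] at h1
      have h2 : 0 < (M ∩ M.map φ.toEmbedding).card := Finset.card_pos.2 hne
      omega
    have hin : (M ∩ M.map φ.toEmbedding) ≠ univ := by
      intro h
      apply hMuniv
      rw [Finset.eq_univ_iff_forall] at h ⊢
      intro x
      exact (Finset.mem_inter.1 (h x)).1
    have hunne : (M ∪ M.map φ.toEmbedding).Nonempty := hMne.mono Finset.subset_union_left
    have h1 := bd_submod Γ M (M.map φ.toEmbedding)
    rw [bd_map hφ] at h1
    have h2 := hmin1 _ hunne hun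
    have h3 := hmin2 _ hne hin (by omega)
    omega
  -- the outer degree is constant on the atom
  obtain ⟨m₀, hm₀⟩ := hMne
  set c : ℕ := ((univ : Finset V).filter (fun y => y ∉ M ∧ Γ m₀ y)).card with hc
  have hconst : ∀ x ∈ M, ((univ : Finset V).filter (fun y => y ∉ M ∧ Γ x y)).card = c := by
    intro x hx
    obtain ⟨φ, hφx, hφ⟩ := hvt m₀ x
    have hMφ : M.map φ.toEmbedding = M := by
      apply hblock φ hφ
      refine ⟨x, Finset.mem_inter.2 ⟨hx, ?_⟩⟩
      rw [Finset.mem_map_equiv, ← hφx]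
      simpa using hm₀
    have hmem : ∀ y, φ y ∈ M ↔ y ∈ M := by
      intro y
      conv_lhs => rw [← hMφ]
      rw [Finset.mem_map_equiv]
      simp
    rw [hc]
    symm
    refine Finset.card_bij (fun e _ => φ e) ?_ ?_ ?_
    · intro u h
      simp only [Finset.mem_filter, Finset.mem_univ, true_and] at h ⊢
      rw [hmem, ← hφx, hφ]
      exact h
    · intro u _ w _ h
      exact φ.injective h
    · intro w h
      refine ⟨φ.symm w, ?_, by simp⟩
      simp only [Finset.mem_filter, Finset.mem_univ, true_and] at h ⊢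
      rw [← hmem, ← hφ, hφx]
      simpa using h
  have hbdM : bd Γ M = M.card * c := by
    rw [bd_eq_sum, Finset.sum_congr rfl hconst, Finset.sum_const, smul_eq_mul]
  -- the outer degree is positive
  have hcpos : 1 ≤ c := by
    by_contra hc0
    have hc0 : c = 0 := by omega
    have hcl : ∀ x ∈ M, ∀ y, Γ x y → y ∈ M := by
      intro x hx y hxy
      by_contra hy
      have := hconst x hx
      rw [hc0, Finset.card_eq_zero] at this
      have h2 : y ∈ ((univ : Finset V).filter (fun y => y ∉ M ∧ Γ x y)) := by simp [hy, hxy]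
      rw [this] at h2
      simp at h2
    apply hMuniv
    rw [Finset.eq_univ_iff_forall]
    intro y
    have := hconn m₀ y
    induction this with
    | refl => exact hm₀
    | tail _ h ih => exact hcl _ ih _ h
  -- the inner degree is at most `|M| - 1`
  have hsplit : val Γ m₀ ≤ c + (M.card - 1) := by
    unfold val
    have h1 : ((univ : Finset V).filter (fun y => Γ m₀ y)) ⊆
        ((univ : Finset V).filter (fun y => y ∉ M ∧ Γ m₀ y)) ∪ (M.erase m₀) := by
      intro y hy
      simp only [Finset.mem_filter, Finset.mem_univ, true_and, Finset.mem_union,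
        Finset.mem_erase] at hy ⊢
      by_cases hyM : y ∈ M
      · right
        refine ⟨?_, hyM⟩
        rintro rfl
        exact hirr _ hy
      · exact Or.inl ⟨hyM, hy⟩
    refine (Finset.card_le_card h1).trans ?_
    refine (Finset.card_union_le _ _).trans ?_
    rw [Finset.card_erase_of_mem hm₀]
  have hMpos : 1 ≤ M.card := Finset.card_pos.2 ⟨m₀, hm₀⟩
  have h5 := hmin1 F hF hF'
  rw [val_const hvt x₀ m₀]
  obtain ⟨c', hc'⟩ : ∃ c', c = c' + 1 := ⟨c - 1, by omega⟩
  obtain ⟨k, hk⟩ : ∃ k, M.card = k + 1 := ⟨M.card - 1, by omega⟩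
  rw [hbdM, hc', hk] at h5
  rw [hc', hk, Nat.add_sub_cancel] at hsplit
  have h6 : c' + 1 + k ≤ (k + 1) * (c' + 1) := by
    have : (k + 1) * (c' + 1) = k * c' + k + c' + 1 := by ring
    omega
  omega

end Pool.Agent.Q128.Ham
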