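import Mathlib

/-!
# Listing sequences: definitions for `MP_688fd0_co / NormalQuotient`
-/

namespace Pool.Agent.Q128.Rapaport

variable {G : Type*} [Group G]

/-- The partial products `l₁ l₂ ⋯ l_k`, `m ≤ k ≤ length l`, are pairwise distinct. -/
def DistinctPartial (m : ℕ) (l : List G) : Prop :=
  ∀ i j, m ≤ i → i < j → j ≤ l.length → (l.take i).prod ≠ (l.take j).prod

/-- `l` is a *listing* sequence of elements of `A`: it has `|G|` terms, all in `A`, and its
partial products `l₁ ⋯ l_k`, `1 ≤ k ≤ |G|`, are pairwise distinct. -/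
def IsListing (A : Set G) (l : List G) : Prop :=
  l.length = Nat.card G ∧ (∀ a ∈ l, a ∈ A) ∧ DistinctPartial 1 l

/-- There is a listing sequence from `A` with total product `1`; when `|G| ≥ 3` its partial
products form a Hamiltonian cycle of `Cay(G, A)`. -/
def HasClosedListing (A : Set G) : Prop := ∃ l : List G, IsListing A l ∧ l.prod = 1

/-- `A` is a nonempty symmetric generating set. -/
structure SymmGen (A : Set G) : Prop where
  nonempty : A.Nonempty
  inv_mem : ∀ a ∈ A, a⁻¹ ∈ A
  closure_eq : Subgroup.closure A = ⊤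

/-- For `S ⊆ K`: the Cayley graph `Cay(K, S)` has a Hamiltonian path from `1` to `d`. -/
def HamPathTo (S : Set G) (K : Subgroup G) (d : G) : Prop :=
  ∃ l : List G, l.length + 1 = Nat.card K ∧ (∀ s ∈ l, s ∈ S) ∧ DistinctPartial 0 l ∧ l.prod = d

/-- The elements of `A` that normalise `A`. -/
def normalising (A : Set G) : Set G := {a | a ∈ A ∧ ∀ c, c ∈ A ↔ a * c * a⁻¹ ∈ A}

/-- The elements of `A` whose whole conjugacy class lies in `A`. -/
def fullClass (A : Set G) : Set G := {a | a ∈ A ∧ ∀ g, g * a * g⁻¹ ∈ A}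

end Pool.Agent.Q128.Rapaport
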