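import Pool.Agent.Q128.Reeb46Defs

/-!
# A non-flat hyperbolic (4,6)-distribution germ with Reeb directions: the proofs
-/

open scoped Topology ContDiff
open VectorField Filter

namespace Pool.Agent.Q128.Reeb46

/-- The distribution `ker (dz₁ - y₁ dx₁) ∩ ker (dz₂ - y₂ dx₂ + (y₁² / 2) dx₁)`. -/
def engel (x : E6) : Submodule ℝ E6 where
  carrier := {v | v 2 - x 1 * v 0 = 0 ∧ v 5 - x 4 * v 3 + x 1 ^ 2 / 2 * v 0 = 0}
  add_mem' := by
    rintro a b ⟨h1, h2⟩ ⟨h3, h4⟩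
    constructor
    · simp only [Pi.add_apply]; linear_combination h1 + h3
    · simp only [Pi.add_apply]; linear_combination h2 + h4
  zero_mem' := by constructor <;> simp
  smul_mem' := by
    rintro c a ⟨h1, h2⟩
    constructor
    · simp only [Pi.smul_apply, smul_eq_mul]; linear_combination c * h1
    · simp only [Pi.smul_apply, smul_eq_mul]; linear_combination c * h2

theorem mem_engel {x v : E6} :
    v ∈ engel x ↔ v 2 - x 1 * v 0 = 0 ∧ v 5 - x 4 * v 3 + x 1 ^ 2 / 2 * v 0 = 0 := Iff.rfl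

theorem mem_flat {x v : E6} :
    v ∈ flat x ↔ v 2 - x 1 * v 0 = 0 ∧ v 5 - x 4 * v 3 = 0 := Iff.rfl

/-! ### Brackets of sections of `engel` -/

theorem fderiv_coord {V : E6 → E6} {x : E6} (hV : DifferentiableAt ℝ V x) (i : Fin 6) (v : E6) :
    fderiv ℝ (fun y => V y i) x v = fderiv ℝ V x v i := by
  have h := (hasFDerivAt_pi'.1 hV.hasFDerivAt i).fderiv
  rw [h]; rfl

theorem diff_coord {V : E6 → E6} {x : E6} (hV : DifferentiableAt ℝ V x) (i : Fin 6) :
    DifferentiableAt ℝ (fun y => V y i) x := differentiableAt_pi.1 hV i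

/-- The derivative of the function `y i * V j`. -/
theorem fderiv_mul_coord {V : E6 → E6} {x : E6} (hV : DifferentiableAt ℝ V x) (i j : Fin 6)
    (v : E6) :
    fderiv ℝ (fun y => y i * V y j) x v = v i * V x j + x i * fderiv ℝ V x v j := by
  have h1 : DifferentiableAt ℝ (fun y : E6 => y i) x := differentiableAt_pi.1 differentiableAt_id i
  rw [fderiv_fun_mul h1 (diff_coord hV j)]
  have h2 : fderiv ℝ (fun y : E6 => y i) x v = v i := by
    have := fderiv_coord (V := fun y => y) (x := x) differentiableAt_id i v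
    rw [this]; simp
  simp only [add_apply, smul_apply, smul_eq_mul, h2, fderiv_coord hV]
  ring

theorem fderiv_sq_mul_coord {V : E6 → E6} {x : E6} (hV : DifferentiableAt ℝ V x) (i j : Fin 6)
    (v : E6) :
    fderiv ℝ (fun y => y i ^ 2 / 2 * V y j) x v =
      x i * v i * V x j + x i ^ 2 / 2 * fderiv ℝ V x v j := by
  have h1 : DifferentiableAt ℝ (fun y : E6 => y i) x := differentiableAt_pi.1 differentiableAt_id i
  have e : (fun y : E6 => y i ^ 2 / 2 * V y j) = fun y => y i * (y i * V y j) * (1 / 2) := by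
    funext y; ring
  have h2 : fderiv ℝ (fun y : E6 => y i) x v = v i := by
    have := fderiv_coord (V := fun y => y) (x := x) differentiableAt_id i v
    rw [this]; simp
  have h3 : DifferentiableAt ℝ (fun y : E6 => y i * V y j) x := h1.fun_mul (diff_coord hV j)
  rw [e, fderiv_mul_const (h1.fun_mul h3), fderiv_fun_mul h1 h3]
  simp only [add_apply, smul_apply, smul_eq_mul, h2, fderiv_mul_coord hV]
  ring

/-- If a section `V` of `engel` near `x` is differentiable at `x`, its derivative satisfies the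
differentiated equations. -/
theorem fderiv_section {V : E6 → E6} {x : E6} (hV : DifferentiableAt ℝ V x)
    (hm : ∀ᶠ y in 𝓝 x, V y ∈ engel y) (v : E6) :
    fderiv ℝ V x v 2 = v 1 * V x 0 + x 1 * fderiv ℝ V x v 0 ∧
    fderiv ℝ V x v 5 = v 4 * V x 3 + x 4 * fderiv ℝ V x v 3 - x 1 * v 1 * V x 0
      - x 1 ^ 2 / 2 * fderiv ℝ V x v 0 := by
  constructor
  · have h : (fun y => V y 2) =ᶠ[𝓝 x] fun y => y 1 * V y 0 := by
      filter_upwards [hm] with y hy
      linear_combination hy.1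
    rw [← fderiv_coord hV, h.fderiv_eq, fderiv_mul_coord hV]
  · have h : (fun y => V y 5) =ᶠ[𝓝 x] fun y => y 4 * V y 3 - y 1 ^ 2 / 2 * V y 0 := by
      filter_upwards [hm] with y hy
      linear_combination hy.2
    have hc : ∀ i : Fin 6, DifferentiableAt ℝ (fun y : E6 => y i) x := fun i =>
      differentiableAt_pi.1 differentiableAt_id i
    rw [← fderiv_coord hV, h.fderiv_eq, fderiv_fun_sub ((hc 4).fun_mul (diff_coord hV 3))
      (DifferentiableAt.fun_mul (by fun_prop) (diff_coord hV 0))]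
    simp only [sub_apply]
    rw [fderiv_mul_coord hV, fderiv_sq_mul_coord hV]
    ring

/-- The bracket of two sections of `engel`. -/
theorem bracket_section {V W : E6 → E6} {x : E6} (hV : DifferentiableAt ℝ V x)
    (hW : DifferentiableAt ℝ W x) (hmV : ∀ᶠ y in 𝓝 x, V y ∈ engel y)
    (hmW : ∀ᶠ y in 𝓝 x, W y ∈ engel y) :
    lieBracket ℝ V W x 2 = x 1 * lieBracket ℝ V W x 0 + (V x 1 * W x 0 - V x 0 * W x 1) ∧
    lieBracket ℝ V W x 5 = x 4 * lieBracket ℝ V W x 3 - x 1 ^ 2 / 2 * lieBracket ℝ V W x 0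
      + (V x 4 * W x 3 - V x 3 * W x 4) - x 1 * (V x 1 * W x 0 - V x 0 * W x 1) := by
  obtain ⟨a1, a2⟩ := fderiv_section hV hmV (W x)
  obtain ⟨b1, b2⟩ := fderiv_section hW hmW (V x)
  simp only [lieBracket, Pi.sub_apply]
  constructor
  · rw [a1, b1]; ring
  · rw [a2, b2]; ring

/-- The derivative of a vector field annihilated by `dz₂ + y₁ dz₁ - (y₁² / 2) dx₁`. -/
theorem fderiv_mu {V : E6 → E6} {x : E6} (hV : DifferentiableAt ℝ V x)
    (hm : ∀ᶠ y in 𝓝 x, V y 5 + y 1 * V y 2 - y 1 ^ 2 / 2 * V y 0 = 0) (v : E6) :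
    fderiv ℝ V x v 5 = x 1 * v 1 * V x 0 + x 1 ^ 2 / 2 * fderiv ℝ V x v 0
      - (v 1 * V x 2 + x 1 * fderiv ℝ V x v 2) := by
  have h : (fun y => V y 5) =ᶠ[𝓝 x] fun y => y 1 ^ 2 / 2 * V y 0 - y 1 * V y 2 := by
    filter_upwards [hm] with y hy
    linear_combination hy
  have hc : ∀ i : Fin 6, DifferentiableAt ℝ (fun y : E6 => y i) x := fun i =>
    differentiableAt_pi.1 differentiableAt_id i
  rw [← fderiv_coord hV, h.fderiv_eq, fderiv_fun_sub
    (DifferentiableAt.fun_mul (by fun_prop) (diff_coord hV 0)) ((hc 1).fun_mul (diff_coord hV 2))]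
  simp only [sub_apply]
  rw [fderiv_mul_coord hV, fderiv_sq_mul_coord hV]

/-- The core of the argument: the Engel part of `engel` has no frame of Heisenberg type. -/
theorem core {p : E6} {X Y Z : E6 → E6}
    (hX : ∀ᶠ y in 𝓝 p, DifferentiableAt ℝ X y) (hY : ∀ᶠ y in 𝓝 p, DifferentiableAt ℝ Y y)
    (hZ : DifferentiableAt ℝ Z p)
    (mX : ∀ᶠ y in 𝓝 p, X y ∈ engel y) (mY : ∀ᶠ y in 𝓝 p, Y y ∈ engel y)
    (X3 : ∀ᶠ y in 𝓝 p, X y 3 = 0) (X4 : ∀ᶠ y in 𝓝 p, X y 4 = 0)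
    (Y3 : ∀ᶠ y in 𝓝 p, Y y 3 = 0) (Y4 : ∀ᶠ y in 𝓝 p, Y y 4 = 0)
    (hZb : ∀ᶠ y in 𝓝 p, Z y = lieBracket ℝ Y X y)
    (hXZ : lieBracket ℝ X Z p = 0) (hYZ : lieBracket ℝ Y Z p = 0)
    (hne : Y p 1 * X p 0 - Y p 0 * X p 1 ≠ 0) : False := by
  -- the equation of `Z`
  have hZ2 : ∀ᶠ y in 𝓝 p, Z y 2 = y 1 * Z y 0 + (Y y 1 * X y 0 - Y y 0 * X y 1) ∧
      Z y 5 + y 1 * Z y 2 - y 1 ^ 2 / 2 * Z y 0 = 0 := by
    filter_upwards [hX, hY, mX.eventually_nhds, mY.eventually_nhds, X3.eventually_nhds,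
      X4, Y3.eventually_nhds, Y4, hZb] with y h1 h2 h3 h4 h5 h6 h7 h8 h9
    obtain ⟨e1, e2⟩ := bracket_section h2 h1 h4 h3
    have e3 : lieBracket ℝ Y X y 3 = 0 := by
      have hx3 : fderiv ℝ X y (Y y) 3 = 0 := by
        have e : (fun y => X y 3) =ᶠ[𝓝 y] fun _ => 0 := h5
        rw [← fderiv_coord h1, e.fderiv_eq]; simp
      have hy3 : fderiv ℝ Y y (X y) 3 = 0 := by
        have e : (fun y => Y y 3) =ᶠ[𝓝 y] fun _ => 0 := h7
        rw [← fderiv_coord h2, e.fderiv_eq]; simp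
      simp only [lieBracket, Pi.sub_apply, hx3, hy3, sub_zero]
    rw [← h9] at e1 e2 e3
    refine ⟨e1, ?_⟩
    rw [e2, e1, e3, h5.self_of_nhds, h6, h7.self_of_nhds, h8]
    ring
  have key : ∀ U : E6 → E6, DifferentiableAt ℝ U p → (∀ᶠ y in 𝓝 p, U y ∈ engel y) →
      (∀ᶠ y in 𝓝 p, U y 3 = 0) → lieBracket ℝ U Z p = 0 → U p 1 = 0 := by
    intro U hU mU U3 hUZ
    have hmU : ∀ᶠ y in 𝓝 p, U y 5 + y 1 * U y 2 - y 1 ^ 2 / 2 * U y 0 = 0 := by
      filter_upwards [mU, U3] with y h1 h2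
      obtain ⟨a, b⟩ := h1
      rw [h2] at b
      linear_combination b + y 1 * a
    have d1 := fderiv_mu hU hmU (Z p)
    have d2 := fderiv_mu hZ (hZ2.mono fun y hy => hy.2) (U p)
    have c0 := congrFun hUZ 0
    have c2 := congrFun hUZ 2
    have c5 := congrFun hUZ 5
    simp only [lieBracket, Pi.sub_apply, Pi.zero_apply] at c0 c2 c5
    have z2 := hZ2.self_of_nhds.1
    have u2 := mU.self_of_nhds.1
    have : U p 1 * (Y p 1 * X p 0 - Y p 0 * X p 1) = 0 := by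
      linear_combination -c5 + d2 - d1 - p 1 * c2 + p 1 ^ 2 / 2 * c0 - U p 1 * z2 + Z p 1 * u2
    exact (mul_eq_zero.1 this).resolve_right hne
  have kX := key X hX.self_of_nhds mX X3 hXZ
  have kY := key Y hY.self_of_nhds mY Y3 hYZ
  apply hne
  rw [kX, kY]; ring

/-! ### Pointwise linear algebra -/

/-- Four independent vectors of `engel y`: the Laplace expansion of the determinant of their
coordinates `0, 1, 3, 4` does not vanish. -/
theorem laplace_ne_zero {y : E6} {a : Fin 4 → E6} (ha : LinearIndependent ℝ a)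
    (hm : ∀ i, a i ∈ engel y) :
    (a 0 1 * a 1 0 - a 0 0 * a 1 1) * (a 2 4 * a 3 3 - a 2 3 * a 3 4)
    - (a 0 1 * a 2 0 - a 0 0 * a 2 1) * (a 1 4 * a 3 3 - a 1 3 * a 3 4)
    + (a 0 1 * a 3 0 - a 0 0 * a 3 1) * (a 1 4 * a 2 3 - a 1 3 * a 2 4)
    + (a 1 1 * a 2 0 - a 1 0 * a 2 1) * (a 0 4 * a 3 3 - a 0 3 * a 3 4)
    - (a 1 1 * a 3 0 - a 1 0 * a 3 1) * (a 0 4 * a 2 3 - a 0 3 * a 2 4)
    + (a 2 1 * a 3 0 - a 2 0 * a 3 1) * (a 0 4 * a 1 3 - a 0 3 * a 1 4) ≠ 0 := by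
  intro h
  let M : Matrix (Fin 4) (Fin 4) ℝ := Matrix.of fun i j => a i (![1, 0, 4, 3] j)
  have hdet : M.det = 0 := by
    rw [← h, Matrix.det_succ_row_zero]
    simp only [Fin.sum_univ_succ, Matrix.det_fin_three, Matrix.submatrix_apply, M, Matrix.of_apply]
    simp [Fin.succAbove, Fin.succ, Fin.lt_def]
    ring
  obtain ⟨w, hw, hwM⟩ := Matrix.exists_vecMul_eq_zero_iff.2 hdet
  have hsum : ∑ i, w i • a i = 0 := by
    have hmem : ∑ i, w i • a i ∈ engel y :=
      Submodule.sum_mem _ fun i _ => Submodule.smul_mem _ _ (hm i)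
    have hj : ∀ j, (∑ i, w i • a i) (![1, 0, 4, 3] j) = 0 := by
      intro j
      have := congrFun hwM j
      simp only [Matrix.vecMul, dotProduct, M, Matrix.of_apply, Pi.zero_apply] at this
      simpa [Finset.sum_apply] using this
    set u := ∑ i, w i • a i
    have u1 : u 1 = 0 := hj 0
    have u0 : u 0 = 0 := hj 1
    have u4 : u 4 = 0 := hj 2
    have u3 : u 3 = 0 := hj 3
    obtain ⟨h1, h2⟩ := hmem
    have u2 : u 2 = 0 := by rw [u0] at h1; linear_combination h1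
    have u5 : u 5 = 0 := by rw [u0, u3] at h2; linear_combination h2
    funext i
    fin_cases i <;> simp_all
  have := Fintype.linearIndependent_iff.1 ha w hsum
  exact hw (funext this)

/-- Pointwise: `a, b` and `c, d` orthogonal for both curvature forms; if `a, b` project to
independent vectors in the `(x₁, y₁)`-plane then they project to `0` in the `(x₂, y₂)`-plane. -/
theorem split {y : E6} {a : Fin 4 → E6} (ha : LinearIndependent ℝ a)
    (hm : ∀ i, a i ∈ engel y)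
    (A02 : a 0 1 * a 2 0 - a 0 0 * a 2 1 = 0) (A03 : a 0 1 * a 3 0 - a 0 0 * a 3 1 = 0)
    (A12 : a 1 1 * a 2 0 - a 1 0 * a 2 1 = 0) (A13 : a 1 1 * a 3 0 - a 1 0 * a 3 1 = 0)
    (B02 : a 0 4 * a 2 3 - a 0 3 * a 2 4 = 0) (B03 : a 0 4 * a 3 3 - a 0 3 * a 3 4 = 0)
    (B12 : a 1 4 * a 2 3 - a 1 3 * a 2 4 = 0) (B13 : a 1 4 * a 3 3 - a 1 3 * a 3 4 = 0)
    (hne : a 0 1 * a 1 0 - a 0 0 * a 1 1 ≠ 0) :
    a 0 3 = 0 ∧ a 0 4 = 0 ∧ a 1 3 = 0 ∧ a 1 4 = 0 := by
  have hL := laplace_ne_zero ha hm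
  rw [A02, A03, A12, A13] at hL
  have c0 : a 2 0 = 0 := by
    have : a 2 0 * (a 0 1 * a 1 0 - a 0 0 * a 1 1) = 0 := by
      linear_combination a 1 0 * A02 - a 0 0 * A12
    exact (mul_eq_zero.1 this).resolve_right hne
  have c1 : a 2 1 = 0 := by
    have : a 2 1 * (a 0 1 * a 1 0 - a 0 0 * a 1 1) = 0 := by
      linear_combination a 1 1 * A02 - a 0 1 * A12
    exact (mul_eq_zero.1 this).resolve_right hne
  have hB : a 2 4 * a 3 3 - a 2 3 * a 3 4 ≠ 0 := by
    intro h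
    apply hL
    rw [h, c0, c1]; ring
  have r : ∀ i : Fin 4, a i 4 * a 2 3 - a i 3 * a 2 4 = 0 → a i 4 * a 3 3 - a i 3 * a 3 4 = 0 →
      a i 3 = 0 ∧ a i 4 = 0 := by
    intro i h2 h3
    constructor
    · have : a i 3 * (a 2 4 * a 3 3 - a 2 3 * a 3 4) = 0 := by
        linear_combination a 2 3 * h3 - a 3 3 * h2
      exact (mul_eq_zero.1 this).resolve_right hB
    · have : a i 4 * (a 2 4 * a 3 3 - a 2 3 * a 3 4) = 0 := by
        linear_combination a 2 4 * h3 - a 3 4 * h2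
      exact (mul_eq_zero.1 this).resolve_right hB
  obtain ⟨r1, r2⟩ := r 0 B02 B03
  obtain ⟨r3, r4⟩ := r 1 B12 B13
  exact ⟨r1, r2, r3, r4⟩

/-! ### The flat frame and its pullback -/

theorem invertible_fderiv (φ : OpenPartialHomeomorph E6 E6) (h1 : ContDiffOn ℝ ∞ φ φ.source)
    (h2 : ContDiffOn ℝ ∞ φ.symm φ.target) {y : E6} (hy : y ∈ φ.source) :
    (fderiv ℝ φ y).IsInvertible := by
  have d1 : DifferentiableAt ℝ φ y :=
    (h1.contDiffAt (φ.open_source.mem_nhds hy)).differentiableAt (by simp)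
  have hy' : φ y ∈ φ.target := φ.map_source hy
  have d2 : DifferentiableAt ℝ φ.symm (φ y) :=
    (h2.contDiffAt (φ.open_target.mem_nhds hy')).differentiableAt (by simp)
  have c1 : (fderiv ℝ φ.symm (φ y)).comp (fderiv ℝ φ y) = ContinuousLinearMap.id ℝ E6 := by
    rw [← fderiv_comp y d2 d1]
    have : (φ.symm ∘ φ) =ᶠ[𝓝 y] id := by
      filter_upwards [φ.open_source.mem_nhds hy] with z hz
      exact φ.left_inv hz
    rw [this.fderiv_eq, fderiv_id]
  have c2 : (fderiv ℝ φ y).comp (fderiv ℝ φ.symm (φ y)) = ContinuousLinearMap.id ℝ E6 := by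
    have hyy : φ.symm (φ y) = y := φ.left_inv hy
    have d1' : DifferentiableAt ℝ φ (φ.symm (φ y)) := by rwa [hyy]
    have h := fderiv_comp (φ y) d1' d2
    rw [hyy] at h
    rw [← h]
    have : (φ ∘ φ.symm) =ᶠ[𝓝 (φ y)] id := by
      filter_upwards [φ.open_target.mem_nhds hy'] with z hz
      exact φ.right_inv hz
    rw [this.fderiv_eq, fderiv_id]
  exact ⟨ContinuousLinearEquiv.equivOfInverse _ _
    (fun v => by simpa using DFunLike.congr_fun c1 v)
    (fun v => by simpa using DFunLike.congr_fun c2 v), rfl⟩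

theorem differentiableAt_pullback {φ : E6 → E6} {V : E6 → E6} {y : E6}
    (h : ContDiffAt ℝ ∞ φ y) (hi : (fderiv ℝ φ y).IsInvertible)
    (hV : DifferentiableAt ℝ V (φ y)) : DifferentiableAt ℝ (pullback ℝ φ V) y := by
  have h2 : ContDiffWithinAt ℝ 2 φ Set.univ y :=
    (h.of_le ENat.LEInfty.out).contDiffWithinAt
  have := DifferentiableWithinAt.pullbackWithin (𝕜 := ℝ) (f := φ) (V := V) (s := Set.univ)
    (t := Set.univ) (x := y) hV.differentiableWithinAt h2 (by simpa using hi) uniqueDiffOn_univ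
    (Set.mem_univ _) (Set.mapsTo_univ _ _)
  rwa [differentiableWithinAt_univ, pullbackWithin_univ] at this

/-- The flat frame. -/
def F : Fin 4 → E6 → E6 :=
  ![fun x => ![1, 0, x 1, 0, 0, 0], fun _ => ![0, 1, 0, 0, 0, 0],
    fun x => ![0, 0, 0, 1, 0, x 4], fun _ => ![0, 0, 0, 0, 1, 0]]

/-- The vector field `∂/∂z₁`. -/
def G0 : E6 → E6 := fun _ => ![0, 0, 1, 0, 0, 0]

/-- The vector field `∂/∂z₂`. -/
def G1 : E6 → E6 := fun _ => ![0, 0, 0, 0, 0, 1]

theorem F_diff (i : Fin 4) : Differentiable ℝ (F i) := by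
  rw [differentiable_pi]
  intro j
  fin_cases i <;> fin_cases j <;> simp [F] <;> fun_prop

theorem F_mem (i : Fin 4) (x : E6) : F i x ∈ flat x := by
  rw [mem_flat]
  fin_cases i <;> simp [F]

theorem fderiv_apply1 (x v : E6) (j : Fin 6) : fderiv ℝ (fun y : E6 => y j) x v = v j := by
  have := fderiv_coord (V := fun y => y) (x := x) differentiableAt_id j v
  rw [this]; simp

theorem fderiv_F0 (x v : E6) : fderiv ℝ (F 0) x v = ![0, 0, v 1, 0, 0, 0] := by
  funext j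
  rw [← fderiv_coord (F_diff 0 x)]
  fin_cases j <;> simp [F, fderiv_apply1]

theorem fderiv_F1 (x v : E6) : fderiv ℝ (F 1) x v = 0 := by
  simp [F]

theorem fderiv_F2 (x v : E6) : fderiv ℝ (F 2) x v = ![0, 0, 0, 0, 0, v 4] := by
  funext j
  rw [← fderiv_coord (F_diff 2 x)]
  fin_cases j <;> simp [F, fderiv_apply1]

theorem fderiv_F3 (x v : E6) : fderiv ℝ (F 3) x v = 0 := by
  simp [F]

theorem fderiv_G0 (x v : E6) : fderiv ℝ G0 x v = 0 := by
  unfold G0; simp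

theorem fderiv_G1 (x v : E6) : fderiv ℝ G1 x v = 0 := by
  unfold G1; simp

theorem F_li (x : E6) : LinearIndependent ℝ (fun i => F i x) := by
  rw [Fintype.linearIndependent_iff]
  intro g hg i
  simp only [Fin.sum_univ_four, F] at hg
  have h0 := congrFun hg 0
  have h1 := congrFun hg 1
  have h3 := congrFun hg 3
  have h4 := congrFun hg 4
  simp at h0 h1 h3 h4
  fin_cases i <;> simp_all

theorem bracket_F : lieBracket ℝ (F 1) (F 0) = G0 ∧ lieBracket ℝ (F 3) (F 2) = G1 ∧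
    lieBracket ℝ (F 0) (F 2) = 0 ∧ lieBracket ℝ (F 0) (F 3) = 0 ∧
    lieBracket ℝ (F 1) (F 2) = 0 ∧ lieBracket ℝ (F 1) (F 3) = 0 ∧
    lieBracket ℝ (F 0) G0 = 0 ∧ lieBracket ℝ (F 1) G0 = 0 ∧
    lieBracket ℝ (F 2) G1 = 0 ∧ lieBracket ℝ (F 3) G1 = 0 := by
  refine ⟨?_, ?_, ?_, ?_, ?_, ?_, ?_, ?_, ?_, ?_⟩ <;> funext x <;>
    simp only [lieBracket, fderiv_F0, fderiv_F1, fderiv_F2, fderiv_F3, fderiv_G0, fderiv_G1] <;>
    funext j <;> fin_cases j <;> simp [F, G0, G1]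

/-- Four pulled back vector fields which would exist near `p` if the germ were flat, with the
first two spanning the Engel part at `p`: contradiction. -/
theorem no_frame {p : E6} {X : Fin 4 → E6 → E6} {Z : E6 → E6}
    (hX : ∀ i, ∀ᶠ y in 𝓝 p, DifferentiableAt ℝ (X i) y) (hZ : DifferentiableAt ℝ Z p)
    (mX : ∀ i, ∀ᶠ y in 𝓝 p, X i y ∈ engel y)
    (li : ∀ᶠ y in 𝓝 p, LinearIndependent ℝ (fun i => X i y))
    (b02 : ∀ᶠ y in 𝓝 p, lieBracket ℝ (X 0) (X 2) y = 0)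
    (b03 : ∀ᶠ y in 𝓝 p, lieBracket ℝ (X 0) (X 3) y = 0)
    (b12 : ∀ᶠ y in 𝓝 p, lieBracket ℝ (X 1) (X 2) y = 0)
    (b13 : ∀ᶠ y in 𝓝 p, lieBracket ℝ (X 1) (X 3) y = 0)
    (hZb : ∀ᶠ y in 𝓝 p, Z y = lieBracket ℝ (X 1) (X 0) y)
    (h0Z : lieBracket ℝ (X 0) Z p = 0) (h1Z : lieBracket ℝ (X 1) Z p = 0)
    (hne : X 0 p 1 * X 1 p 0 - X 0 p 0 * X 1 p 1 ≠ 0) : False := by
  have hcont : ∀ᶠ y in 𝓝 p, X 0 y 1 * X 1 y 0 - X 0 y 0 * X 1 y 1 ≠ 0 := by
    have c : ∀ i j, ContinuousAt (fun y => X i y j) p := fun i j =>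
      (diff_coord (hX i).self_of_nhds j).continuousAt
    exact (((c 0 1).mul (c 1 0)).sub ((c 0 0).mul (c 1 1))).eventually_ne hne
  have hb : ∀ i j, (∀ᶠ y in 𝓝 p, lieBracket ℝ (X i) (X j) y = 0) → ∀ᶠ y in 𝓝 p,
      X i y 1 * X j y 0 - X i y 0 * X j y 1 = 0 ∧ X i y 4 * X j y 3 - X i y 3 * X j y 4 = 0 := by
    intro i j h
    filter_upwards [h, hX i, hX j, (mX i).eventually_nhds, (mX j).eventually_nhds] with
      y h1 h2 h3 h4 h5
    obtain ⟨e1, e2⟩ := bracket_section h2 h3 h4 h5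
    rw [h1] at e1 e2
    simp only [Pi.zero_apply, mul_zero, zero_add, sub_zero] at e1 e2
    refine ⟨e1.symm, ?_⟩
    rw [← e1] at e2
    linear_combination -e2
  have hs : ∀ᶠ y in 𝓝 p, X 0 y 3 = 0 ∧ X 0 y 4 = 0 ∧ X 1 y 3 = 0 ∧ X 1 y 4 = 0 := by
    filter_upwards [li, mX 0, mX 1, mX 2, mX 3, hb 0 2 b02, hb 0 3 b03, hb 1 2 b12, hb 1 3 b13,
      hcont] with y h m0 m1 m2 m3 k02 k03 k12 k13 hn
    refine split (y := y) h ?_ k02.1 k03.1 k12.1 k13.1 k02.2 k03.2 k12.2 k13.2 hn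
    intro i
    fin_cases i
    exacts [m0, m1, m2, m3]
  refine core (p := p) (X := X 0) (Y := X 1) (Z := Z) (hX 0) (hX 1) hZ (mX 0) (mX 1)
    (hs.mono fun y h => h.1) (hs.mono fun y h => h.2.1) (hs.mono fun y h => h.2.2.1)
    (hs.mono fun y h => h.2.2.2) hZb h0Z h1Z ?_
  intro h
  apply hne
  linear_combination -h

theorem not_flat (p p' : E6) : ¬ DiffeomorphicGerms engel p flat p' := by
  rintro ⟨φ, hp, -, hs, ht, hD⟩
  have hsrc : ∀ᶠ y in 𝓝 p, y ∈ φ.source := φ.open_source.mem_nhds hp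
  have hsm : ∀ᶠ y in 𝓝 p, ContDiffAt ℝ ∞ φ y := by
    filter_upwards [hsrc] with y hy using hs.contDiffAt (φ.open_source.mem_nhds hy)
  have hinv : ∀ᶠ y in 𝓝 p, (fderiv ℝ φ y).IsInvertible := by
    filter_upwards [hsrc] with y hy using invertible_fderiv φ hs ht hy
  have pd : ∀ V : E6 → E6, Differentiable ℝ V →
      ∀ᶠ y in 𝓝 p, DifferentiableAt ℝ (pullback ℝ φ V) y := by
    intro V hV
    filter_upwards [hsm, hinv] with y h1 h2 using differentiableAt_pullback h1 h2 (hV _)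
  have pb : ∀ V W : E6 → E6, Differentiable ℝ V → Differentiable ℝ W →
      ∀ᶠ y in 𝓝 p, lieBracket ℝ (pullback ℝ φ V) (pullback ℝ φ W) y =
        pullback ℝ φ (lieBracket ℝ V W) y := by
    intro V W hV hW
    filter_upwards [hsm] with y h1
    exact (pullback_lieBracket (n := ∞) (by simpa using ENat.LEInfty.out) h1 (hV _) (hW _)).symm
  have p0 : ∀ y, pullback ℝ φ (0 : E6 → E6) y = 0 := by intro y; simp [pullback]
  let X : Fin 4 → E6 → E6 := fun i => pullback ℝ φ (F i)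
  have hX : ∀ i, ∀ᶠ y in 𝓝 p, DifferentiableAt ℝ (X i) y := fun i => pd _ (F_diff i)
  have mX : ∀ i, ∀ᶠ y in 𝓝 p, X i y ∈ engel y := by
    intro i
    filter_upwards [hinv, hD] with y h1 h2
    have h3 : F i (φ y) ∈ (engel y).map (fderiv ℝ φ y : E6 →ₗ[ℝ] E6) := by
      rw [h2]; exact F_mem i _
    obtain ⟨v, hv, hv2⟩ := h3
    obtain ⟨M, hM⟩ := h1
    have : X i y = v := by
      show pullback ℝ φ (F i) y = v
      rw [pullback_eq_of_fderiv_eq hM, ← hv2, ← hM]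
      simp
    rw [this]; exact hv
  have li : ∀ᶠ y in 𝓝 p, LinearIndependent ℝ (fun i => X i y) := by
    filter_upwards [hinv] with y h1
    obtain ⟨M, hM⟩ := h1
    have : (fun i => X i y) = fun i => M.symm (F i (φ y)) := by
      funext i
      exact pullback_eq_of_fderiv_eq hM _
    rw [this]
    exact (F_li (φ y)).map' (M.symm : E6 →ₗ[ℝ] E6) (LinearMap.ker_eq_bot.2 M.symm.injective)
  obtain ⟨f10, f32, f02, f03, f12, f13, g0, g1, g2, g3⟩ := bracket_F
  have G0d : Differentiable ℝ G0 := by unfold G0; fun_prop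
  have G1d : Differentiable ℝ G1 := by unfold G1; fun_prop
  have zero : ∀ i j, lieBracket ℝ (F i) (F j) = 0 →
      ∀ᶠ y in 𝓝 p, lieBracket ℝ (X i) (X j) y = 0 := by
    intro i j h
    filter_upwards [pb (F i) (F j) (F_diff i) (F_diff j)] with y hy
    rw [hy, h, p0]
  have swap : ∀ i j, (∀ᶠ y in 𝓝 p, lieBracket ℝ (X i) (X j) y = 0) →
      ∀ᶠ y in 𝓝 p, lieBracket ℝ (X j) (X i) y = 0 := by
    intro i j h
    filter_upwards [h] with y hy
    have e : lieBracket ℝ (X j) (X i) y = - lieBracket ℝ (X i) (X j) y := by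
      simp only [lieBracket]; abel
    rw [e, hy, neg_zero]
  have n02 := zero 0 2 f02
  have n03 := zero 0 3 f03
  have n12 := zero 1 2 f12
  have n13 := zero 1 3 f13
  have m02 := swap _ _ n02
  have m03 := swap _ _ n03
  have m12 := swap _ _ n12
  have m13 := swap _ _ n13
  have hm : ∀ i, X i p ∈ engel p := fun i => (mX i).self_of_nhds
  by_cases h01 : X 0 p 1 * X 1 p 0 - X 0 p 0 * X 1 p 1 = 0
  · by_cases h23 : X 2 p 1 * X 3 p 0 - X 2 p 0 * X 3 p 1 = 0
    · have hL := laplace_ne_zero li.self_of_nhds hm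
      have hb : ∀ i j, (∀ᶠ y in 𝓝 p, lieBracket ℝ (X i) (X j) y = 0) →
          X i p 1 * X j p 0 - X i p 0 * X j p 1 = 0 := by
        intro i j h
        obtain ⟨e1, -⟩ := bracket_section (hX i).self_of_nhds (hX j).self_of_nhds (mX i) (mX j)
        rw [h.self_of_nhds] at e1
        simp only [Pi.zero_apply, mul_zero, zero_add] at e1
        exact e1.symm
      apply hL
      rw [h01, h23, hb 0 2 n02, hb 0 3 n03, hb 1 2 n12, hb 1 3 n13]
      ring
    · -- exchange the two factors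
      refine no_frame (p := p) (X := ![X 2, X 3, X 0, X 1]) (Z := pullback ℝ φ G1) ?_
        (pd G1 G1d).self_of_nhds ?_ ?_ m02 m12 m03 m13 ?_ ?_ ?_ h23
      · intro i; fin_cases i
        exacts [hX 2, hX 3, hX 0, hX 1]
      · intro i; fin_cases i
        exacts [mX 2, mX 3, mX 0, mX 1]
      · filter_upwards [li] with y hy
        have := hy.comp ![2, 3, 0, 1] (by decide)
        convert this using 1
        funext i
        fin_cases i <;> rfl
      · filter_upwards [pb (F 3) (F 2) (F_diff 3) (F_diff 2)] with y hy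
        rw [f32] at hy
        exact hy.symm
      · have := (pb (F 2) G1 (F_diff 2) G1d).self_of_nhds
        rw [g2, p0] at this
        exact this
      · have := (pb (F 3) G1 (F_diff 3) G1d).self_of_nhds
        rw [g3, p0] at this
        exact this
  · refine no_frame (p := p) (X := X) (Z := pullback ℝ φ G0) hX
      (pd G0 G0d).self_of_nhds mX li n02 n03 n12 n13 ?_ ?_ ?_ h01
    · filter_upwards [pb (F 1) (F 0) (F_diff 1) (F_diff 0)] with y hy
      rw [f10] at hy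
      exact hy.symm
    · have := (pb (F 0) G0 (F_diff 0) G0d).self_of_nhds
      rw [g0, p0] at this
      exact this
    · have := (pb (F 1) G0 (F_diff 1) G0d).self_of_nhds
      rw [g1, p0] at this
      exact this

/-! ### The example has the required properties -/

/-- A global frame of `engel`. -/
noncomputable def E : Fin 4 → E6 → E6 :=
  ![fun x => ![1, 0, x 1, 0, 0, -(x 1 ^ 2 / 2)], fun _ => ![0, 1, 0, 0, 0, 0],
    fun x => ![0, 0, 0, 1, 0, x 4], fun _ => ![0, 0, 0, 0, 1, 0]]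

theorem E_smooth (i : Fin 4) : ContDiff ℝ ∞ (E i) := by
  rw [contDiff_pi]
  intro j
  fin_cases i <;> fin_cases j <;> simp [E] <;> fun_prop

theorem E_li (x : E6) : LinearIndependent ℝ (fun i => E i x) := by
  rw [Fintype.linearIndependent_iff]
  intro g hg i
  simp only [Fin.sum_univ_four, E] at hg
  have h0 := congrFun hg 0
  have h1 := congrFun hg 1
  have h3 := congrFun hg 3
  have h4 := congrFun hg 4
  simp at h0 h1 h3 h4
  fin_cases i <;> simp_all

theorem E_span (x : E6) : Submodule.span ℝ (Set.range fun i => E i x) = engel x := by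
  apply le_antisymm
  · rw [Submodule.span_le]
    rintro _ ⟨i, rfl⟩
    show E i x ∈ engel x
    rw [mem_engel]
    fin_cases i <;> simp [E]
  · intro v hv
    rw [mem_engel] at hv
    rw [Submodule.mem_span_range_iff_exists_fun]
    refine ⟨![v 0, v 1, v 3, v 4], ?_⟩
    simp only [Fin.sum_univ_four, E]
    funext j
    fin_cases j <;> simp
    · linear_combination -hv.1
    · linear_combination -hv.2

theorem engel_frame (p : E6) : IsFrameNear engel p E :=
  Eventually.of_forall fun x => ⟨fun i => (E_smooth i).contDiffAt, E_li x, E_span x⟩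

/-- A covector which vanishes on `engel x`. -/
theorem covector {x : E6} {ψ : E6 →L[ℝ] ℝ} (h : ∀ v ∈ engel x, ψ v = 0) (v : E6) :
    ψ v = ψ ![0, 0, 1, 0, 0, 0] * (v 2 - x 1 * v 0)
      + ψ ![0, 0, 0, 0, 0, 1] * (v 5 - x 4 * v 3 + x 1 ^ 2 / 2 * v 0) := by
  have hz : ψ (v - ((v 2 - x 1 * v 0) • ![0, 0, 1, 0, 0, 0]
      + (v 5 - x 4 * v 3 + x 1 ^ 2 / 2 * v 0) • ![0, 0, 0, 0, 0, 1])) = 0 := by
    apply h
    rw [mem_engel]
    constructor
    · simp
    · simp; ring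
  rw [map_sub, map_add, map_smul, map_smul, smul_eq_mul, smul_eq_mul] at hz
  linear_combination hz

theorem engel_hyperbolicAt (x : E6) : IsHyperbolicAt engel x := by
  intro X hX ψ hψ hann
  have hsm := hX.self_of_nhds.1
  have hli := hX.self_of_nhds.2.1
  have hmem : ∀ i, ∀ᶠ y in 𝓝 x, X i y ∈ engel y := by
    intro i
    filter_upwards [hX] with y hy
    rw [← hy.2.2]
    exact Submodule.subset_span ⟨i, rfl⟩
  have hd : ∀ i, DifferentiableAt ℝ (X i) x := fun i => (hsm i).differentiableAt (by simp)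
  have hL := laplace_ne_zero hli fun i => (hmem i).self_of_nhds
  -- value of a covector on a bracket
  have hv : ∀ η : E6 →L[ℝ] ℝ, (∀ v ∈ engel x, η v = 0) → ∀ i j,
      η (lieBracket ℝ (X i) (X j) x) =
        (η ![0, 0, 1, 0, 0, 0] - x 1 * η ![0, 0, 0, 0, 0, 1])
          * (X i x 1 * X j x 0 - X i x 0 * X j x 1)
        + η ![0, 0, 0, 0, 0, 1] * (X i x 4 * X j x 3 - X i x 3 * X j x 4) := by
    intro η hη i j
    obtain ⟨e1, e2⟩ := bracket_section (hd i) (hd j) (hmem i) (hmem j)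
    rw [covector hη, e1, e2]
    ring
  have hq : ∀ η : E6 →L[ℝ] ℝ, (∀ v ∈ engel x, η v = 0) → qValue X x η =
      2 * ((η ![0, 0, 1, 0, 0, 0] - x 1 * η ![0, 0, 0, 0, 0, 1]) * η ![0, 0, 0, 0, 0, 1]) *
      ((X 0 x 1 * X 1 x 0 - X 0 x 0 * X 1 x 1) * (X 2 x 4 * X 3 x 3 - X 2 x 3 * X 3 x 4)
    - (X 0 x 1 * X 2 x 0 - X 0 x 0 * X 2 x 1) * (X 1 x 4 * X 3 x 3 - X 1 x 3 * X 3 x 4)
    + (X 0 x 1 * X 3 x 0 - X 0 x 0 * X 3 x 1) * (X 1 x 4 * X 2 x 3 - X 1 x 3 * X 2 x 4)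
    + (X 1 x 1 * X 2 x 0 - X 1 x 0 * X 2 x 1) * (X 0 x 4 * X 3 x 3 - X 0 x 3 * X 3 x 4)
    - (X 1 x 1 * X 3 x 0 - X 1 x 0 * X 3 x 1) * (X 0 x 4 * X 2 x 3 - X 0 x 3 * X 2 x 4)
    + (X 2 x 1 * X 3 x 0 - X 2 x 0 * X 3 x 1) * (X 0 x 4 * X 1 x 3 - X 0 x 3 * X 1 x 4)) := by
    intro η hη
    simp only [qValue, hv η hη]
    ring
  have hsum : ∀ v ∈ engel x, (ψ 0 + ψ 1) v = 0 := by
    intro v hv
    rw [add_apply, hann 0 v hv, hann 1 v hv, add_zero]
  rw [qPolar, hq _ (hann 0), hq _ (hann 1), hq _ hsum]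
  simp only [add_apply]
  set L := (X 0 x 1 * X 1 x 0 - X 0 x 0 * X 1 x 1) * (X 2 x 4 * X 3 x 3 - X 2 x 3 * X 3 x 4)
    - (X 0 x 1 * X 2 x 0 - X 0 x 0 * X 2 x 1) * (X 1 x 4 * X 3 x 3 - X 1 x 3 * X 3 x 4)
    + (X 0 x 1 * X 3 x 0 - X 0 x 0 * X 3 x 1) * (X 1 x 4 * X 2 x 3 - X 1 x 3 * X 2 x 4)
    + (X 1 x 1 * X 2 x 0 - X 1 x 0 * X 2 x 1) * (X 0 x 4 * X 3 x 3 - X 0 x 3 * X 3 x 4)
    - (X 1 x 1 * X 3 x 0 - X 1 x 0 * X 3 x 1) * (X 0 x 4 * X 2 x 3 - X 0 x 3 * X 2 x 4)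
    + (X 2 x 1 * X 3 x 0 - X 2 x 0 * X 3 x 1) * (X 0 x 4 * X 1 x 3 - X 0 x 3 * X 1 x 4)
    with hLdef
  set a₀ := ψ 0 ![0, 0, 1, 0, 0, 0] with ha₀
  set b₀ := ψ 0 ![0, 0, 0, 0, 0, 1] with hb₀
  set a₁ := ψ 1 ![0, 0, 1, 0, 0, 0] with ha₁
  set b₁ := ψ 1 ![0, 0, 0, 0, 0, 1] with hb₁
  have hdet : a₀ * b₁ - a₁ * b₀ ≠ 0 := by
    intro h0
    have h1 : b₁ • ψ 0 + (-b₀) • ψ 1 = 0 := by
      ext1 v
      simp only [add_apply, smul_apply, smul_eq_mul, zero_apply]
      rw [covector (hann 0) v, covector (hann 1) v, ← ha₀, ← hb₀, ← ha₁, ← hb₁]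
      linear_combination (v 2 - x 1 * v 0) * h0
    have h2 : a₁ • ψ 0 + (-a₀) • ψ 1 = 0 := by
      ext1 v
      simp only [add_apply, smul_apply, smul_eq_mul, zero_apply]
      rw [covector (hann 0) v, covector (hann 1) v, ← ha₀, ← hb₀, ← ha₁, ← hb₁]
      linear_combination -(v 5 - x 4 * v 3 + x 1 ^ 2 / 2 * v 0) * h0
    have k := Fintype.linearIndependent_iff.1 hψ
    have k1 := k ![b₁, -b₀] (by rw [Fin.sum_univ_two]; exact h1)
    have k2 := k ![a₁, -a₀] (by rw [Fin.sum_univ_two]; exact h2)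
    have z1 : b₀ = 0 := by simpa using k1 1
    have z2 : a₀ = 0 := by simpa using k2 1
    have : ψ 0 = 0 := by
      ext1 v
      rw [covector (hann 0) v, ← ha₀, ← hb₀, z1, z2]
      simp
    exact hψ.ne_zero 0 this
  have e : 2 * ((a₀ - x 1 * b₀) * b₀) * L * (2 * ((a₁ - x 1 * b₁) * b₁) * L)
      - ((2 * ((a₀ + a₁ - x 1 * (b₀ + b₁)) * (b₀ + b₁)) * L - 2 * ((a₀ - x 1 * b₀) * b₀) * L
        - 2 * ((a₁ - x 1 * b₁) * b₁) * L) / 2) ^ 2 = - (L * (a₀ * b₁ - a₁ * b₀)) ^ 2 := by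
    ring
  rw [e]
  have : 0 < (L * (a₀ * b₁ - a₁ * b₀)) ^ 2 := by
    have := mul_ne_zero hL hdet
    positivity
  linarith

/-- The two 1-forms `λ₁`, `λ₂`. -/
noncomputable def lam : Fin 2 → E6 → (E6 →L[ℝ] ℝ) :=
  ![fun x => ContinuousLinearMap.proj 2 - x 1 • ContinuousLinearMap.proj 0,
    fun x => ContinuousLinearMap.proj 5 - x 4 • ContinuousLinearMap.proj 3
      + (x 1 ^ 2 / 2) • ContinuousLinearMap.proj 0]

theorem lam_smooth (i : Fin 2) : ContDiff ℝ ∞ (lam i) := by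
  fin_cases i <;> simp [lam] <;> fun_prop

theorem lam0 (x v : E6) : lam 0 x v = v 2 - x 1 * v 0 := by simp [lam]

theorem lam1 (x v : E6) : lam 1 x v = v 5 - x 4 * v 3 + x 1 ^ 2 / 2 * v 0 := by simp [lam]

theorem fderiv_lam (i : Fin 2) (x u v : E6) :
    fderiv ℝ (lam i) x u v = fderiv ℝ (fun y => lam i y v) x u := by
  have h : DifferentiableAt ℝ (lam i) x := ((lam_smooth i).differentiable (by simp)).differentiableAt
  rw [fderiv_clm_apply h (differentiableAt_const v)]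
  simp

theorem fderiv_lam0 (x u v : E6) : fderiv ℝ (lam 0) x u v = -(u 1 * v 0) := by
  rw [fderiv_lam]
  have e : (fun y => lam 0 y v) = fun y => v 2 - y 1 * v 0 := by funext y; exact lam0 y v
  rw [e, fderiv_const_sub, fderiv_mul_const (by fun_prop)]
  simp [fderiv_apply1]
  ring

theorem fderiv_lam1 (x u v : E6) :
    fderiv ℝ (lam 1) x u v = -(u 4 * v 3) + x 1 * u 1 * v 0 := by
  rw [fderiv_lam]
  have e : (fun y => lam 1 y v) = fun y => (v 5 - y 4 * v 3) + y 1 ^ 2 / 2 * v 0 := by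
    funext y; exact lam1 y v
  have h := fderiv_sq_mul_coord (V := fun _ => v) (x := x) (differentiableAt_const v) 1 0 u
  rw [e, fderiv_fun_add (by fun_prop) (by fun_prop), fderiv_const_sub,
    fderiv_mul_const (by fun_prop)]
  simp only [add_apply, h]
  simp [fderiv_apply1]
  ring

theorem engel_reeb (p : E6) : AdmitsReebDirections engel p := by
  refine ⟨lam, ![G0, G1], Eventually.of_forall fun x => ⟨fun i => (lam_smooth i).contDiffAt,
    ?_, ?_, ?_, ?_, ?_, ?_⟩⟩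
  · intro i
    fin_cases i
    · exact contDiffAt_const
    · exact contDiffAt_const
  · intro v
    rw [mem_engel, Fin.forall_fin_two, lam0, lam1]
  · have hG : (fun i => (![G0, G1] : Fin 2 → E6 → E6) i x) = ![G0 x, G1 x] := by
      funext i; fin_cases i <;> rfl
    rw [hG, Matrix.range_cons, Matrix.range_cons, Matrix.range_empty, Set.union_empty]
    constructor
    · rw [Submodule.disjoint_def]
      intro v hv hv2
      rw [Set.singleton_union, Submodule.mem_span_pair] at hv2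
      obtain ⟨a, b, rfl⟩ := hv2
      rw [mem_engel] at hv
      obtain ⟨h1, h2⟩ := hv
      simp [G0, G1] at h1 h2
      rw [h1, h2]; simp
    · rw [codisjoint_iff, eq_top_iff]
      intro v _
      rw [Submodule.mem_sup]
      refine ⟨v - ((v 2 - x 1 * v 0) • G0 x + (v 5 - x 4 * v 3 + x 1 ^ 2 / 2 * v 0) • G1 x), ?_,
        (v 2 - x 1 * v 0) • G0 x + (v 5 - x 4 * v 3 + x 1 ^ 2 / 2 * v 0) • G1 x, ?_, by simp⟩
      · rw [mem_engel]
        constructor
        · simp [G0, G1]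
        · simp [G0, G1]; ring
      · rw [Set.singleton_union, Submodule.mem_span_pair]
        exact ⟨_, _, rfl⟩
  · intro i j
    fin_cases i <;> fin_cases j <;> simp [lam, G0, G1]
  · intro i j v hv
    rw [dForm]
    fin_cases j
    · show fderiv ℝ (lam 0) x _ v - fderiv ℝ (lam 0) x v _ = 0
      rw [fderiv_lam0, fderiv_lam0]
      fin_cases i <;> simp [G0, G1]
    · show fderiv ℝ (lam 1) x _ v - fderiv ℝ (lam 1) x v _ = 0
      rw [fderiv_lam1, fderiv_lam1]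
      fin_cases i <;> simp [G0, G1]
  · show lieBracket ℝ G0 G1 x = 0
    simp [lieBracket, fderiv_G0, fderiv_G1]

end Pool.Agent.Q128.Reeb46
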