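import Mathlib

/-!
# (4,6)-distribution germs, hyperbolic germs and Reeb directions: the definitions

Everything is on `ℝ⁶`, with coordinates `(x₁, y₁, z₁, x₂, y₂, z₂)` numbered `0, …, 5`.
-/

open scoped Topology ContDiff
open VectorField Filter

namespace Pool.Agent.Q128.Reeb46

/-- The space `ℝ⁶`. -/
abbrev E6 := Fin 6 → ℝ

/-- The vector fields `X 0, …, X 3` form a smooth local frame near `p` of the family of
subspaces `D`: near `p` they are smooth, and at each point they are a basis of the subspace. -/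
def IsFrameNear (D : E6 → Submodule ℝ E6) (p : E6) (X : Fin 4 → E6 → E6) : Prop :=
  ∀ᶠ x in 𝓝 p, (∀ i, ContDiffAt ℝ ∞ (X i) x) ∧ LinearIndependent ℝ (fun i => X i x) ∧
    Submodule.span ℝ (Set.range fun i => X i x) = D x

/-- The germ of `D` at `p` is the germ of a `(4,6)`-distribution: near `p`, the family `D` is a
smooth rank-4 subbundle of the tangent bundle of `ℝ⁶`. -/
def IsDistributionGerm (D : E6 → Submodule ℝ E6) (p : E6) : Prop :=
  ∃ X : Fin 4 → E6 → E6, IsFrameNear D p X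

/-- The value of `(ψ ∘ L) ∧ (ψ ∘ L)` on `(X 0, X 1, X 2, X 3)` at `x`, where `L` is the
curvature `L (u, v) = [u, v] mod D` of the distribution framed by `X`, and `ψ` is a covector at
`x` which vanishes on `D x`. -/
noncomputable def qValue (X : Fin 4 → E6 → E6) (x : E6) (ψ : E6 →L[ℝ] ℝ) : ℝ :=
  2 * (ψ (lieBracket ℝ (X 0) (X 1) x) * ψ (lieBracket ℝ (X 2) (X 3) x)
    - ψ (lieBracket ℝ (X 0) (X 2) x) * ψ (lieBracket ℝ (X 1) (X 3) x)
    + ψ (lieBracket ℝ (X 0) (X 3) x) * ψ (lieBracket ℝ (X 1) (X 2) x))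

/-- The polar form of the quadratic form `qValue X x`. -/
noncomputable def qPolar (X : Fin 4 → E6 → E6) (x : E6) (ψ₁ ψ₂ : E6 →L[ℝ] ℝ) : ℝ :=
  (qValue X x (ψ₁ + ψ₂) - qValue X x ψ₁ - qValue X x ψ₂) / 2

/-- `D` is hyperbolic at `x`: for every local frame of `D` near `x` (which fixes a volume form on
`D x`) and every basis of the plane of covectors at `x` which vanish on `D x`, the `2 × 2` matrix
of the quadratic form `q_D` has negative determinant. -/
def IsHyperbolicAt (D : E6 → Submodule ℝ E6) (x : E6) : Prop :=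
  ∀ X : Fin 4 → E6 → E6, IsFrameNear D x X →
    ∀ ψ : Fin 2 → (E6 →L[ℝ] ℝ), LinearIndependent ℝ ψ → (∀ i, ∀ v ∈ D x, ψ i v = 0) →
      qValue X x (ψ 0) * qValue X x (ψ 1) - qPolar X x (ψ 0) (ψ 1) ^ 2 < 0

/-- A hyperbolic `(4,6)`-distribution germ at `p`. -/
def IsHyperbolicGerm (D : E6 → Submodule ℝ E6) (p : E6) : Prop :=
  IsDistributionGerm D p ∧ ∀ᶠ x in 𝓝 p, IsHyperbolicAt D x

/-- The exterior derivative at `x` of the 1-form `l`, evaluated on `u` and `v`. -/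
noncomputable def dForm (l : E6 → (E6 →L[ℝ] ℝ)) (x u v : E6) : ℝ :=
  fderiv ℝ l x u v - fderiv ℝ l x v u

/-- The germ of `D` at `p` admits Reeb directions: near `p` there are smooth 1-forms `l 0`, `l 1`
and smooth vector fields `Z 0`, `Z 1` with `D = ker (l 0) ∩ ker (l 1)` and
(i) `T ℝ⁶ = D ⊕ ⟨Z 0, Z 1⟩`; (ii) `l i (Z j) = δ i j`; (iii) the contraction of `d (l j)` with
`Z i` vanishes on `D`; (iv) `[Z 0, Z 1] = 0`. -/
def AdmitsReebDirections (D : E6 → Submodule ℝ E6) (p : E6) : Prop :=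
  ∃ (l : Fin 2 → E6 → (E6 →L[ℝ] ℝ)) (Z : Fin 2 → E6 → E6), ∀ᶠ x in 𝓝 p,
    (∀ i, ContDiffAt ℝ ∞ (l i) x) ∧ (∀ i, ContDiffAt ℝ ∞ (Z i) x) ∧
    (∀ v, v ∈ D x ↔ ∀ i, l i x v = 0) ∧
    IsCompl (D x) (Submodule.span ℝ (Set.range fun i => Z i x)) ∧
    (∀ i j, l i x (Z j x) = if i = j then 1 else 0) ∧
    (∀ i j, ∀ v ∈ D x, dForm (l j) x (Z i x) v = 0) ∧
    lieBracket ℝ (Z 0) (Z 1) x = 0

/-- The germ of `D` at `p` is diffeomorphic to the germ of `D'` at `p'`: a local diffeomorphism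
takes `p` to `p'` and, near `p`, carries `D` to `D'`. -/
def DiffeomorphicGerms (D : E6 → Submodule ℝ E6) (p : E6) (D' : E6 → Submodule ℝ E6) (p' : E6) :
    Prop :=
  ∃ φ : OpenPartialHomeomorph E6 E6, p ∈ φ.source ∧ φ p = p' ∧
    ContDiffOn ℝ ∞ φ φ.source ∧ ContDiffOn ℝ ∞ φ.symm φ.target ∧
    ∀ᶠ x in 𝓝 p, (D x).map (fderiv ℝ φ x : E6 →ₗ[ℝ] E6) = D' (φ x)

/-- The flat hyperbolic distribution `ker (dz₁ - y₁ dx₁) ∩ ker (dz₂ - y₂ dx₂)`: the product of
two standard contact structures on `ℝ³`. -/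
def flat (x : E6) : Submodule ℝ E6 where
  carrier := {v | v 2 - x 1 * v 0 = 0 ∧ v 5 - x 4 * v 3 = 0}
  add_mem' := by
    rintro a b ⟨h1, h2⟩ ⟨h3, h4⟩
    constructor
    · simp only [Pi.add_apply]; linear_combination h1 + h3
    · simp only [Pi.add_apply]; linear_combination h2 + h4
  zero_mem' := by constructor <;> simp
  smul_mem' := by
    rintro c a ⟨h1, h2⟩
    constructor
    · simp only [Pi.smul_apply, smul_eq_mul]; linear_combination c * h1
    · simp only [Pi.smul_apply, smul_eq_mul]; linear_combination c * h2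

end Pool.Agent.Q128.Reeb46
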