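import Pool.Agent.Q128.Tree3

/-!
# Spanning trees of maximum degree three: conclusion
-/

namespace Pool.Agent.Q128.Ham

open Relation

variable {V : Type*}

theorem Sq_sub (Γ : V → V → Prop) (U : Set V) (T : V → V → Prop) (j : ℕ) : Sq Γ U T j ⊆ U := by
  induction j with
  | zero => simp [Sq]
  | succ j ih =>
    rintro x (hx | hx)
    · exact ih hx
    · exact hx.1

theorem Sq_deg {Γ : V → V → Prop} {U : Set V} {T : V → V → Prop} (hT : Sub3 Γ U T) (j : ℕ) :
    ∀ s ∈ Sq Γ U T j, 3 ≤ {w | T s w}.ncard := by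
  induction j with
  | zero => intro s hs; simp [Sq] at hs
  | succ j ih =>
    rintro s (hs | hs)
    · exact ih s hs
    · exact hs.2 T hT (Eqv.refl _ _)

theorem Sq_stable [Finite V] (Γ : V → V → Prop) (U : Set V) (T : V → V → Prop) :
    ∃ m, Sq Γ U T (m + 1) = Sq Γ U T m := by
  by_contra hc
  push Not at hc
  have : ∀ j, j ≤ (Sq Γ U T j).ncard := by
    intro j
    induction j with
    | zero => exact Nat.zero_le _
    | succ j ih =>
      have hlt : Sq Γ U T j ⊂ Sq Γ U T (j + 1) :=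
        lt_of_le_of_ne (Sq_mono_succ Γ U T j) (fun h => hc j h.symm)
      have := Set.ncard_lt_ncard hlt (Set.toFinite _)
      omega
  have h1 := this ((Set.univ : Set V).ncard + 1)
  have h2 := Set.ncard_le_ncard (Set.subset_univ (Sq Γ U T ((Set.univ : Set V).ncard + 1)))
    (Set.toFinite _)
  omega

/-- a vertex of degree at most two next to a new vertex allows an extension -/
theorem extend_sub3 [Finite V] {Γ : V → V → Prop} (hsymm : ∀ x y, Γ x y → Γ y x) {U : Set V}
    {H : V → V → Prop} (hH : Sub3 Γ U H) {u w : V} (hu : u ∈ U) (hw : w ∉ U) (huw : Γ u w)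
    (hd : {x | H u x}.ncard ≤ 2) : ∃ H', Sub3 Γ (insert w U) H' := by
  have hne : u ≠ w := by rintro rfl; exact hw hu
  have hHw : ∀ x, ¬ H w x := fun x h => hw (hH.supp _ _ h)
  refine ⟨fun x y => H x y ∨ (x = u ∧ y = w) ∨ (x = w ∧ y = u), ?_, ?_, ?_, ?_, ?_⟩
  · rintro x y (h | ⟨rfl, rfl⟩ | ⟨rfl, rfl⟩)
    · exact Or.inl (hH.symm _ _ h)
    · exact Or.inr (Or.inr ⟨rfl, rfl⟩)
    · exact Or.inr (Or.inl ⟨rfl, rfl⟩)
  · rintro x y (h | ⟨rfl, rfl⟩ | ⟨rfl, rfl⟩)
    · exact hH.sub _ _ h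
    · exact huw
    · exact hsymm _ _ huw
  · rintro x y (h | ⟨rfl, rfl⟩ | ⟨rfl, rfl⟩)
    · exact Or.inr (hH.supp _ _ h)
    · exact Or.inr hu
    · exact Or.inl rfl
  · have hsym' : ∀ x y, (H x y ∨ (x = u ∧ y = w) ∨ (x = w ∧ y = u)) →
        (H y x ∨ (y = u ∧ x = w) ∨ (y = w ∧ x = u)) := by
      rintro x y (h | ⟨rfl, rfl⟩ | ⟨rfl, rfl⟩)
      · exact Or.inl (hH.symm _ _ h)
      · exact Or.inr (Or.inr ⟨rfl, rfl⟩)
      · exact Or.inr (Or.inl ⟨rfl, rfl⟩)
    have hreach : ∀ x ∈ insert w U,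
        ReflTransGen (fun x y => H x y ∨ (x = u ∧ y = w) ∨ (x = w ∧ y = u)) x u := by
      rintro x (rfl | hx)
      · exact ReflTransGen.single (Or.inr (Or.inr ⟨rfl, rfl⟩))
      · exact rtg_mono (fun _ _ h => Or.inl h) (hH.conn x hx u hu)
    intro x hx y hy
    exact (hreach x hx).trans (rtg_symm hsym' (hreach y hy))
  · intro x
    by_cases hxu : x = u
    · subst hxu
      have : {y | H x y ∨ (x = x ∧ y = w) ∨ (x = w ∧ y = x)} ⊆ insert w {y | H x y} := by
        rintro y (h | ⟨-, rfl⟩ | ⟨h, -⟩)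
        · exact Or.inr h
        · exact Or.inl rfl
        · exact absurd h hne
      refine (Set.ncard_le_ncard this (Set.toFinite _)).trans ?_
      refine (Set.ncard_insert_le _ _).trans ?_
      omega
    · by_cases hxw : x = w
      · subst hxw
        have : {y | H x y ∨ (x = u ∧ y = x) ∨ (x = x ∧ y = u)} ⊆ {u} := by
          rintro y (h | ⟨h, -⟩ | ⟨-, rfl⟩)
          · exact absurd h (hHw y)
          · exact absurd h hxu
          · rfl
        refine (Set.ncard_le_ncard this (Set.toFinite _)).trans ?_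
        rw [Set.ncard_singleton]; omega
      · have : {y | H x y ∨ (x = u ∧ y = w) ∨ (x = w ∧ y = u)} ⊆ {y | H x y} := by
          rintro y (h | ⟨h, -⟩ | ⟨h, -⟩)
          · exact h
          · exact absurd h hxu
          · exact absurd h hxw
        exact (Set.ncard_le_ncard this (Set.toFinite _)).trans (hH.deg x)

/-- walks from a top stay below it -/
theorem up_of_walk {U S : Set V} {r : V} {p : V → V} {t x : V}
    (ht : t = r ∨ p t ∈ S)
    (h : ReflTransGen (Res (PT U r p) S) t x) :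
    ReflTransGen (fun a b => (a ≠ r ∧ b = p a) ∧ a ∉ S ∧ b ∉ S) x t := by
  induction h with
  | refl => exact ReflTransGen.refl
  | @tail b c _ hbc ih =>
    obtain ⟨h1 | h1, h2, h3⟩ := hbc
    · -- an up-step from `b` to `c = p b`
      rcases ReflTransGen.cases_head ih with h4 | ⟨d, hd, h4⟩
      · exfalso
        subst h4
        rcases ht with ht | ht
        · exact h1.2.1 ht
        · rw [← h1.2.2] at ht; exact h3 ht
      · have : d = c := by rw [hd.1.2, h1.2.2]
        rwa [this] at h4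
    · exact ReflTransGen.head ⟨⟨h1.2.1, h1.2.2⟩, h3, h2⟩ ih

theorem tops_disjoint {U S : Set V} {r : V} {p : V → V} {t t' : V}
    (ht : t = r ∨ p t ∈ S) (ht' : t' = r ∨ p t' ∈ S)
    (h : ReflTransGen (Res (PT U r p) S) t t') : t = t' := by
  have h1 := up_of_walk ht h
  rcases ReflTransGen.cases_head h1 with h4 | ⟨d, hd, h4⟩
  · exact h4.symm
  · exfalso
    rcases ht' with h5 | h5
    · exact hd.1.1 h5
    · rw [← hd.1.2] at h5
      exact hd.2.2 h5

theorem exists_spanning [Fintype V] [DecidableEq V] [Nonempty V] {Γ : V → V → Prop}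
    (hsymm : ∀ x y, Γ x y → Γ y x) (hirr : ∀ x, ¬ Γ x x)
    (hvt : VT Γ) (hconn : ∀ x y, ReflTransGen Γ x y) : ∃ H, Sub3 Γ Set.univ H := by
  classical
  obtain ⟨x₀⟩ : Nonempty V := inferInstance
  have hfin : ({U | U.Nonempty ∧ ∃ H, Sub3 Γ U H} : Set (Set V)).Finite := Set.toFinite _
  have hne : ({U | U.Nonempty ∧ ∃ H, Sub3 Γ U H} : Set (Set V)).Nonempty := by
    refine ⟨{x₀}, Set.singleton_nonempty _, fun _ _ => False, ?_, ?_, ?_, ?_, ?_⟩
    · intro _ _ h; exact h
    · intro _ _ h; exact h.elim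
    · intro _ _ h; exact h.elim
    · rintro x hx y hy
      rw [Set.mem_singleton_iff] at hx hy
      rw [hx, hy]
    · intro x
      simp
  obtain ⟨U, ⟨⟨r, hr⟩, H₀, hH₀⟩, hmax⟩ := Set.exists_max_image _ Set.ncard hfin hne
  by_cases hU : U = Set.univ
  · exact ⟨H₀, hU ▸ hH₀⟩
  exfalso
  obtain ⟨p, ρ, hp⟩ := rooted hH₀ hr
  have hT : Sub3 Γ U (PT U r p) := PT_sub3 hH₀ hp
  obtain ⟨m, hm⟩ := Sq_stable Γ U (PT U r p)
  set S := Sq Γ U (PT U r p) m with hS
  have hSU : S ⊆ U := Sq_sub _ _ _ _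
  have hSdeg := Sq_deg hT m
  rw [← hS] at hSdeg
  -- neighbours of the outside are in S
  have hext : ∀ u ∈ U, ∀ w, w ∉ U → Γ u w → u ∈ S := by
    intro u hu w hw huw
    have h1 : u ∈ Sq Γ U (PT U r p) 1 := by
      right
      refine ⟨hu, fun H hH _ => ?_⟩
      by_contra hd
      obtain ⟨H', hH'⟩ := extend_sub3 hsymm hH hu hw huw (by omega)
      have := hmax (insert w U) ⟨⟨w, Or.inl rfl⟩, H', hH'⟩
      rw [Set.ncard_insert_of_notMem hw (Set.toFinite _)] at this
      omega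
    have h2 : Sq Γ U (PT U r p) 1 ⊆ Sq Γ U (PT U r p) (m + 1) :=
      Sq_mono Γ U _ (by omega)
    rw [hm] at h2
    exact h2 h1
  obtain ⟨v₀, hv₀⟩ : ∃ v, v ∉ U := by
    by_contra hc
    push Not at hc
    exact hU (Set.eq_univ_of_forall hc)
  obtain ⟨a, ha, b, hb, hab, -⟩ := crossing hv₀ (hconn r v₀) hr
  have haS : a ∈ S := hext a ha b hb hab
  have htops := tops_card (r := r) (p := p) hr hSdeg
  set Tp : Finset V := Finset.univ.filter (fun t => t ∈ U ∧ t ∉ S ∧ (t = r ∨ p t ∈ S)) with hTp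
  have hTpc : Tp.card = {t | t ∈ U ∧ t ∉ S ∧ (t = r ∨ p t ∈ S)}.ncard := by
    rw [← Set.ncard_coe_finset]
    congr 1
    ext x; simp [hTp]
  set SF : Finset V := Finset.univ.filter (fun w => w ∈ S) with hSFdef
  have hSFc : SF.card = S.ncard := by
    rw [← Set.ncard_coe_finset, hSFdef]
    congr 1
    ext x; simp
  have hTsymm : ∀ x y, Res (PT U r p) S x y → Res (PT U r p) S y x :=
    fun _ _ => Res.symm hT.symm
  set C : V → Finset V := fun t =>
    Finset.univ.filter (fun v => ReflTransGen (Res (PT U r p) S) t v) with hC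
  have hCmem : ∀ t v, v ∈ C t ↔ ReflTransGen (Res (PT U r p) S) t v := by
    intro t v; simp [hC]
  have hCUS : ∀ t ∈ Tp, ∀ v ∈ C t, v ∈ U ∧ v ∉ S := by
    intro t ht v hv
    rw [hCmem] at hv
    simp only [hTp, Finset.mem_filter, Finset.mem_univ, true_and] at ht
    refine ⟨?_, rtg_res_notMem ht.2.1 hv⟩
    rcases ReflTransGen.cases_tail hv with h | ⟨c, _, h⟩
    · rw [h]; exact ht.1
    · exact hT.supp _ _ (hT.symm _ _ h.1)
  have hbound : ∀ t ∈ Tp, ∀ x ∈ C t, ∀ y, y ∉ C t → Γ x y → y ∈ S := by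
    intro t ht x hx y hy hxy
    obtain ⟨hxU, hxS⟩ := hCUS t ht x hx
    by_cases hyU : y ∈ U
    · by_contra hyS
      have h1 := exchange hsymm hT hm hxU hyU hxS hyS hxy
      apply hy
      rw [hCmem] at hx ⊢
      exact hx.trans h1
    · exact absurd (hext x hxU y hyU hxy) hxS
  have hdisj : ∀ t ∈ Tp, ∀ t' ∈ Tp, ∀ x, x ∈ C t → x ∈ C t' → t = t' := by
    intro t ht t' ht' x hx hx'
    simp only [hTp, Finset.mem_filter, Finset.mem_univ, true_and] at ht ht'
    rw [hCmem] at hx hx'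
    exact tops_disjoint ht.2.2 ht'.2.2 (hx.trans (rtg_symm hTsymm hx'))
  -- Mader
  have hmader : ∀ t ∈ Tp, val Γ r ≤ bd Γ (C t) := by
    intro t ht
    apply mader hsymm hirr hvt hconn
    · exact ⟨t, (hCmem t t).2 ReflTransGen.refl⟩
    · intro h
      have : a ∈ C t := by rw [h]; exact Finset.mem_univ _
      exact (hCUS t ht a this).2 haS
  have hsum1 : Tp.card * val Γ r ≤ ∑ t ∈ Tp, bd Γ (C t) := by
    rw [← smul_eq_mul, ← Finset.sum_const]
    exact Finset.sum_le_sum hmader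
  have hsum2 : ∑ t ∈ Tp, bd Γ (C t) ≤
      ((Finset.univ : Finset (V × V)).filter (fun e => e.2 ∈ S ∧ Γ e.1 e.2)).card := by
    unfold bd
    rw [← Finset.card_biUnion]
    · apply Finset.card_le_card
      intro e he
      rw [Finset.mem_biUnion] at he
      obtain ⟨t, ht, he⟩ := he
      simp only [Finset.mem_filter, Finset.mem_univ, true_and] at he ⊢
      exact ⟨hbound t ht _ he.1 _ he.2.1 he.2.2, he.2.2⟩
    · intro t ht t' ht' htt'
      rw [Function.onFun, Finset.disjoint_left]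
      intro e he he'
      simp only [Finset.mem_filter, Finset.mem_univ, true_and] at he he'
      exact htt' (hdisj t ht t' ht' _ he.1 he'.1)
  have hsum3 : ((Finset.univ : Finset (V × V)).filter (fun e => e.2 ∈ S ∧ Γ e.1 e.2)).card =
      SF.card * val Γ r := by
    have h1 : SF.card * val Γ r = ∑ s ∈ SF, val Γ s := by
      rw [← smul_eq_mul, ← Finset.sum_const]
      exact Finset.sum_congr rfl (fun s _ => val_const hvt _ _)
    rw [h1]
    unfold val
    rw [← Finset.card_sigma]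
    refine Finset.card_bij (fun e _ => ⟨e.2, e.1⟩) ?_ ?_ ?_
    · rintro ⟨x, y⟩ h
      simp only [hSFdef, Finset.mem_filter, Finset.mem_univ, true_and, Finset.mem_sigma] at h ⊢
      exact ⟨h.1, hsymm _ _ h.2⟩
    · rintro ⟨x, y⟩ _ ⟨x', y'⟩ _ h
      simp only [Sigma.mk.injEq, heq_eq_eq] at h
      rw [h.1, h.2]
    · rintro ⟨x, y⟩ h
      refine ⟨(y, x), ?_, rfl⟩
      simp only [hSFdef, Finset.mem_filter, Finset.mem_univ, true_and, Finset.mem_sigma] at h ⊢
      exact ⟨h.1, hsymm _ _ h.2⟩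
  have hvalpos : 0 < val Γ r := by
    rw [val_const hvt r a]
    unfold val
    exact Finset.card_pos.2 ⟨b, by simp [hab]⟩
  have hfinal : Tp.card * val Γ r ≤ SF.card * val Γ r := by
    rw [← hsum3]
    exact hsum1.trans hsum2
  have := Nat.le_of_mul_le_mul_right hfinal hvalpos
  omega

/-- a spanning tree rooted so that every vertex has at most two children -/
theorem exists_binary [Fintype V] [DecidableEq V] [Nonempty V] {Γ : V → V → Prop}
    (hsymm : ∀ x y, Γ x y → Γ y x) (hirr : ∀ x, ¬ Γ x x)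
    (hvt : VT Γ) (hconn : ∀ x y, ReflTransGen Γ x y) :
    ∃ (r : V) (p : V → V) (ρ : V → ℕ), (∀ v, v ≠ r → Γ v (p v) ∧ ρ (p v) < ρ v) ∧
      ∀ w, {v | v ≠ r ∧ p v = w}.ncard ≤ 2 := by
  classical
  obtain ⟨H, hH⟩ := exists_spanning hsymm hirr hvt hconn
  obtain ⟨x₀⟩ : Nonempty V := inferInstance
  obtain ⟨p₀, ρ₀, hp₀⟩ := rooted hH (Set.mem_univ x₀)
  have hT := PT_sub3 hH hp₀
  obtain ⟨r, -, hr⟩ := Finset.exists_max_image (Finset.univ : Finset V) ρ₀ ⟨x₀, Finset.mem_univ _⟩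
  have hrdeg : {y | PT Set.univ x₀ p₀ r y}.ncard ≤ 1 := by
    have : {y | PT Set.univ x₀ p₀ r y} ⊆ {p₀ r} := by
      rintro y (⟨_, _, rfl⟩ | ⟨h1, h2, h3⟩)
      · rfl
      · exfalso
        have h4 := (hp₀ y h1 h2).2.2
        rw [← h3] at h4
        have := hr y (Finset.mem_univ _)
        omega
    refine (Set.ncard_le_ncard this (Set.toFinite _)).trans ?_
    rw [Set.ncard_singleton]
  obtain ⟨p, ρ, hp⟩ := rooted hT (Set.mem_univ r)
  refine ⟨r, p, ρ, ?_, ?_⟩
  · intro v hv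
    obtain ⟨_, h2, h3⟩ := hp v (Set.mem_univ _) hv
    exact ⟨hT.sub _ _ h2, h3⟩
  · intro w
    by_cases hw : w = r
    · subst hw
      have : {v | v ≠ w ∧ p v = w} ⊆ {y | PT Set.univ x₀ p₀ w y} := by
        rintro v ⟨h1, h2⟩
        have := (hp v (Set.mem_univ _) h1).2.1
        rw [h2] at this
        exact hT.symm _ _ this
      have := Set.ncard_le_ncard this (Set.toFinite _)
      omega
    · obtain ⟨_, h2, h3⟩ := hp w (Set.mem_univ _) hw
      have hsub : {v | v ≠ r ∧ p v = w} ⊆ {y | PT Set.univ x₀ p₀ w y} \ {p w} := by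
        rintro v ⟨h4, h5⟩
        obtain ⟨_, h6, h7⟩ := hp v (Set.mem_univ _) h4
        rw [h5] at h6 h7
        refine ⟨hT.symm _ _ h6, ?_⟩
        rintro rfl
        omega
      have h4 := Set.ncard_le_ncard hsub (Set.toFinite _)
      have h5 := Set.ncard_sdiff_singleton_lt_of_mem (s := {y | PT Set.univ x₀ p₀ w y})
        (a := p w) h2 (Set.toFinite _)
      have h6 := hT.deg w
      omega

end Pool.Agent.Q128.Ham
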