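import Pool.Agent.Q128.Exch2
import Pool.Agent.Q128.Mader

/-!
# Spanning trees of maximum degree three in finite connected vertex-transitive graphs
-/

namespace Pool.Agent.Q128.Ham

open Relation

variable {V : Type*}

theorem rooted [Finite V] {Γ : V → V → Prop} {U : Set V} {H : V → V → Prop}
    (hH : Sub3 Γ U H) {r : V} (hr : r ∈ U) :
    ∃ (p : V → V) (ρ : V → ℕ), ∀ v ∈ U, v ≠ r → p v ∈ U ∧ H v (p v) ∧ ρ (p v) < ρ v := by
  classical
  have key : ∀ n : ℕ, ∃ W : Set V, W ⊆ U ∧ r ∈ W ∧ (n ≤ W.ncard ∨ W = U) ∧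
      ∃ (p : V → V) (ρ : V → ℕ), ∀ v ∈ W, v ≠ r → p v ∈ W ∧ H v (p v) ∧ ρ (p v) < ρ v := by
    intro n
    induction n with
    | zero =>
      refine ⟨{r}, by simpa using hr, rfl, Or.inl (Nat.zero_le _), id, fun _ => 0, ?_⟩
      intro v hv hvr
      exact absurd hv hvr
    | succ n ih =>
      obtain ⟨W, hWU, hrW, hcase, p, ρ, hp⟩ := ih
      by_cases hWeq : W = U
      · exact ⟨W, hWU, hrW, Or.inr hWeq, p, ρ, hp⟩
      have hn : n ≤ W.ncard := hcase.resolve_right hWeq
      obtain ⟨v₀, hv₀U, hv₀W⟩ : ∃ v ∈ U, v ∉ W := by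
        by_contra hc
        push Not at hc
        exact hWeq (Set.Subset.antisymm hWU hc)
      obtain ⟨a, ha, s, hs, has, -⟩ := crossing hv₀W (hH.conn r hr v₀ hv₀U) hrW
      have hsU : s ∈ U := hH.supp s a (hH.symm _ _ has)
      refine ⟨insert s W, Set.insert_subset hsU hWU, Or.inr hrW, Or.inl ?_,
        Function.update p s a, Function.update ρ s (ρ a + 1), ?_⟩
      · rw [Set.ncard_insert_of_notMem hs (Set.toFinite _)]
        omega
      · rintro v (rfl | hv) hvr
        · rw [Function.update_self]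
          have hav : a ≠ v := by rintro rfl; exact hs ha
          rw [Function.update_of_ne hav, Function.update_self]
          exact ⟨Or.inr ha, hH.symm _ _ has, Nat.lt_succ_self _⟩
        · have hvs : v ≠ s := by rintro rfl; exact hs hv
          obtain ⟨h1, h2, h3⟩ := hp v hv hvr
          have hps : p v ≠ s := by intro h; rw [h] at h1; exact hs h1
          rw [Function.update_of_ne hvs, Function.update_of_ne hps, Function.update_of_ne hvs]
          exact ⟨Or.inr h1, h2, h3⟩
  obtain ⟨W, hWU, hrW, hcase, p, ρ, hp⟩ := key (U.ncard + 1)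
  have hWeq : W = U := by
    rcases hcase with h | h
    · have := Set.ncard_le_ncard hWU (Set.toFinite _)
      omega
    · exact h
  subst hWeq
  exact ⟨p, ρ, hp⟩

/-- the graph of a parent function -/
def PT (U : Set V) (r : V) (p : V → V) (x w : V) : Prop :=
  (x ∈ U ∧ x ≠ r ∧ w = p x) ∨ (w ∈ U ∧ w ≠ r ∧ x = p w)

theorem PT_sub3 [Finite V] {Γ : V → V → Prop} {U : Set V} {H : V → V → Prop}
    (hH : Sub3 Γ U H) {r : V} {p : V → V} {ρ : V → ℕ}
    (hp : ∀ v ∈ U, v ≠ r → p v ∈ U ∧ H v (p v) ∧ ρ (p v) < ρ v) : Sub3 Γ U (PT U r p) := by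
  have hsymm : ∀ x y, PT U r p x y → PT U r p y x := by
    rintro x y (h | h)
    · exact Or.inr h
    · exact Or.inl h
  have hPH : ∀ x y, PT U r p x y → H x y := by
    rintro x y (⟨h1, h2, rfl⟩ | ⟨h1, h2, rfl⟩)
    · exact (hp x h1 h2).2.1
    · exact hH.symm _ _ (hp y h1 h2).2.1
  have hreach : ∀ n : ℕ, ∀ v ∈ U, ρ v ≤ n → ReflTransGen (PT U r p) v r := by
    intro n
    induction n with
    | zero =>
      intro v hv hn
      by_cases hvr : v = r
      · rw [hvr]
      · have := (hp v hv hvr).2.2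
        omega
    | succ n ih =>
      intro v hv hn
      by_cases hvr : v = r
      · rw [hvr]
      · obtain ⟨h1, h2, h3⟩ := hp v hv hvr
        exact ReflTransGen.head (Or.inl ⟨hv, hvr, rfl⟩) (ih (p v) h1 (by omega))
  refine ⟨hsymm, fun x y h => hH.sub _ _ (hPH x y h), ?_, ?_, ?_⟩
  · intro x y h
    exact hH.supp x y (hPH x y h)
  · intro x hx y hy
    exact (hreach _ x hx le_rfl).trans (rtg_symm hsymm (hreach _ y hy le_rfl))
  · intro x
    exact (Set.ncard_le_ncard (fun y h => hPH x y h) (Set.toFinite _)).trans (hH.deg x)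

/-- counting the components of a tree minus a set of vertices of degree three -/
theorem tops_card [Fintype V] {U S : Set V} {r : V} {p : V → V} (hr : r ∈ U)
    (hdeg : ∀ s ∈ S, 3 ≤ {w | PT U r p s w}.ncard) :
    S.ncard + 1 ≤ {t | t ∈ U ∧ t ∉ S ∧ (t = r ∨ p t ∈ S)}.ncard := by
  classical
  -- children
  have hch : ∀ s ∈ S, 2 + (if s = r then 1 else 0) ≤ {w | w ∈ U ∧ w ≠ r ∧ p w = s}.ncard := by
    intro s hs
    have h1 := hdeg s hs
    by_cases hsr : s = r
    · subst hsr
      have : {w | PT U s p s w} ⊆ {w | w ∈ U ∧ w ≠ s ∧ p w = s} := by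
        rintro w (⟨_, h, _⟩ | ⟨h2, h3, h4⟩)
        · exact absurd rfl h
        · exact ⟨h2, h3, h4.symm⟩
      have h2 := Set.ncard_le_ncard this (Set.toFinite _)
      simp only [if_true]
      omega
    · have : {w | PT U r p s w} ⊆ insert (p s) {w | w ∈ U ∧ w ≠ r ∧ p w = s} := by
        rintro w (⟨_, _, rfl⟩ | ⟨h2, h3, h4⟩)
        · exact Or.inl rfl
        · exact Or.inr ⟨h2, h3, h4.symm⟩
      have h2 := Set.ncard_le_ncard this (Set.toFinite _)
      have h3 := Set.ncard_insert_le (p s) {w | w ∈ U ∧ w ≠ r ∧ p w = s}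
      simp only [hsr, if_false]
      omega
  -- all children of vertices in S
  set Ch : Finset V := Finset.univ.filter (fun w => w ∈ U ∧ w ≠ r ∧ p w ∈ S) with hChdef
  set SF : Finset V := Finset.univ.filter (fun w => w ∈ S) with hSFdef
  have hSFc : SF.card = S.ncard := by
    rw [← Set.ncard_coe_finset, hSFdef]
    congr 1
    ext x; simp
  have hChc : Ch.card = ∑ s ∈ SF, {w | w ∈ U ∧ w ≠ r ∧ p w = s}.ncard := by
    rw [Finset.card_eq_sum_card_fiberwise (f := p) (t := SF)]
    · refine Finset.sum_congr rfl ?_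
      intro s hs
      rw [← Set.ncard_coe_finset]
      congr 1
      ext w
      simp only [hChdef, hSFdef, Finset.coe_filter, Finset.mem_filter, Finset.mem_univ, true_and,
        Set.mem_ofPred_eq] at hs ⊢
      constructor
      · rintro ⟨⟨h1, h2, h3⟩, h4⟩; exact ⟨h1, h2, h4⟩
      · rintro ⟨h1, h2, h3⟩; exact ⟨⟨h1, h2, h3 ▸ hs⟩, h3⟩
    · intro w hw
      simp only [hChdef, hSFdef, Finset.coe_filter, Finset.mem_univ, true_and,
        Set.mem_ofPred_eq] at hw ⊢
      exact hw.2.2
  have hsum : 2 * SF.card + (if r ∈ S then 1 else 0) ≤ Ch.card := by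
    rw [hChc]
    have h1 : ∑ s ∈ SF, (2 + (if s = r then 1 else 0)) ≤
        ∑ s ∈ SF, {w | w ∈ U ∧ w ≠ r ∧ p w = s}.ncard := by
      refine Finset.sum_le_sum ?_
      intro s hs
      apply hch
      simpa [hSFdef] using hs
    refine le_trans ?_ h1
    rw [Finset.sum_add_distrib, Finset.sum_const, smul_eq_mul, Finset.sum_ite_eq']
    have : (r ∈ SF) ↔ r ∈ S := by simp [hSFdef]
    simp only [this]
    omega
  -- split the children
  have hsplit : Ch.card ≤ (SF.erase r).card + (Ch.filter (fun w => w ∉ S)).card := by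
    have : Ch ⊆ (SF.erase r) ∪ (Ch.filter (fun w => w ∉ S)) := by
      intro w hw
      simp only [Finset.mem_union, Finset.mem_erase, Finset.mem_filter]
      by_cases hwS : w ∈ S
      · left
        refine ⟨?_, by simp [hSFdef, hwS]⟩
        simp only [hChdef, Finset.mem_filter, Finset.mem_univ, true_and] at hw
        exact hw.2.1
      · exact Or.inr ⟨hw, hwS⟩
    exact (Finset.card_le_card this).trans (Finset.card_union_le _ _)
  have htop : (Ch.filter (fun w => w ∉ S)).card + (if r ∈ S then 0 else 1) ≤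
      {t | t ∈ U ∧ t ∉ S ∧ (t = r ∨ p t ∈ S)}.ncard := by
    by_cases hrS : r ∈ S
    · simp only [hrS, if_true, add_zero]
      rw [← Set.ncard_coe_finset]
      refine Set.ncard_le_ncard ?_ (Set.toFinite _)
      intro w hw
      simp only [hChdef, Finset.coe_filter, Finset.mem_filter, Finset.mem_univ, true_and,
        Set.mem_ofPred_eq] at hw ⊢
      exact ⟨hw.1.1, hw.2, Or.inr hw.1.2.2⟩
    · simp only [hrS, if_false]
      have hrn : r ∉ (Ch.filter (fun w => w ∉ S)) := by
        simp [hChdef]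
      rw [← Finset.card_insert_of_notMem hrn, ← Set.ncard_coe_finset]
      refine Set.ncard_le_ncard ?_ (Set.toFinite _)
      intro w hw
      rw [Finset.coe_insert] at hw
      rcases hw with rfl | hw
      · exact ⟨hr, hrS, Or.inl rfl⟩
      · simp only [hChdef, Finset.coe_filter, Finset.mem_filter, Finset.mem_univ, true_and,
          Set.mem_ofPred_eq] at hw ⊢
        exact ⟨hw.1.1, hw.2, Or.inr hw.1.2.2⟩
  rw [← hSFc]
  by_cases hrS : r ∈ S
  · have hrSF : r ∈ SF := by simp [hSFdef, hrS]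
    have h3 := Finset.card_erase_of_mem hrSF
    have h4 : 0 < SF.card := Finset.card_pos.2 ⟨r, hrSF⟩
    simp only [hrS, if_true] at hsum htop
    omega
  · have hrSF : r ∉ SF := by simp [hSFdef, hrS]
    have h3 := Finset.erase_eq_of_notMem hrSF
    rw [h3] at hsplit
    simp only [hrS, if_false] at hsum htop
    omega

end Pool.Agent.Q128.Ham
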